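import Mathlib

set_option autoImplicit false

noncomputable section

namespace Pool.Agent.Lib.MP_18eb12_gt

open scoped Manifold ContDiff
open MeasureTheory

/-- coordinate space R^n -/
abbrev E (n : ℕ) : Type := Fin n → ℝ

/-- components g_ij(y) of a metric in local coordinates -/
abbrev Met (n : ℕ) : Type := E n → Matrix (Fin n) (Fin n) ℝ

/-- components T_I(y) of a covariant k-tensor field in local coordinates -/
abbrev Ten (n k : ℕ) : Type := E n → (Fin k → Fin n) → ℝ

section Local

variable {n k l : ℕ}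

/-- coordinate derivative -/
def pd (i : Fin n) (f : E n → ℝ) (y : E n) : ℝ := fderiv ℝ f y (Pi.single i 1)

/-- Christoffel symbol Γ^m_ij -/
def chr (g : Met n) (y : E n) (m i j : Fin n) : ℝ :=
  1 / 2 * ∑ p, (g y)⁻¹ m p *
    (pd i (fun z => g z j p) y + pd j (fun z => g z i p) y - pd p (fun z => g z i j) y)

/-- Riemann tensor R_ijkl = g(R(e_i, e_j) e_k, e_l) -/
def riem (g : Met n) : Ten n 4 := fun y I =>
  ∑ m, g y m (I 3) * (pd (I 0) (fun z => chr g z m (I 1) (I 2)) y
    - pd (I 1) (fun z => chr g z m (I 0) (I 2)) y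
    + ∑ p, (chr g y m (I 0) p * chr g y p (I 1) (I 2) - chr g y m (I 1) p * chr g y p (I 0) (I 2)))

/-- Levi-Civita covariant derivative, the new index first -/
def cov (g : Met n) (T : Ten n k) : Ten n (k + 1) := fun y I =>
  pd (I 0) (fun z => T z (Fin.tail I)) y
    - ∑ a : Fin k, ∑ m, chr g y m (I 0) (I a.succ) * T y (Function.update (Fin.tail I) a m)

/-- contraction of the first two indices with the inverse metric -/
def contr (g : Met n) (T : Ten n (k + 2)) : Ten n k := fun y I =>
  ∑ i, ∑ j, (g y)⁻¹ i j * T y (Fin.cons i (Fin.cons j I : Fin (k + 1) → Fin n))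

/-- tensor product -/
def tens (T : Ten n k) (T' : Ten n l) : Ten n (k + l) := fun y I =>
  T y (fun a => I (Fin.castAdd l a)) * T' y (fun b => I (Fin.natAdd k b))

/-- natural tensors: generated from 1, the metric and the Riemann tensor by covariant derivatives,
tensor products, permutations of indices, contractions and linear combinations -/
inductive IsNatural (n : ℕ) : (k : ℕ) → (Met n → Ten n k) → Prop
  | ofOne : IsNatural n 0 (fun _ _ _ => 1)
  | ofMetric : IsNatural n 2 (fun g y I => g y (I 0) (I 1))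
  | ofRiem : IsNatural n 4 riem
  | ofCov {k : ℕ} {T : Met n → Ten n k} :
      IsNatural n k T → IsNatural n (k + 1) (fun g => cov g (T g))
  | ofTens {k l : ℕ} {T : Met n → Ten n k} {T' : Met n → Ten n l} :
      IsNatural n k T → IsNatural n l T' → IsNatural n (k + l) (fun g => tens (T g) (T' g))
  | ofPerm {k : ℕ} {T : Met n → Ten n k} (σ : Equiv.Perm (Fin k)) :
      IsNatural n k T → IsNatural n k (fun g y I => T g y (I ∘ σ))
  | ofContr {k : ℕ} {T : Met n → Ten n (k + 2)} :
      IsNatural n (k + 2) T → IsNatural n k (fun g => contr g (T g))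
  | ofSMul {k : ℕ} {T : Met n → Ten n k} (c : ℝ) :
      IsNatural n k T → IsNatural n k (fun g y I => c * T g y I)
  | ofAdd {k : ℕ} {T T' : Met n → Ten n k} :
      IsNatural n k T → IsNatural n k T' → IsNatural n k (fun g y I => T g y I + T' g y I)

end Local

section Manifold

variable (V : Type) [NormedAddCommGroup V] [NormedSpace ℝ V]
  (M : Type) [TopologicalSpace M] [ChartedSpace V M]

/-- smooth real functions on M -/
abbrev Smooth : Type := C^∞⟮𝓘(ℝ, V), M; ℝ⟯

/-- smooth Riemannian metrics on M -/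
abbrev RMetric [IsManifold 𝓘(ℝ, V) ∞ M] : Type :=
  Bundle.ContMDiffRiemannianMetric 𝓘(ℝ, V) ∞ V (fun x : M => TangentSpace 𝓘(ℝ, V) x)

variable {V M}

/-- the tangent vector of M with coordinates u at the point with coordinates y, in the chart at x -/
def push (x : M) (y u : V) : TangentSpace 𝓘(ℝ, V) ((chartAt V x).symm y) :=
  mfderiv 𝓘(ℝ, V) 𝓘(ℝ, V) (chartAt V x).symm y u

variable [IsManifold 𝓘(ℝ, V) ∞ M]

/-- g_x(u, v) -/
def gval (g : RMetric V M) (x : M) (u v : TangentSpace 𝓘(ℝ, V) x) : ℝ := g.inner x u v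

/-- g' = exp(2 w) g -/
def IsConf (g : RMetric V M) (w : M → ℝ) (g' : RMetric V M) : Prop :=
  ∀ (x : M) (u v : TangentSpace 𝓘(ℝ, V) x), gval g' x u v = Real.exp (2 * w x) * gval g x u v

/-- the integral of s_g dv_g over M is conformally invariant -/
def ConfInvIntegral [MeasurableSpace M] (dv : RMetric V M → Measure M)
    (s : RMetric V M → M → ℝ) : Prop :=
  ∀ (g g' : RMetric V M) (w : Smooth V M), IsConf g w g' →
    ∫ x, s g' x ∂dv g' = ∫ x, s g x ∂dv g

/-- the n-form s_g dv_g is pointwise conformally invariant -/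
def LocalConfInv (n : ℕ) (s : RMetric V M → M → ℝ) : Prop :=
  ∀ (g g' : RMetric V M) (w : Smooth V M), IsConf g w g' →
    ∀ x, Real.exp (n * w x) * s g' x = s g x

/-- the n-form q_g dv_g obeys the law of Q-curvature, Q(exp(2 w) g) = Q(g) + P_g w with P_g linear -/
def QLaw (n : ℕ) (q : RMetric V M → M → ℝ) : Prop :=
  ∀ g : RMetric V M, ∃ P : Smooth V M →ₗ[ℝ] (M → ℝ),
    ∀ (g' : RMetric V M) (w : Smooth V M), IsConf g w g' →
      ∀ x, Real.exp (n * w x) * q g' x = q g x + P w x

/-- the integral of f_g dv_g has conformal variation the integral of w s_g dv_g -/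
def IsPrimitive [MeasurableSpace M] (dv : RMetric V M → Measure M)
    (f s : RMetric V M → M → ℝ) : Prop :=
  ∀ (g : RMetric V M) (w : Smooth V M) (γ : ℝ → RMetric V M),
    (∀ ε : ℝ, IsConf g (fun x => ε * w x) (γ ε)) →
      HasDerivAt (fun ε => ∫ x, f (γ ε) x ∂dv (γ ε)) (∫ x, w x * s g x ∂dv g) 0

end Manifold

section Densities

variable {n : ℕ} {M : Type} [TopologicalSpace M] [ChartedSpace (E n) M]
  [IsManifold 𝓘(ℝ, E n) ∞ M]

/-- components of g in the chart at x -/
def coord (g : RMetric (E n) M) (x : M) : Met n := fun y i j =>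
  gval g ((chartAt (E n) x).symm y) (push x y (Pi.single i 1)) (push x y (Pi.single j 1))

/-- the function s_g on M given by a natural scalar s -/
def onM (s : Met n → Ten n 0) (g : RMetric (E n) M) (x : M) : ℝ :=
  s (coord g x) (chartAt (E n) x x) Fin.elim0

/-- Riemannian volume: the least measure above the measures sqrt(det g_ij) dy of all charts -/
def vol [MeasurableSpace M] (g : RMetric (E n) M) : Measure M :=
  ⨆ x : M, Measure.map (chartAt (E n) x).symm
    ((volume.restrict (chartAt (E n) x).target).withDensity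
      fun y => ENNReal.ofReal (Real.sqrt (coord g x y).det))

end Densities

end Pool.Agent.Lib.MP_18eb12_gt
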