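import Mathlib
import Pool.Agent.Lib.MP_18eb12_gt.Defs

set_option autoImplicit false

noncomputable section

namespace Pool.Agent.Lib.MP_18eb12_gt

open scoped ContDiff Topology
open Set Filter

variable {n : ℕ} {U : Set (E n)} {f g : E n → ℝ} {y : E n} {i j : Fin n}

/-- smooth on U -/
abbrev Sm (U : Set (E n)) (f : E n → ℝ) : Prop := ContDiffOn ℝ ∞ f U

theorem Sm.dAt (hf : Sm U f) (hU : IsOpen U) (hy : y ∈ U) : DifferentiableAt ℝ f y :=
  (hf.contDiffAt (hU.mem_nhds hy)).differentiableAt (by simp)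

theorem pd_congr (h : f =ᶠ[𝓝 y] g) : pd i f y = pd i g y := by
  unfold pd; rw [h.fderiv_eq]

theorem pd_congr_on (hU : IsOpen U) (hy : y ∈ U) (h : ∀ z ∈ U, f z = g z) :
    pd i f y = pd i g y :=
  pd_congr (eventually_of_mem (hU.mem_nhds hy) h)

@[simp] theorem pd_const (c : ℝ) : pd i (fun _ : E n => c) y = 0 := by
  simp [pd]

theorem pd_add (hf : DifferentiableAt ℝ f y) (hg : DifferentiableAt ℝ g y) :
    pd i (fun z => f z + g z) y = pd i f y + pd i g y := by
  unfold pd; rw [fderiv_fun_add hf hg]; rfl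

theorem pd_sub (hf : DifferentiableAt ℝ f y) (hg : DifferentiableAt ℝ g y) :
    pd i (fun z => f z - g z) y = pd i f y - pd i g y := by
  unfold pd; rw [fderiv_fun_sub hf hg]; rfl

theorem pd_neg : pd i (fun z => - f z) y = - pd i f y := by
  unfold pd; rw [fderiv_fun_neg]; rfl

theorem pd_mul (hf : DifferentiableAt ℝ f y) (hg : DifferentiableAt ℝ g y) :
    pd i (fun z => f z * g z) y = pd i f y * g y + f y * pd i g y := by
  unfold pd; rw [fderiv_fun_mul hf hg]; simp; ring

theorem pd_const_mul (c : ℝ) (hf : DifferentiableAt ℝ f y) :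
    pd i (fun z => c * f z) y = c * pd i f y := by
  rw [pd_mul (differentiableAt_const c) hf]; simp

theorem pd_mul_const (c : ℝ) (hf : DifferentiableAt ℝ f y) :
    pd i (fun z => f z * c) y = pd i f y * c := by
  rw [pd_mul hf (differentiableAt_const c)]; simp

theorem pd_sum {ι : Type*} {s : Finset ι} {F : ι → E n → ℝ}
    (h : ∀ a ∈ s, DifferentiableAt ℝ (F a) y) :
    pd i (fun z => ∑ a ∈ s, F a z) y = ∑ a ∈ s, pd i (F a) y := by
  unfold pd; rw [fderiv_fun_sum h]; simp

theorem pd_prod {ι : Type*} [DecidableEq ι] {s : Finset ι} {F : ι → E n → ℝ}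
    (h : ∀ a ∈ s, DifferentiableAt ℝ (F a) y) :
    pd i (fun z => ∏ a ∈ s, F a z) y = ∑ a ∈ s, pd i (F a) y * ∏ b ∈ s.erase a, F b y := by
  unfold pd; rw [fderiv_finsetProd h]; simp [mul_comm]

theorem pd_coord : pd i (fun z : E n => z j) y = if j = i then 1 else 0 := by
  unfold pd
  rw [show (fun z : E n => z j) = (ContinuousLinearMap.proj j : E n →L[ℝ] ℝ) from rfl,
    ContinuousLinearMap.fderiv]
  simp [Pi.single_apply]

theorem pd_comp_real {φ : ℝ → ℝ} {φ' : ℝ} (hφ : HasDerivAt φ φ' (f y))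
    (hf : DifferentiableAt ℝ f y) : pd i (fun z => φ (f z)) y = φ' * pd i f y := by
  unfold pd
  have := (hφ.comp_hasFDerivAt y hf.hasFDerivAt).fderiv
  rw [show (fun z => φ (f z)) = φ ∘ f from rfl, this]; simp

theorem pd_exp (hf : DifferentiableAt ℝ f y) :
    pd i (fun z => Real.exp (f z)) y = Real.exp (f y) * pd i f y :=
  pd_comp_real (Real.hasDerivAt_exp _) hf

theorem Sm.pd (hf : Sm U f) (hU : IsOpen U) (i : Fin n) : Sm U (pd i f) :=
  (hf.fderiv_of_isOpen hU (m := ∞) (by simp)).clm_apply contDiffOn_const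

theorem pd_comm (hf : Sm U f) (hU : IsOpen U) (hy : y ∈ U) :
    pd i (pd j f) y = pd j (pd i f) y := by
  have h2 : ContDiffAt ℝ ∞ f y := hf.contDiffAt (hU.mem_nhds hy)
  have hs : IsSymmSndFDerivAt ℝ f y := h2.isSymmSndFDerivAt (by
    simp only [minSmoothness_of_isRCLikeNormedField]
    exact WithTop.coe_le_coe.2 (le_top : (2 : ℕ∞) ≤ ⊤))
  have hd : DifferentiableAt ℝ (fderiv ℝ f) y :=
    ((hf.fderiv_of_isOpen hU (m := ∞) (by simp)).contDiffAt (hU.mem_nhds hy)).differentiableAt
      (by simp)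
  have key : ∀ a b : Fin n, pd a (pd b f) y
      = fderiv ℝ (fderiv ℝ f) y (Pi.single a 1) (Pi.single b 1) := by
    intro a b
    unfold pd
    rw [fderiv_clm_apply hd (differentiableAt_const _)]
    simp
  rw [key, key]
  exact hs.eq _ _

theorem clm_apply_eq_sum (L : E n →L[ℝ] ℝ) (v : E n) :
    L v = ∑ j, L (Pi.single j 1) * v j := by
  conv_lhs => rw [pi_eq_sum_univ' v]
  simp [mul_comm]

theorem pd_comp {τ : E n → E n} (hτ : DifferentiableAt ℝ τ y) (hf : DifferentiableAt ℝ f (τ y)) :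
    pd i (fun z => f (τ z)) y = ∑ j, pd j f (τ y) * pd i (fun z => τ z j) y := by
  unfold pd
  rw [show (fun z => f (τ z)) = f ∘ τ from rfl, fderiv_comp y hf hτ, ContinuousLinearMap.comp_apply,
    clm_apply_eq_sum]
  refine Finset.sum_congr rfl fun j _ => ?_
  congr 1
  rw [fderiv_pi (fun j => differentiableAt_pi.1 hτ j)]
  rfl

theorem sm_det {h : Met n} (hh : ∀ i j, Sm U fun z => h z i j) : Sm U fun z => (h z).det := by
  simp only [Matrix.det_apply']
  exact ContDiffOn.sum fun σ _ => contDiffOn_const.mul (contDiffOn_prod fun i _ => hh _ _)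

theorem sm_inv {h : Met n} (hh : ∀ i j, Sm U fun z => h z i j) (hd : ∀ z ∈ U, (h z).det ≠ 0)
    (i j : Fin n) : Sm U fun z => (h z)⁻¹ i j := by
  have h1 : Sm U fun z => (h z).adjugate i j := by
    simp only [Matrix.adjugate_apply]
    refine sm_det (h := fun z => (h z).updateRow j (Pi.single i 1)) fun a b => ?_
    by_cases hab : a = j
    · subst hab; simp only [Matrix.updateRow_self]; exact contDiffOn_const
    · simp only [Matrix.updateRow_ne hab]; exact hh a b
  have h2 := ((sm_det hh).inv hd).mul h1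
  refine h2.congr fun z _ => ?_
  simp [Matrix.inv_def]

/-- a smooth symmetric invertible matrix field on an open set -/
structure Good (U : Set (E n)) (h : Met n) : Prop where
  isOpen : IsOpen U
  sm : ∀ i j, Sm U fun z => h z i j
  symm : ∀ z ∈ U, ∀ i j, h z i j = h z j i
  det : ∀ z ∈ U, (h z).det ≠ 0

variable {h : Met n}

theorem Good.inv (H : Good U h) (i j : Fin n) : Sm U fun z => (h z)⁻¹ i j :=
  sm_inv H.sm H.det i j

theorem Good.mono (H : Good U h) {V : Set (E n)} (hV : IsOpen V) (hVU : V ⊆ U) : Good V h :=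
  ⟨hV, fun i j => (H.sm i j).mono hVU, fun z hz => H.symm z (hVU hz), fun z hz => H.det z (hVU hz)⟩

theorem Good.transpose (H : Good U h) (hy : y ∈ U) : (h y).transpose = h y := by
  ext i j; exact H.symm y hy j i

theorem Good.inv_symm (H : Good U h) (hy : y ∈ U) (i j : Fin n) : (h y)⁻¹ i j = (h y)⁻¹ j i := by
  have : ((h y)⁻¹).transpose = (h y)⁻¹ := by rw [Matrix.transpose_nonsing_inv, H.transpose hy]
  exact (congrFun (congrFun this i) j).symm

theorem Good.mul_inv (H : Good U h) (hy : y ∈ U) (i j : Fin n) :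
    ∑ p, h y i p * (h y)⁻¹ p j = if i = j then 1 else 0 := by
  have := Matrix.mul_nonsing_inv (h y) (isUnit_iff_ne_zero.2 (H.det y hy))
  have h2 := congrFun (congrFun this i) j
  rwa [Matrix.mul_apply, Matrix.one_apply] at h2

theorem Good.inv_mul (H : Good U h) (hy : y ∈ U) (i j : Fin n) :
    ∑ p, (h y)⁻¹ i p * h y p j = if i = j then 1 else 0 := by
  have := Matrix.nonsing_inv_mul (h y) (isUnit_iff_ne_zero.2 (H.det y hy))
  have h2 := congrFun (congrFun this i) j
  rwa [Matrix.mul_apply, Matrix.one_apply] at h2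

theorem Good.chr (H : Good U h) (m i j : Fin n) : Sm U fun z => chr h z m i j := by
  unfold MP_18eb12_gt.chr
  refine contDiffOn_const.mul (ContDiffOn.sum fun p _ => (H.inv m p).mul ?_)
  exact (((H.sm j p).pd H.isOpen i).add ((H.sm i p).pd H.isOpen j)).sub ((H.sm i j).pd H.isOpen p)

theorem Good.chr_symm (H : Good U h) (hy : y ∈ U) (m i j : Fin n) :
    MP_18eb12_gt.chr h y m i j = MP_18eb12_gt.chr h y m j i := by
  unfold MP_18eb12_gt.chr
  congr 1
  refine Finset.sum_congr rfl fun p _ => ?_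
  rw [pd_congr_on (i := p) H.isOpen hy (fun z hz => H.symm z hz i j)]
  ring

/-- a tensor field with smooth components -/
abbrev SmT {k : ℕ} (U : Set (E n)) (T : Ten n k) : Prop := ∀ I, Sm U fun z => T z I

theorem Good.riem (H : Good U h) : SmT U (riem h) := by
  intro I
  unfold MP_18eb12_gt.riem
  refine ContDiffOn.sum fun m _ => (H.sm _ _).mul ?_
  refine (((H.chr _ _ _).pd H.isOpen _).sub ((H.chr _ _ _).pd H.isOpen _)).add ?_
  exact ContDiffOn.sum fun p _ =>
    ((H.chr _ _ _).mul (H.chr _ _ _)).sub ((H.chr _ _ _).mul (H.chr _ _ _))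

theorem Good.cov (H : Good U h) {k : ℕ} {T : Ten n k} (hT : SmT U T) : SmT U (cov h T) := by
  intro I
  unfold MP_18eb12_gt.cov
  exact ((hT _).pd H.isOpen _).sub
    (ContDiffOn.sum fun a _ => ContDiffOn.sum fun m _ => (H.chr _ _ _).mul (hT _))

theorem Good.contr (H : Good U h) {k : ℕ} {T : Ten n (k + 2)} (hT : SmT U T) :
    SmT U (contr h T) := by
  intro I
  unfold MP_18eb12_gt.contr
  exact ContDiffOn.sum fun a _ => ContDiffOn.sum fun m _ => (H.inv _ _).mul (hT _)

theorem SmT.tens {k l : ℕ} {T : Ten n k} {T' : Ten n l} (hT : SmT U T) (hT' : SmT U T') :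
    SmT U (tens T T') := fun _ => (hT _).mul (hT' _)

theorem IsNatural.smT {k : ℕ} {T : Met n → Ten n k} (hT : IsNatural n k T) (H : Good U h) :
    SmT U (T h) := by
  induction hT with
  | ofOne => exact fun _ => contDiffOn_const
  | ofMetric => exact fun _ => H.sm _ _
  | ofRiem => exact H.riem
  | ofCov _ ih => exact H.cov ih
  | ofTens _ _ ih ih' => exact ih.tens ih'
  | ofPerm σ _ ih => exact fun I => ih _
  | ofContr _ ih => exact H.contr ih
  | ofSMul c _ ih => exact fun I => contDiffOn_const.mul (ih I)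
  | ofAdd _ _ ih ih' => exact fun I => (ih I).add (ih' I)

end Pool.Agent.Lib.MP_18eb12_gt
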