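import Mathlib
import Pool.Agent.Lib.MP_18eb12_gt.Calc

set_option autoImplicit false

noncomputable section

namespace Pool.Agent.Lib.MP_18eb12_gt

open scoped ContDiff Topology Matrix
open Set Filter

variable {n : ℕ} {U V : Set (E n)} {τ : E n → E n} {h h' : Met n} {y : E n}

/-- Jacobian matrix -/
def jac (τ : E n → E n) (y : E n) : Matrix (Fin n) (Fin n) ℝ :=
  Matrix.of fun j i => pd i (fun z => τ z j) y

/-- change of coordinates -/
structure Chg (U V : Set (E n)) (τ : E n → E n) (h h' : Met n) : Prop where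
  isOpen : IsOpen U
  good : Good V h
  maps : ∀ y ∈ U, τ y ∈ V
  sm : ∀ j, Sm U fun z => τ z j
  det : ∀ y ∈ U, (jac τ y).det ≠ 0
  eq : ∀ y ∈ U, h' y = (jac τ y)ᵀ * h (τ y) * jac τ y

theorem Chg.smτ (C : Chg U V τ h h') : ContDiffOn ℝ ∞ τ U := contDiffOn_pi.2 C.sm

theorem Chg.dτ (C : Chg U V τ h h') (hy : y ∈ U) : DifferentiableAt ℝ τ y :=
  (C.smτ.contDiffAt (C.isOpen.mem_nhds hy)).differentiableAt (by simp)

theorem Chg.comp (C : Chg U V τ h h') {f : E n → ℝ} (hf : Sm V f) : Sm U fun z => f (τ z) :=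
  ContDiffOn.comp hf C.smτ C.maps

theorem Chg.smJ (C : Chg U V τ h h') (j i : Fin n) : Sm U fun z => jac τ z j i :=
  (C.sm j).pd C.isOpen i

theorem Chg.pd_comp (C : Chg U V τ h h') {f : E n → ℝ} (hf : Sm V f) (hy : y ∈ U) (i : Fin n) :
    pd i (fun z => f (τ z)) y = ∑ j, pd j f (τ y) * jac τ y j i :=
  MP_18eb12_gt.pd_comp (C.dτ hy) (hf.dAt C.good.isOpen (C.maps y hy))

theorem Chg.entry (C : Chg U V τ h h') (hy : y ∈ U) (k q : Fin n) :
    h' y k q = ∑ a, ∑ b, jac τ y a k * h (τ y) a b * jac τ y b q := by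
  rw [C.eq y hy]
  simp only [Matrix.mul_apply, Matrix.transpose_apply, Finset.sum_mul]
  rw [Finset.sum_comm]

theorem Chg.good' (C : Chg U V τ h h') : Good U h' where
  isOpen := C.isOpen
  sm k q := by
    refine ContDiffOn.congr ?_ (fun z hz => C.entry hz k q)
    exact ContDiffOn.sum fun a _ => ContDiffOn.sum fun b _ =>
      ((C.smJ a k).mul (C.comp (C.good.sm a b))).mul (C.smJ b q)
  symm z hz k q := by
    rw [C.entry hz, C.entry hz, Finset.sum_comm]
    refine Finset.sum_congr rfl fun a _ => Finset.sum_congr rfl fun b _ => ?_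
    rw [C.good.symm _ (C.maps z hz) a b]; ring
  det z hz := by
    rw [C.eq z hz, Matrix.det_mul, Matrix.det_mul, Matrix.det_transpose]
    exact mul_ne_zero (mul_ne_zero (C.det z hz) (C.good.det _ (C.maps z hz))) (C.det z hz)

theorem Chg.inv_eq (C : Chg U V τ h h') (hy : y ∈ U) :
    jac τ y * (h' y)⁻¹ * (jac τ y)ᵀ = (h (τ y))⁻¹ := by
  have h1 : IsUnit (jac τ y).det := isUnit_iff_ne_zero.2 (C.det y hy)
  have h2 : IsUnit ((jac τ y)ᵀ).det := by rwa [Matrix.det_transpose]
  rw [C.eq y hy, Matrix.mul_inv_rev, Matrix.mul_inv_rev, ← Matrix.mul_assoc,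
    Matrix.mul_nonsing_inv _ h1, Matrix.one_mul, Matrix.mul_assoc, Matrix.nonsing_inv_mul _ h2,
    Matrix.mul_one]

theorem Chg.inv_entry (C : Chg U V τ h h') (hy : y ∈ U) (l b : Fin n) :
    ∑ m, ∑ q, jac τ y l m * (h' y)⁻¹ m q * jac τ y b q = (h (τ y))⁻¹ l b := by
  rw [← C.inv_eq hy]
  simp only [Matrix.mul_apply, Matrix.transpose_apply, Finset.sum_mul]
  rw [Finset.sum_comm]

theorem Chg.pdJ_symm (C : Chg U V τ h h') (hy : y ∈ U) (a i k : Fin n) :
    pd i (fun z => jac τ z a k) y = pd k (fun z => jac τ z a i) y :=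
  pd_comm (C.sm a) C.isOpen hy

theorem sum3_rot {ι : Type*} [Fintype ι] (f : ι → ι → ι → ℝ) :
    ∑ a, ∑ b, ∑ c, f a b c = ∑ b, ∑ c, ∑ a, f a b c := by
  rw [Finset.sum_comm]
  exact Finset.sum_congr rfl fun b _ => Finset.sum_comm

theorem sum3_swap23 {ι : Type*} [Fintype ι] (f : ι → ι → ι → ℝ) :
    ∑ a, ∑ b, ∑ c, f a b c = ∑ a, ∑ c, ∑ b, f a b c :=
  Finset.sum_congr rfl fun _ _ => Finset.sum_comm

theorem Chg.pd_entry (C : Chg U V τ h h') (hy : y ∈ U) (i k q : Fin n) :
    pd i (fun z => h' z k q) y =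
      (∑ a, ∑ b, pd i (fun z => jac τ z a k) y * h (τ y) a b * jac τ y b q)
      + (∑ a, ∑ b, pd i (fun z => jac τ z a q) y * h (τ y) a b * jac τ y b k)
      + ∑ c, ∑ a, ∑ b, pd c (fun z => h z a b) (τ y) * jac τ y c i * jac τ y a k * jac τ y b q := by
  have dJ := fun a k => (C.smJ a k).dAt C.isOpen hy
  have dH := fun a b => (C.comp (C.good.sm a b)).dAt C.isOpen hy
  rw [pd_congr_on C.isOpen hy (fun z hz => C.entry hz k q),
    pd_sum (fun a _ => DifferentiableAt.fun_sum fun b _ => ((dJ a k).fun_mul (dH a b)).fun_mul (dJ b q))]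
  have : ∀ a, pd i (fun z => ∑ b, jac τ z a k * h (τ z) a b * jac τ z b q) y
      = ∑ b, (pd i (fun z => jac τ z a k) y * h (τ y) a b * jac τ y b q
        + jac τ y a k * h (τ y) a b * pd i (fun z => jac τ z b q) y
        + ∑ c, pd c (fun z => h z a b) (τ y) * jac τ y c i * jac τ y a k * jac τ y b q) := by
    intro a
    rw [pd_sum (fun b _ => ((dJ a k).fun_mul (dH a b)).fun_mul (dJ b q))]
    refine Finset.sum_congr rfl fun b _ => ?_
    rw [pd_mul ((dJ a k).fun_mul (dH a b)) (dJ b q), pd_mul (dJ a k) (dH a b),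
      C.pd_comp (C.good.sm a b) hy, ← Finset.sum_mul, ← Finset.sum_mul]
    ring
  simp only [this, Finset.sum_add_distrib]
  congr 1
  · congr 1
    rw [Finset.sum_comm]
    refine Finset.sum_congr rfl fun a _ => Finset.sum_congr rfl fun b _ => ?_
    rw [C.good.symm _ (C.maps y hy) a b]; ring
  · rw [sum3_rot (fun c a b =>
      pd c (fun z => h z a b) (τ y) * jac τ y c i * jac τ y a k * jac τ y b q)]

theorem Chg.chr_trans (C : Chg U V τ h h') (hy : y ∈ U) (l i k : Fin n) :
    ∑ m, jac τ y l m * chr h' y m i k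
      = ∑ j, ∑ p, chr h (τ y) l j p * jac τ y j i * jac τ y p k
        + pd i (fun z => jac τ z l k) y := by
  set A := jac τ y with hA
  set H := h (τ y) with hH
  set B : Fin n → Fin n → Fin n → ℝ := fun a i k => pd i (fun z => jac τ z a k) y with hB
  set D : Fin n → Fin n → Fin n → ℝ := fun c a b => pd c (fun z => h z a b) (τ y) with hD
  have hBs : ∀ a i k, B a i k = B a k i := fun a i k => C.pdJ_symm hy a i k
  set X : Fin n → ℝ := fun b => ∑ a, B a i k * H a b
    + 1 / 2 * ∑ j, ∑ p, (D j p b + D p j b - D b j p) * A j i * A p k with hX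
  have low : ∀ q, pd i (fun z => h' z k q) y + pd k (fun z => h' z i q) y
      - pd q (fun z => h' z i k) y = 2 * ∑ b, A b q * X b := by
    intro q
    rw [C.pd_entry hy, C.pd_entry hy, C.pd_entry hy]
    change (∑ a, ∑ b, B a i k * H a b * A b q) + (∑ a, ∑ b, B a i q * H a b * A b k)
      + (∑ c, ∑ a, ∑ b, D c a b * A c i * A a k * A b q)
      + ((∑ a, ∑ b, B a k i * H a b * A b q) + (∑ a, ∑ b, B a k q * H a b * A b i)
      + (∑ c, ∑ a, ∑ b, D c a b * A c k * A a i * A b q))
      - ((∑ a, ∑ b, B a q i * H a b * A b k) + (∑ a, ∑ b, B a q k * H a b * A b i)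
      + (∑ c, ∑ a, ∑ b, D c a b * A c q * A a i * A b k)) = _
    simp only [hBs _ k i, hBs _ q i, hBs _ q k]
    have e1 : ∑ b, A b q * X b = (∑ a, ∑ b, B a i k * H a b * A b q)
        + 1 / 2 * ((∑ c, ∑ a, ∑ b, D c a b * A c i * A a k * A b q)
          + (∑ c, ∑ a, ∑ b, D c a b * A c k * A a i * A b q)
          - (∑ c, ∑ a, ∑ b, D c a b * A c q * A a i * A b k)) := by
      have e2 : ∑ c, ∑ a, ∑ b, D c a b * A c i * A a k * A b q
          = ∑ b, ∑ c, ∑ a, D c a b * A c i * A a k * A b q := by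
        rw [sum3_rot, sum3_rot]
      have e3 : ∑ c, ∑ a, ∑ b, D c a b * A c k * A a i * A b q
          = ∑ b, ∑ a, ∑ c, D c a b * A c k * A a i * A b q := by
        rw [sum3_rot, Finset.sum_comm]
      rw [e2, e3, Finset.sum_comm (f := fun a b => B a i k * H a b * A b q),
        ← Finset.sum_add_distrib, ← Finset.sum_sub_distrib, Finset.mul_sum,
        ← Finset.sum_add_distrib]
      refine Finset.sum_congr rfl fun b _ => ?_
      simp only [hX]
      rw [mul_add]
      congr 1
      · rw [Finset.mul_sum]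
        exact Finset.sum_congr rfl fun a _ => by ring
      · simp only [Finset.mul_sum, ← Finset.sum_add_distrib, ← Finset.sum_sub_distrib]
        exact Finset.sum_congr rfl fun a _ => Finset.sum_congr rfl fun c _ => by ring
    rw [e1]; ring
  have e4 : ∑ m, A l m * chr h' y m i k = ∑ b, H⁻¹ l b * X b := by
    have hinv : ∀ b, H⁻¹ l b = ∑ m, ∑ q, A l m * (h' y)⁻¹ m q * A b q :=
      fun b => (C.inv_entry hy l b).symm
    simp only [chr, low, hinv]
    simp only [Finset.mul_sum, Finset.sum_mul]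
    rw [sum3_rot (fun b m q => A l m * (h' y)⁻¹ m q * A b q * X b)]
    exact Finset.sum_congr rfl fun m _ => Finset.sum_congr rfl fun q _ =>
      Finset.sum_congr rfl fun b _ => by ring
  rw [e4]
  simp only [hX, mul_add, Finset.sum_add_distrib]
  rw [add_comm]
  congr 1
  · simp only [chr, ← hH, Finset.mul_sum, Finset.sum_mul]
    rw [sum3_rot]
    exact Finset.sum_congr rfl fun m _ => Finset.sum_congr rfl fun q _ =>
      Finset.sum_congr rfl fun b _ => by simp only [hD]; ring
  · simp only [Finset.mul_sum]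
    rw [Finset.sum_comm]
    have : ∀ a, ∑ b, H⁻¹ l b * (B a i k * H a b) = B a i k * if l = a then 1 else 0 := by
      intro a
      rw [← C.good.inv_mul (C.maps y hy) l a, Finset.mul_sum]
      exact Finset.sum_congr rfl fun b _ => by rw [C.good.symm _ (C.maps y hy) b a]; ring
    simp only [this]
    simp [hB]

/-- entrywise derivative of a matrix field -/
def pdM (i : Fin n) (F : Met n) (y : E n) : Matrix (Fin n) (Fin n) ℝ :=
  Matrix.of fun a b => pd i (fun z => F z a b) y

/-- connection matrix -/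
def chrM (h : Met n) (i : Fin n) : Met n := fun y => Matrix.of fun m k => chr h y m i k

/-- curvature matrix -/
def rmM (h : Met n) (i j : Fin n) (y : E n) : Matrix (Fin n) (Fin n) ℝ :=
  pdM i (chrM h j) y - pdM j (chrM h i) y + (chrM h i y * chrM h j y - chrM h j y * chrM h i y)

theorem riem_eq (h : Met n) (y : E n) (I : Fin 4 → Fin n) :
    riem h y I = ∑ m, h y m (I 3) * rmM h (I 0) (I 1) y m (I 2) := by
  simp [riem, rmM, pdM, chrM, Matrix.mul_apply, Finset.sum_sub_distrib]

theorem pdM_mul {F G : Met n} (i : Fin n) (hF : ∀ a b, DifferentiableAt ℝ (fun z => F z a b) y)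
    (hG : ∀ a b, DifferentiableAt ℝ (fun z => G z a b) y) :
    pdM i (fun z => F z * G z) y = pdM i F y * G y + F y * pdM i G y := by
  ext a b
  simp only [pdM, Matrix.mul_apply, Matrix.of_apply, Matrix.add_apply]
  rw [pd_sum (fun c _ => (hF a c).fun_mul (hG c b)), ← Finset.sum_add_distrib]
  exact Finset.sum_congr rfl fun c _ => pd_mul (hF a c) (hG c b)

theorem pdM_add {F G : Met n} (i : Fin n) (hF : ∀ a b, DifferentiableAt ℝ (fun z => F z a b) y)
    (hG : ∀ a b, DifferentiableAt ℝ (fun z => G z a b) y) :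
    pdM i (fun z => F z + G z) y = pdM i F y + pdM i G y := by
  ext a b
  simp only [pdM, Matrix.of_apply, Matrix.add_apply]
  exact pd_add (hF a b) (hG a b)

/-- pulled back connection matrix -/
def pullM (τ : E n → E n) (h : Met n) (i : Fin n) : Met n :=
  fun y => ∑ c, jac τ y c i • chrM h c (τ y)

theorem pullM_apply (i a b : Fin n) :
    pullM τ h i y a b = ∑ c, jac τ y c i * chr h (τ y) a c b := by
  simp [pullM, chrM, Matrix.sum_apply]

theorem Chg.smP (C : Chg U V τ h h') (i a b : Fin n) : Sm U fun z => pullM τ h i z a b := by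
  simp only [pullM_apply]
  exact ContDiffOn.sum fun c _ => (C.smJ c i).mul (C.comp (C.good.chr a c b))

theorem Chg.chrM_trans (C : Chg U V τ h h') (hy : y ∈ U) (i : Fin n) :
    jac τ y * chrM h' i y = pullM τ h i y * jac τ y + pdM i (jac τ) y := by
  ext l k
  simp only [Matrix.mul_apply, Matrix.add_apply, pullM_apply, pdM, chrM, Matrix.of_apply]
  rw [C.chr_trans hy]
  congr 1
  simp only [Finset.sum_mul]
  rw [Finset.sum_comm]
  exact Finset.sum_congr rfl fun a _ => Finset.sum_congr rfl fun b _ => by ring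

theorem Chg.pdM_pullM (C : Chg U V τ h h') (hy : y ∈ U) (i j : Fin n) :
    pdM i (pullM τ h j) y = ∑ c, pd i (fun z => jac τ z c j) y • chrM h c (τ y)
      + ∑ a, ∑ c, (jac τ y a i * jac τ y c j) • pdM a (chrM h c) (τ y) := by
  ext l k
  simp only [pdM, pullM_apply, Matrix.of_apply, Matrix.add_apply, Matrix.sum_apply,
    Matrix.smul_apply, smul_eq_mul, chrM]
  have dJ := fun a k => (C.smJ a k).dAt C.isOpen hy
  have dG := fun c => (C.comp (C.good.chr l c k)).dAt C.isOpen hy
  rw [pd_sum (fun c _ => (dJ c j).fun_mul (dG c)), Finset.sum_comm (s := Finset.univ),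
    ← Finset.sum_add_distrib]
  refine Finset.sum_congr rfl fun c _ => ?_
  rw [pd_mul (dJ c j) (dG c), C.pd_comp (C.good.chr l c k) hy, Finset.mul_sum]
  congr 1
  exact Finset.sum_congr rfl fun a _ => by ring

theorem Chg.rmM_trans (C : Chg U V τ h h') (hy : y ∈ U) (i j : Fin n) :
    jac τ y * rmM h' i j y
      = (∑ a, ∑ c, (jac τ y a i * jac τ y c j) • rmM h a c (τ y)) * jac τ y := by
  have dJ := fun a k => (C.smJ a k).dAt C.isOpen hy
  have dG : ∀ i a b, DifferentiableAt ℝ (fun z => chrM h' i z a b) y :=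
    fun i a b => (C.good'.chr a i b).dAt C.isOpen hy
  have dP := fun i a b => (C.smP i a b).dAt C.isOpen hy
  have dB : ∀ i a b, DifferentiableAt ℝ (fun z => pdM i (jac τ) z a b) y :=
    fun i a b => ((C.smJ a b).pd C.isOpen i).dAt C.isOpen hy
  have hd : ∀ i j, pdM i (jac τ) y * chrM h' j y + jac τ y * pdM i (chrM h' j) y
      = pdM i (pullM τ h j) y * jac τ y + pullM τ h j y * pdM i (jac τ) y
        + pdM i (pdM j (jac τ)) y := by
    intro i j
    rw [← pdM_mul i dJ (dG j), ← pdM_mul i (dP j) dJ, ← pdM_add i _ (dB j)]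
    · ext a b
      exact pd_congr_on C.isOpen hy fun z hz => congrFun (congrFun (C.chrM_trans hz j) a) b
    · intro a b
      simp only [Matrix.mul_apply]
      exact DifferentiableAt.fun_sum fun c _ => (dP j a c).fun_mul (dJ c b)
  have hs : pdM i (pdM j (jac τ)) y = pdM j (pdM i (jac τ)) y := by
    ext a b
    exact pd_comm (C.smJ a b) C.isOpen hy
  have e1 : jac τ y * rmM h' i j y = (pdM i (pullM τ h j) y - pdM j (pullM τ h i) y
      + (pullM τ h i y * pullM τ h j y - pullM τ h j y * pullM τ h i y)) * jac τ y := by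
    have t1 := hd i j
    have t2 := hd j i
    have t3 := C.chrM_trans hy i
    have t4 := C.chrM_trans hy j
    have t5 : jac τ y * pdM i (chrM h' j) y = pdM i (pullM τ h j) y * jac τ y
        + pullM τ h j y * pdM i (jac τ) y + pdM i (pdM j (jac τ)) y
        - pdM i (jac τ) y * chrM h' j y := by rw [← t1]; abel
    have t6 : jac τ y * pdM j (chrM h' i) y = pdM j (pullM τ h i) y * jac τ y
        + pullM τ h i y * pdM j (jac τ) y + pdM j (pdM i (jac τ)) y
        - pdM j (jac τ) y * chrM h' i y := by rw [← t2]; abel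
    simp only [rmM, Matrix.mul_add, Matrix.mul_sub, ← Matrix.mul_assoc, t3, t4, t5, t6, hs,
      Matrix.add_mul, Matrix.sub_mul]
    simp only [Matrix.mul_assoc, t3, t4, Matrix.mul_add]
    abel
  rw [e1, C.pdM_pullM hy, C.pdM_pullM hy]
  congr 1
  simp only [C.pdJ_symm hy _ j i, rmM, smul_add, smul_sub, Finset.sum_add_distrib,
    Finset.sum_sub_distrib, pullM, Finset.sum_mul, Finset.mul_sum, smul_mul_smul_comm]
  rw [Finset.sum_comm (f := fun a c => (jac τ y a j * jac τ y c i) • pdM a (chrM h c) (τ y)),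
    Finset.sum_comm (f := fun a c =>
      (jac τ y c i * jac τ y a j) • (chrM h c (τ y) * chrM h a (τ y)))]
  simp only [mul_comm (jac τ y _ j) (jac τ y _ i)]
  abel

end Pool.Agent.Lib.MP_18eb12_gt
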