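import Mathlib
import Pool.Agent.Lib.MP_18eb12_gt.Change

set_option autoImplicit false

noncomputable section

namespace Pool.Agent.Lib.MP_18eb12_gt

open scoped ContDiff Topology Matrix
open Set Filter

variable {n k l : ℕ} {U V : Set (E n)} {τ : E n → E n} {h h' : Met n} {y : E n}

/-- evaluation of a covariant tensor on vectors -/
def ev (T : (Fin k → Fin n) → ℝ) (v : Fin k → Fin n → ℝ) : ℝ :=
  ∑ J : Fin k → Fin n, T J * ∏ a, v a (J a)

theorem sum_cons (f : (Fin (k + 1) → Fin n) → ℝ) :
    ∑ J, f J = ∑ j, ∑ J : Fin k → Fin n, f (Fin.cons j J) := by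
  rw [← Fintype.sum_prod_type', ← (Fin.consEquiv fun _ : Fin (k + 1) => Fin n).sum_comp]
  rfl

theorem ev_zero (T : (Fin 0 → Fin n) → ℝ) (v : Fin 0 → Fin n → ℝ) : ev T v = T Fin.elim0 := by
  simp only [ev, Finset.univ_unique, Finset.sum_singleton, Finset.univ_eq_empty, Finset.prod_empty,
    mul_one]
  congr 1

theorem ev_succ (T : (Fin (k + 1) → Fin n) → ℝ) (v : Fin (k + 1) → Fin n → ℝ) :
    ev T v = ∑ j, v 0 j * ev (fun J => T (Fin.cons j J)) (Fin.tail v) := by
  simp only [ev]
  rw [sum_cons]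
  refine Finset.sum_congr rfl fun j _ => ?_
  rw [Finset.mul_sum]
  refine Finset.sum_congr rfl fun J _ => ?_
  rw [Fin.prod_univ_succ]
  simp only [Fin.cons_zero, Fin.cons_succ, Fin.tail]
  ring

theorem ev_update (T : (Fin k → Fin n) → ℝ) (v : Fin k → Fin n → ℝ) (a : Fin k)
    (w : Fin n → ℝ) :
    ev T (Function.update v a w)
      = ∑ J : Fin k → Fin n, T J * (w (J a) * ∏ b ∈ Finset.univ.erase a, v b (J b)) := by
  simp only [ev]
  refine Finset.sum_congr rfl fun J _ => ?_
  congr 1
  rw [← Finset.mul_prod_erase _ _ (Finset.mem_univ a), Function.update_self]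
  congr 1
  exact Finset.prod_congr rfl fun b hb => by rw [Function.update_of_ne (Finset.ne_of_mem_erase hb)]

theorem ev_update_add (T : (Fin k → Fin n) → ℝ) (v : Fin k → Fin n → ℝ) (a : Fin k)
    (w w' : Fin n → ℝ) :
    ev T (Function.update v a fun p => w p + w' p)
      = ev T (Function.update v a w) + ev T (Function.update v a w') := by
  simp only [ev_update, ← Finset.sum_add_distrib]
  exact Finset.sum_congr rfl fun J _ => by ring

theorem ev_update_sum (T : (Fin k → Fin n) → ℝ) (v : Fin k → Fin n → ℝ) (a : Fin k)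
    (c : Fin n → ℝ) (w : Fin n → Fin n → ℝ) :
    ev T (Function.update v a fun p => ∑ m, w m p * c m)
      = ∑ m, c m * ev T (Function.update v a (w m)) := by
  simp only [ev_update, Finset.mul_sum, Finset.sum_mul]
  rw [Finset.sum_comm]
  exact Finset.sum_congr rfl fun m _ => Finset.sum_congr rfl fun J _ => by ring

/-- the involution exchanging the a-th entry of J with m -/
def swapEq (a : Fin k) : (Fin k → Fin n) × Fin n ≃ (Fin k → Fin n) × Fin n where
  toFun x := (Function.update x.1 a x.2, x.1 a)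
  invFun x := (Function.update x.1 a x.2, x.1 a)
  left_inv x := by simp
  right_inv x := by simp

theorem ev_reindex (T : (Fin k → Fin n) → ℝ) (v : Fin k → Fin n → ℝ) (a : Fin k)
    (G : Fin n → Fin n → ℝ) :
    ev (fun J => ∑ m, G m (J a) * T (Function.update J a m)) v
      = ev T (Function.update v a fun m => ∑ p, G m p * v a p) := by
  rw [ev_update]
  simp only [ev, Finset.sum_mul, Finset.mul_sum]
  rw [← Fintype.sum_prod_type', ← Fintype.sum_prod_type', ← (swapEq a).sum_comp]
  refine Finset.sum_congr rfl fun x _ => ?_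
  simp only [swapEq, Equiv.coe_fn_mk, Function.update_self, Function.update_idem,
    Function.update_eq_self]
  rw [← Finset.mul_prod_erase _ _ (Finset.mem_univ a), Function.update_self]
  have : ∏ b ∈ Finset.univ.erase a, v b (Function.update x.1 a x.2 b)
      = ∏ b ∈ Finset.univ.erase a, v b (x.1 b) :=
    Finset.prod_congr rfl fun b hb => by rw [Function.update_of_ne (Finset.ne_of_mem_erase hb)]
  rw [this]; ring

theorem ev_sub (T T' : (Fin k → Fin n) → ℝ) (v : Fin k → Fin n → ℝ) :
    ev (fun J => T J - T' J) v = ev T v - ev T' v := by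
  simp only [ev, sub_mul, Finset.sum_sub_distrib]

theorem ev_add (T T' : (Fin k → Fin n) → ℝ) (v : Fin k → Fin n → ℝ) :
    ev (fun J => T J + T' J) v = ev T v + ev T' v := by
  simp only [ev, add_mul, Finset.sum_add_distrib]

theorem ev_smul (c : ℝ) (T : (Fin k → Fin n) → ℝ) (v : Fin k → Fin n → ℝ) :
    ev (fun J => c * T J) v = c * ev T v := by
  simp only [ev, Finset.mul_sum, mul_assoc]

theorem ev_sum {ι : Type*} (s : Finset ι) (T : ι → (Fin k → Fin n) → ℝ) (v : Fin k → Fin n → ℝ) :
    ev (fun J => ∑ i ∈ s, T i J) v = ∑ i ∈ s, ev (T i) v := by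
  simp only [ev, Finset.sum_mul]
  rw [Finset.sum_comm]

theorem ev_perm (T : (Fin k → Fin n) → ℝ) (v : Fin k → Fin n → ℝ) (σ : Equiv.Perm (Fin k)) :
    ev (fun J => T (J ∘ σ)) v = ev T (v ∘ σ) := by
  simp only [ev]
  rw [← (Equiv.arrowCongr σ (Equiv.refl (Fin n))).sum_comp]
  refine Finset.sum_congr rfl fun J _ => ?_
  congr 1
  · congr 1
    ext a; simp
  · rw [← Equiv.prod_comp σ]
    simp

theorem ev_tens (T : (Fin k → Fin n) → ℝ) (T' : (Fin l → Fin n) → ℝ)
    (v : Fin (k + l) → Fin n → ℝ) :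
    ev (fun J => T (fun a => J (Fin.castAdd l a)) * T' (fun b => J (Fin.natAdd k b))) v
      = ev T (fun a => v (Fin.castAdd l a)) * ev T' (fun b => v (Fin.natAdd k b)) := by
  simp only [ev]
  rw [Finset.sum_mul_sum, ← Fintype.sum_prod_type', ← (Fin.appendEquiv k l).sum_comp]
  refine Finset.sum_congr rfl fun x _ => ?_
  rw [Fin.prod_univ_add]
  simp only [Fin.appendEquiv, Equiv.coe_fn_mk, Fin.append_left, Fin.append_right]
  ring

/-- columns of the Jacobian picked by a multi-index -/
def cols (τ : E n → E n) (y : E n) (I : Fin k → Fin n) : Fin k → Fin n → ℝ :=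
  fun a j => jac τ y j (I a)

/-- T' is the pull-back of T -/
structure Tr (U V : Set (E n)) (τ : E n → E n) (T T' : Ten n k) : Prop where
  sm : SmT V T
  eq : ∀ y ∈ U, ∀ I, T' y I = ev (T (τ y)) (cols τ y I)

theorem cols_update (I : Fin k → Fin n) (a : Fin k) (m : Fin n) :
    cols τ y (Function.update I a m) = Function.update (cols τ y I) a fun j => jac τ y j m := by
  ext b j
  by_cases hb : b = a
  · subst hb; simp [cols]
  · simp [cols, Function.update_of_ne hb]

theorem Chg.pd_ev (C : Chg U V τ h h') {T : Ten n k} (hT : SmT V T) (hy : y ∈ U) (i : Fin n)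
    (I : Fin k → Fin n) :
    pd i (fun z => ev (T (τ z)) (cols τ z I)) y
      = ∑ j, jac τ y j i * ev (fun J => pd j (fun z => T z J) (τ y)) (cols τ y I)
        + ∑ a, ev (T (τ y))
          (Function.update (cols τ y I) a fun p => pd i (fun z => jac τ z p (I a)) y) := by
  have dJ := fun a k => (C.smJ a k).dAt C.isOpen hy
  have dT := fun J => (C.comp (hT J)).dAt C.isOpen hy
  have dP : ∀ J : Fin k → Fin n,
      DifferentiableAt ℝ (fun z => ∏ a, jac τ z (J a) (I a)) y := fun J =>
    Sm.dAt (contDiffOn_prod (t := Finset.univ) fun a _ => C.smJ (J a) (I a)) C.isOpen hy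
  simp only [ev_update]
  simp only [ev, cols]
  rw [pd_sum (fun J _ => (dT J).fun_mul (dP J))]
  simp only [Finset.mul_sum]
  rw [Finset.sum_comm (s := Finset.univ) (t := (Finset.univ : Finset (Fin k → Fin n))),
    Finset.sum_comm (s := Finset.univ) (t := (Finset.univ : Finset (Fin k → Fin n))),
    ← Finset.sum_add_distrib]
  refine Finset.sum_congr rfl fun J _ => ?_
  rw [pd_mul (dT J) (dP J), C.pd_comp (hT J) hy, pd_prod (fun a _ => dJ (J a) (I a)),
    Finset.sum_mul, Finset.mul_sum]
  congr 1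
  exact Finset.sum_congr rfl fun j _ => by ring

theorem Chg.cov (C : Chg U V τ h h') {T T' : Ten n k} (H : Tr U V τ T T') :
    Tr U V τ (cov h T) (cov h' T') where
  sm := C.good.cov H.sm
  eq y hy I := by
    rw [ev_succ]
    simp only [MP_18eb12_gt.cov, Fin.cons_zero, Fin.cons_succ, Fin.tail_cons]
    rw [pd_congr_on C.isOpen hy (fun z hz => H.eq z hz (Fin.tail I)), C.pd_ev H.sm hy]
    have hc : Fin.tail (cols τ y I) = cols τ y (Fin.tail I) := rfl
    simp only [hc, ev_sub, ev_sum, mul_sub, Finset.sum_sub_distrib]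
    have e1 : ∀ a : Fin k, ∑ m, chr h' y m (I 0) (I a.succ)
          * T' y (Function.update (Fin.tail I) a m)
        = ∑ j, cols τ y I 0 j * ev (fun J => ∑ m, chr h (τ y) m j (J a)
            * T (τ y) (Function.update J a m)) (cols τ y (Fin.tail I))
          + ev (T (τ y)) (Function.update (cols τ y (Fin.tail I)) a
            fun p => pd (I 0) (fun z => jac τ z p (Fin.tail I a)) y) := by
      intro a
      simp only [H.eq y hy, cols_update, ev_reindex]
      rw [← ev_update_sum, ← ev_update_sum, ← ev_update_add]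
      congr 2
      ext p
      rw [C.chr_trans hy]
      congr 1
      refine Finset.sum_congr rfl fun j _ => ?_
      rw [Finset.sum_mul]
      exact Finset.sum_congr rfl fun q _ => by simp only [cols, Fin.tail]; ring
    simp only [e1, Finset.sum_add_distrib]
    have e2 : ∑ a : Fin k, ∑ j, cols τ y I 0 j * ev (fun J => ∑ m, chr h (τ y) m j (J a)
            * T (τ y) (Function.update J a m)) (cols τ y (Fin.tail I))
        = ∑ j, cols τ y I 0 j * ∑ a : Fin k, ∑ m, ev (fun J => chr h (τ y) m j (J a)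
            * T (τ y) (Function.update J a m)) (cols τ y (Fin.tail I)) := by
      rw [Finset.sum_comm]
      refine Finset.sum_congr rfl fun j _ => ?_
      rw [Finset.mul_sum]
      simp only [ev_sum]
    rw [e2]
    simp only [cols]
    ring

theorem sum4_swap {ι : Type*} [Fintype ι] (f : ι → ι → ι → ι → ℝ) :
    ∑ i, ∑ j, ∑ a, ∑ b, f i j a b = ∑ a, ∑ b, ∑ i, ∑ j, f i j a b := by
  rw [← Fintype.sum_prod_type' (f := fun i j => ∑ a, ∑ b, f i j a b),
    ← Fintype.sum_prod_type' (f := fun a b => ∑ i, ∑ j, f i j a b)]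
  simp only [← Fintype.sum_prod_type' (f := fun a b => f _ _ a b),
    ← Fintype.sum_prod_type' (f := fun i j => f i j _ _)]
  rw [Finset.sum_comm]

theorem Chg.contr (C : Chg U V τ h h') {T T' : Ten n (k + 2)} (H : Tr U V τ T T') :
    Tr U V τ (contr h T) (contr h' T') where
  sm := C.good.contr H.sm
  eq y hy I := by
    simp only [MP_18eb12_gt.contr, H.eq y hy]
    change _ = ev (fun J => ∑ i, ∑ j, (h (τ y))⁻¹ i j
      * T (τ y) (Fin.cons i (Fin.cons j J : Fin (k + 1) → Fin n))) _
    simp only [ev_sum, ev_smul, ev_succ, ← C.inv_entry hy]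
    have hc : ∀ i j, Fin.tail (Fin.tail (cols τ y
        (Fin.cons i (Fin.cons j I : Fin (k + 1) → Fin n) : Fin (k + 2) → Fin n))) = cols τ y I :=
      fun i j => rfl
    have h0 : ∀ i j a, cols τ y
        (Fin.cons i (Fin.cons j I : Fin (k + 1) → Fin n) : Fin (k + 2) → Fin n) 0 a
        = jac τ y a i := fun i j a => rfl
    have h1 : ∀ i j a, Fin.tail (cols τ y
        (Fin.cons i (Fin.cons j I : Fin (k + 1) → Fin n) : Fin (k + 2) → Fin n)) 0 a
        = jac τ y a j := fun i j a => rfl
    simp only [hc, h0, h1, Finset.mul_sum, Finset.sum_mul]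
    rw [sum4_swap]
    exact Finset.sum_congr rfl fun a _ => Finset.sum_congr rfl fun b _ =>
      Finset.sum_congr rfl fun i _ => Finset.sum_congr rfl fun j _ => by ring

theorem Tr.tens {T T' : Ten n k} {S S' : Ten n l} (H : Tr U V τ T T') (H' : Tr U V τ S S') :
    Tr U V τ (tens T S) (tens T' S') where
  sm := H.sm.tens H'.sm
  eq y hy I := by
    simp only [MP_18eb12_gt.tens, H.eq y hy, H'.eq y hy]
    exact (ev_tens (T (τ y)) (S (τ y)) (cols τ y I)).symm

theorem Chg.metric (C : Chg U V τ h h') :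
    Tr U V τ (fun y (I : Fin 2 → Fin n) => h y (I 0) (I 1)) (fun y I => h' y (I 0) (I 1)) where
  sm _ := C.good.sm _ _
  eq y hy I := by
    rw [C.entry hy]
    simp only [ev_succ, ev_zero, Finset.mul_sum]
    exact Finset.sum_congr rfl fun a _ => Finset.sum_congr rfl fun b _ => by
      simp [cols, Fin.tail]; ring

theorem Chg.riem (C : Chg U V τ h h') : Tr U V τ (riem h) (riem h') where
  sm := C.good.riem
  eq y hy I := by
    have e1 : MP_18eb12_gt.riem h' y I
        = ((jac τ y)ᵀ * h (τ y) * (jac τ y * rmM h' (I 0) (I 1) y)) (I 3) (I 2) := by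
      rw [riem_eq, ← Matrix.mul_assoc, ← C.eq y hy, Matrix.mul_apply]
      exact Finset.sum_congr rfl fun m _ => by rw [C.good'.symm y hy]
    rw [e1, C.rmM_trans hy]
    simp only [ev_succ, ev_zero, riem_eq, Matrix.mul_apply, Matrix.sum_apply, Matrix.smul_apply,
      Matrix.transpose_apply, smul_eq_mul, Finset.mul_sum, Finset.sum_mul]
    rw [Finset.sum_comm]
    refine Finset.sum_congr rfl fun a _ => ?_
    rw [Finset.sum_comm]
    refine Finset.sum_congr rfl fun b _ => ?_
    rw [Finset.sum_comm]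
    refine Finset.sum_congr rfl fun c _ => ?_
    rw [Finset.sum_comm]
    refine Finset.sum_congr rfl fun d _ => Finset.sum_congr rfl fun m _ => ?_
    change _ = jac τ y a (I 0) * (jac τ y b (I 1) * (jac τ y c (I 2) * (jac τ y d (I 3)
      * (h (τ y) m d * rmM h a b (τ y) m c))))
    rw [C.good.symm _ (C.maps y hy) m d]
    ring

theorem IsNatural.tr {T : Met n → Ten n k} (hT : IsNatural n k T) (C : Chg U V τ h h') :
    Tr U V τ (T h) (T h') := by
  induction hT with
  | ofOne => exact ⟨fun _ => contDiffOn_const, fun y _ I => by rw [ev_zero]⟩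
  | ofMetric => exact C.metric
  | ofRiem => exact C.riem
  | ofCov _ ih => exact C.cov ih
  | ofTens _ _ ih ih' => exact ih.tens ih'
  | ofPerm σ _ ih =>
    exact ⟨fun I => ih.sm _, fun y hy I => by dsimp only; rw [ih.eq y hy, ev_perm]; rfl⟩
  | ofContr _ ih => exact C.contr ih
  | ofSMul c _ ih =>
    exact ⟨fun I => contDiffOn_const.mul (ih.sm I), fun y hy I => by dsimp only; rw [ih.eq y hy, ev_smul]⟩
  | ofAdd _ _ ih ih' =>
    exact ⟨fun I => (ih.sm I).add (ih'.sm I),
      fun y hy I => by dsimp only; rw [ih.eq y hy, ih'.eq y hy, ev_add]⟩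

theorem IsNatural.scalar_eq {T : Met n → Ten n 0} (hT : IsNatural n 0 T) (C : Chg U V τ h h')
    (hy : y ∈ U) : T h' y Fin.elim0 = T h (τ y) Fin.elim0 := by
  rw [(hT.tr C).eq y hy, ev_zero]

end Pool.Agent.Lib.MP_18eb12_gt
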