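import Mathlib
import Pool.Agent.Lib.MP_18eb12_gt.Tensor

set_option autoImplicit false

noncomputable section

namespace Pool.Agent.Lib.MP_18eb12_gt

open scoped ContDiff Topology Matrix
open Set Filter MeasureTheory

variable {n k l : ℕ} {U V : Set (E n)} {h h' : Met n} {y : E n}

theorem Good.pd_det (H : Good U h) (hy : y ∈ U) (i : Fin n) :
    pd i (fun z => (h z).det) y
      = (h y).det * ∑ a, ∑ b, (h y)⁻¹ a b * pd i (fun z => h z b a) y := by
  have dH := fun a b => (H.sm a b).dAt H.isOpen hy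
  have dP : ∀ σ : Equiv.Perm (Fin n), DifferentiableAt ℝ (fun z => ∏ b, h z (σ b) b) y := fun σ =>
    Sm.dAt (contDiffOn_prod (t := Finset.univ) fun a _ => H.sm (σ a) a) H.isOpen hy
  have e1 : pd i (fun z => (h z).det) y
      = ∑ a, ((h y).updateCol a fun b => pd i (fun z => h z b a) y).det := by
    simp only [Matrix.det_apply']
    rw [pd_sum (fun σ _ => (dP σ).const_mul _), Finset.sum_comm]
    refine Finset.sum_congr rfl fun σ _ => ?_
    rw [pd_const_mul _ (dP σ), pd_prod (fun a _ => dH (σ a) a), Finset.mul_sum]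
    refine Finset.sum_congr rfl fun a _ => ?_
    congr 1
    rw [← Finset.mul_prod_erase _ _ (Finset.mem_univ a), Matrix.updateCol_self]
    congr 1
    exact Finset.prod_congr rfl fun b hb => by
      rw [Matrix.updateCol_ne (Finset.ne_of_mem_erase hb)]
  rw [e1, Finset.mul_sum]
  refine Finset.sum_congr rfl fun a _ => ?_
  rw [← Matrix.cramer_apply, Matrix.cramer_eq_adjugate_mulVec, Finset.mul_sum]
  simp only [Matrix.mulVec, dotProduct]
  refine Finset.sum_congr rfl fun b _ => ?_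
  have := H.det y hy
  simp only [Matrix.inv_def, Matrix.smul_apply, Ring.inverse_eq_inv, smul_eq_mul]
  field_simp

theorem Good.pd_inv (H : Good U h) (hy : y ∈ U) (i a b : Fin n) :
    pd i (fun z => (h z)⁻¹ a b) y
      = - ∑ p, ∑ q, (h y)⁻¹ a p * pd i (fun z => h z p q) y * (h y)⁻¹ q b := by
  have dH := fun a b => (H.sm a b).dAt H.isOpen hy
  have dI := fun a b => (H.inv a b).dAt H.isOpen hy
  have hu : ∀ z ∈ U, IsUnit (h z).det := fun z hz => isUnit_iff_ne_zero.2 (H.det z hz)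
  have e1 : pdM i (fun z => (h z)⁻¹ * h z) y = 0 := by
    ext a b
    simp only [pdM, Matrix.of_apply, Matrix.zero_apply]
    rw [pd_congr_on H.isOpen hy (g := fun _ => (1 : Matrix (Fin n) (Fin n) ℝ) a b)
      fun z hz => by rw [Matrix.nonsing_inv_mul _ (hu z hz)]]
    simp
  rw [pdM_mul i dI dH] at e1
  have e2 : pdM i (fun z => (h z)⁻¹) y = - ((h y)⁻¹ * pdM i h y * (h y)⁻¹) := by
    have : pdM i (fun z => (h z)⁻¹) y * h y = - ((h y)⁻¹ * pdM i h y) := eq_neg_of_add_eq_zero_left e1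
    rw [← Matrix.neg_mul, ← this, Matrix.mul_assoc, Matrix.mul_nonsing_inv _ (hu y hy),
      Matrix.mul_one]
  have := congrFun (congrFun e2 a) b
  simp only [pdM, Matrix.of_apply, Matrix.neg_apply, Matrix.mul_apply, Finset.sum_mul] at this
  rw [this, Finset.sum_comm]

/-- volume density -/
def rho (h : Met n) (y : E n) : ℝ := Real.sqrt (h y).det

theorem Good.sm_rho (H : Good U h) : Sm U (rho h) :=
  (sm_det H.sm).sqrt H.det

theorem Good.pd_rho (H : Good U h) (hy : y ∈ U) (hp : 0 < (h y).det) (i : Fin n) :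
    pd i (rho h) y = rho h y * (1 / 2 * ∑ a, ∑ b, (h y)⁻¹ a b * pd i (fun z => h z b a) y) := by
  have := pd_comp_real (i := i) (f := fun z => (h z).det) (Real.hasDerivAt_sqrt hp.ne')
    ((sm_det H.sm).dAt H.isOpen hy)
  rw [show rho h = fun z => Real.sqrt (h z).det from rfl, this, H.pd_det hy]
  have h1 : Real.sqrt (h y).det * Real.sqrt (h y).det = (h y).det := Real.mul_self_sqrt hp.le
  have h2 : Real.sqrt (h y).det ≠ 0 := (Real.sqrt_pos.2 hp).ne'
  dsimp only
  field_simp
  rw [sq, h1]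

/-- divergence of a one-form -/
def dvg (h : Met n) (X : Ten n 1) (y : E n) : ℝ := contr h (cov h X) y Fin.elim0

theorem fin1_eq (J : Fin 1 → Fin n) : J = fun _ => J 0 := by
  ext a; rw [Subsingleton.elim a 0]

theorem dvg_eq (h : Met n) (X : Ten n 1) (y : E n) :
    dvg h X y = ∑ i, ∑ j, (h y)⁻¹ i j *
      (pd i (fun z => X z fun _ => j) y - ∑ m, chr h y m i j * X y fun _ => m) := by
  simp only [dvg, contr, cov, Fin.cons_zero, Fin.tail_cons, Fin.cons_succ]
  refine Finset.sum_congr rfl fun i _ => Finset.sum_congr rfl fun j _ => ?_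
  have e1 : (Fin.cons j Fin.elim0 : Fin (0 + 1) → Fin n) = fun _ => j := fin1_eq _
  rw [e1, Fin.sum_univ_one]
  have e2 : ∀ m, Function.update (fun _ : Fin 1 => j) 0 m = fun _ => m := fun m => fin1_eq _
  simp only [e2]

theorem Good.rho_dvg (H : Good U h) (hy : y ∈ U) (hp : 0 < (h y).det) {X : Ten n 1}
    (hX : SmT U X) :
    rho h y * dvg h X y
      = ∑ i, pd i (fun z => rho h z * ∑ j, (h z)⁻¹ i j * X z fun _ => j) y := by
  have dI := fun a b => (H.inv a b).dAt H.isOpen hy
  have dX := fun j => (hX fun _ => j).dAt H.isOpen hy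
  have dR := H.sm_rho.dAt H.isOpen hy
  have e1 : ∀ i, pd i (fun z => rho h z * ∑ j, (h z)⁻¹ i j * X z fun _ => j) y
      = ∑ j, (pd i (rho h) y * (h y)⁻¹ i j + rho h y * pd i (fun z => (h z)⁻¹ i j) y)
          * X y (fun _ => j)
        + rho h y * ∑ j, (h y)⁻¹ i j * pd i (fun z => X z fun _ => j) y := by
    intro i
    rw [pd_mul dR (DifferentiableAt.fun_sum fun j _ => (dI i j).fun_mul (dX j)),
      pd_sum (fun j _ => (dI i j).fun_mul (dX j))]
    simp only [pd_mul (dI _ _) (dX _), Finset.mul_sum, ← Finset.sum_add_distrib]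
    exact Finset.sum_congr rfl fun j _ => by ring
  have e2 : ∀ m, ∑ i, (pd i (rho h) y * (h y)⁻¹ i m + rho h y * pd i (fun z => (h z)⁻¹ i m) y)
      = - (rho h y * ∑ i, ∑ j, (h y)⁻¹ i j * MP_18eb12_gt.chr h y m i j) := by
    intro m
    set G := (h y)⁻¹ with hG
    set D : Fin n → Fin n → Fin n → ℝ := fun c a b => pd c (fun z => h z a b) y with hD
    have hs : ∀ a b, G a b = G b a := H.inv_symm hy
    have hDs : ∀ c a b, D c a b = D c b a := fun c a b =>
      pd_congr_on H.isOpen hy fun z hz => H.symm z hz a b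
    simp only [H.pd_rho hy hp, H.pd_inv hy, MP_18eb12_gt.chr, ← hG]
    change ∑ i, (rho h y * (1 / 2 * ∑ a, ∑ b, G a b * D i b a) * G i m
        + rho h y * - ∑ p, ∑ q, G i p * D i p q * G q m)
      = - (rho h y * ∑ i, ∑ j, G i j * (1 / 2 * ∑ p, G m p * (D i j p + D j i p - D p i j)))
    have t1 : ∑ i, ∑ j, G i j * (1 / 2 * ∑ p, G m p * (D i j p + D j i p - D p i j))
        = 1 / 2 * ((∑ i, ∑ j, ∑ p, G i j * G m p * D i j p) + (∑ i, ∑ j, ∑ p, G i j * G m p * D j i p)
          - ∑ i, ∑ j, ∑ p, G i j * G m p * D p i j) := by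
      simp only [Finset.mul_sum, ← Finset.sum_add_distrib, ← Finset.sum_sub_distrib]
      exact Finset.sum_congr rfl fun _ _ => Finset.sum_congr rfl fun _ _ =>
        Finset.sum_congr rfl fun _ _ => by ring
    have t2 : ∑ i, ∑ j, ∑ p, G i j * G m p * D j i p = ∑ i, ∑ j, ∑ p, G i j * G m p * D i j p := by
      rw [Finset.sum_comm]
      exact Finset.sum_congr rfl fun a _ => Finset.sum_congr rfl fun b _ =>
        Finset.sum_congr rfl fun _ _ => by rw [hs b a]
    have t3 : ∑ i, (rho h y * (1 / 2 * ∑ a, ∑ b, G a b * D i b a) * G i m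
        + rho h y * - ∑ p, ∑ q, G i p * D i p q * G q m)
        = rho h y * (1 / 2 * (∑ i, ∑ j, ∑ p, G i j * G m p * D p i j)
          - ∑ i, ∑ j, ∑ p, G i j * G m p * D i j p) := by
      rw [← sum3_rot (fun p i j => G i j * G m p * D p i j)]
      simp only [Finset.mul_sum, Finset.sum_mul, mul_sub, mul_neg, ← Finset.sum_neg_distrib,
        ← Finset.sum_add_distrib, ← Finset.sum_sub_distrib]
      exact Finset.sum_congr rfl fun a _ => Finset.sum_congr rfl fun b _ =>
        Finset.sum_congr rfl fun c _ => by rw [hs a m, hs c m, hDs a c b]; ring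
    rw [t1, t2, t3]; ring
  simp only [e1, Finset.sum_add_distrib]
  rw [Finset.sum_comm]
  simp only [← Finset.sum_mul, e2, dvg_eq, mul_sub, Finset.sum_sub_distrib]
  have e3 : ∑ i, ∑ j, (h y)⁻¹ i j * ∑ m, MP_18eb12_gt.chr h y m i j * X y (fun _ => m)
      = ∑ m, (∑ i, ∑ j, (h y)⁻¹ i j * MP_18eb12_gt.chr h y m i j) * X y (fun _ => m) := by
    simp only [Finset.mul_sum, Finset.sum_mul]
    rw [sum3_rot (fun m i j => (h y)⁻¹ i j * MP_18eb12_gt.chr h y m i j * X y (fun _ => m))]
    exact Finset.sum_congr rfl fun a _ => Finset.sum_congr rfl fun b _ =>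
      Finset.sum_congr rfl fun c _ => by ring
  rw [e3, ← Finset.mul_sum, Finset.mul_sum (f := fun m =>
    (∑ i, ∑ j, (h y)⁻¹ i j * MP_18eb12_gt.chr h y m i j) * X y (fun _ => m))]
  simp only [neg_mul, Finset.sum_neg_distrib, mul_assoc]
  ring

theorem contDiff_of_supp {f : E n → ℝ} {K : Set (E n)} (hU : IsOpen U) (hf : Sm U f)
    (hK : IsClosed K) (hKU : K ⊆ U) (h0 : ∀ y, y ∉ K → f y = 0) : ContDiff ℝ ∞ f := by
  rw [contDiff_iff_contDiffAt]
  intro y
  by_cases hy : y ∈ K
  · exact hf.contDiffAt (hU.mem_nhds (hKU hy))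
  · have : f =ᶠ[𝓝 y] fun _ => 0 := eventually_of_mem (hK.isOpen_compl.mem_nhds hy) h0
    exact contDiffAt_const.congr_of_eventuallyEq this

theorem integrable_of_supp {f : E n → ℝ} {K : Set (E n)} (hU : IsOpen U) (hf : Sm U f)
    (hK : IsCompact K) (hKU : K ⊆ U) (h0 : ∀ y, y ∉ K → f y = 0) : Integrable f :=
  (contDiff_of_supp hU hf hK.isClosed hKU h0).continuous.integrable_of_hasCompactSupport
    (HasCompactSupport.intro hK h0)

theorem pd_zero_of_supp {f : E n → ℝ} {K : Set (E n)} (hK : IsClosed K)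
    (h0 : ∀ y, y ∉ K → f y = 0) (i : Fin n) (y : E n) (hy : y ∉ K) : pd i f y = 0 := by
  rw [pd_congr (g := fun _ => 0) (eventually_of_mem (hK.isOpen_compl.mem_nhds hy) h0)]
  simp

theorem integral_pd_eq_zero {f : E n → ℝ} {K : Set (E n)} (hU : IsOpen U) (hf : Sm U f)
    (hK : IsCompact K) (hKU : K ⊆ U) (h0 : ∀ y, y ∉ K → f y = 0) (i : Fin n) :
    ∫ y, pd i f y = 0 := by
  have hc := contDiff_of_supp hU hf hK.isClosed hKU h0
  have h1 : Integrable (fun y => pd i f y) :=
    integrable_of_supp hU (hf.pd hU i) hK hKU (pd_zero_of_supp hK.isClosed h0 i)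
  have := integral_mul_fderiv_eq_neg_fderiv_mul_of_integrable (μ := volume)
    (f := fun _ : E n => (1 : ℝ)) (g := f) (v := Pi.single i 1) (by simp)
    (by simpa [pd] using h1) (by simpa using integrable_of_supp hU hf hK hKU h0)
    (fun _ _ => differentiableAt_const _) (fun x _ => hc.differentiable (by simp) x)
  simpa [pd] using this

theorem integral_sum_pd_eq_zero {f : Fin n → E n → ℝ} {K : Set (E n)} (hU : IsOpen U)
    (hf : ∀ i, Sm U (f i)) (hK : IsCompact K) (hKU : K ⊆ U) (h0 : ∀ i y, y ∉ K → f i y = 0) :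
    ∫ y, ∑ i, pd i (f i) y = 0 := by
  rw [integral_finsetSum _ fun i _ => integrable_of_supp hU ((hf i).pd hU i) hK hKU
    (pd_zero_of_supp hK.isClosed (h0 i) i)]
  exact Finset.sum_eq_zero fun i _ => integral_pd_eq_zero hU (hf i) hK hKU (h0 i) i

end Pool.Agent.Lib.MP_18eb12_gt
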