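import Mathlib
import Pool.Agent.Lib.MP_18eb12_gt.Div

set_option autoImplicit false

noncomputable section

namespace Pool.Agent.Lib.MP_18eb12_gt

open scoped ContDiff Topology Matrix Manifold
open Set Filter MeasureTheory Bundle

section Generic

variable {V : Type} [NormedAddCommGroup V] [NormedSpace ℝ V]
  {M : Type} [TopologicalSpace M] [ChartedSpace V M]

/-- derivative of the inverse chart -/
def pushL (x : M) (y : V) : V →L[ℝ] V := mfderiv 𝓘(ℝ, V) 𝓘(ℝ, V) (chartAt V x).symm y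

theorem push_eq (x : M) (y u : V) : push x y u = pushL x y u := rfl

variable [IsManifold 𝓘(ℝ, V) ∞ M]

theorem symmL_eq {x₀ x : M} (hx : x ∈ (chartAt V x₀).source) (u : V) :
    (trivializationAt V (TangentSpace 𝓘(ℝ, V)) x₀).symm x u = pushL x₀ (chartAt V x₀ x) u := by
  have := TangentBundle.symmL_trivializationAt (I := 𝓘(ℝ, V)) hx
  have h2 : (trivializationAt V (TangentSpace 𝓘(ℝ, V)) x₀).symm x u
      = (trivializationAt V (TangentSpace 𝓘(ℝ, V)) x₀).symmL ℝ x u := by
    rw [Trivialization.symmL_apply _ (by simpa using hx)]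
  rw [h2, this]
  simp [pushL, mfderivWithin_univ]
  rfl

theorem triv_bilin (φ : ∀ x : M, TangentSpace 𝓘(ℝ, V) x →L[ℝ] TangentSpace 𝓘(ℝ, V) x →L[ℝ] ℝ)
    {x₀ x : M} (hx : x ∈ (chartAt V x₀).source) (u v : V) :
    (trivializationAt (V →L[ℝ] V →L[ℝ] ℝ)
      (fun x : M => TangentSpace 𝓘(ℝ, V) x →L[ℝ] TangentSpace 𝓘(ℝ, V) x →L[ℝ] ℝ) x₀
        ⟨x, φ x⟩).2 u v
      = φ x (pushL x₀ (chartAt V x₀ x) u) (pushL x₀ (chartAt V x₀ x) v) := by
  rw [hom_trivializationAt_apply]
  dsimp only
  rw [inCoordinates_apply_eq₂ (F₃ := ℝ) (E₃ := Bundle.Trivial M ℝ) (by simpa using hx)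
    (by simpa using hx) (by simp), symmL_eq hx, symmL_eq hx]
  simp

theorem contMDiffOn_gval (g : RMetric V M) (x₀ : M) (u v : V) :
    ContMDiffOn 𝓘(ℝ, V) 𝓘(ℝ, ℝ) ∞
      (fun x => gval g x (pushL x₀ (chartAt V x₀ x) u) (pushL x₀ (chartAt V x₀ x) v))
      (chartAt V x₀).source := by
  have h1 := (Trivialization.contMDiffOn_section_iff (IB := 𝓘(ℝ, V)) (n := ∞) (s := g.inner)
    (trivializationAt (V →L[ℝ] V →L[ℝ] ℝ)
      (fun x : M => TangentSpace 𝓘(ℝ, V) x →L[ℝ] TangentSpace 𝓘(ℝ, V) x →L[ℝ] ℝ) x₀)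
    (chartAt V x₀).open_source (fun x hx => by simpa using hx)).1 g.contMDiff.contMDiffOn
  have h2 := (h1.clm_apply (contMDiffOn_const (c := u))).clm_apply (contMDiffOn_const (c := v))
  exact h2.congr fun x hx => (triv_bilin g.inner hx u v).symm

theorem contDiffOn_gval (g : RMetric V M) (x₀ : M) (u v : V) :
    ContDiffOn ℝ ∞
      (fun y => gval g ((chartAt V x₀).symm y) (push x₀ y u) (push x₀ y v)) (chartAt V x₀).target := by
  have h1 := (contMDiffOn_gval g x₀ u v).comp (contMDiffOn_chart_symm (I := 𝓘(ℝ, V)) (n := ∞))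
    (fun y hy => (chartAt V x₀).map_target hy)
  rw [contMDiffOn_iff_contDiffOn] at h1
  refine h1.congr fun y hy => ?_
  simp only [Function.comp, (chartAt V x₀).right_inv hy]
  rfl

theorem pushL_injective {x₀ : M} {y : V} (hy : y ∈ (chartAt V x₀).target) :
    Function.Injective (pushL x₀ y) :=
  (mdifferentiable_chart (I := 𝓘(ℝ, V)) x₀).symm.mfderiv_injective hy

/-- coordinate change from the chart at x' to the chart at x -/
def trans (V : Type) [NormedAddCommGroup V] [NormedSpace ℝ V] [ChartedSpace V M] (x' x : M) :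
    V → V := fun y => chartAt V x ((chartAt V x').symm y)

/-- domain of the coordinate change -/
def transDom (V : Type) [NormedAddCommGroup V] [NormedSpace ℝ V] [ChartedSpace V M] (x' x : M) :
    Set V := (chartAt V x').target ∩ (chartAt V x').symm ⁻¹' (chartAt V x).source

omit [IsManifold 𝓘(ℝ, V) ∞ M] in
theorem isOpen_transDom (x' x : M) : IsOpen (transDom V x' x) :=
  (chartAt V x').isOpen_inter_preimage_symm (chartAt V x).open_source

theorem contDiffOn_trans (x' x : M) : ContDiffOn ℝ ∞ (trans V x' x) (transDom V x' x) := by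
  have h1 := (contMDiffOn_chart (I := 𝓘(ℝ, V)) (n := ∞) (x := x)).comp
    ((contMDiffOn_chart_symm (I := 𝓘(ℝ, V)) (n := ∞) (x := x')).mono
      (inter_subset_left : transDom V x' x ⊆ _)) (fun y hy => hy.2)
  rwa [contMDiffOn_iff_contDiffOn] at h1

theorem pushL_trans {x' x : M} {y : V} (hy : y ∈ transDom V x' x) (u : V) :
    pushL x' y u = pushL x (trans V x' x y) (fderiv ℝ (trans V x' x) y u) := by
  have hd : DifferentiableAt ℝ (trans V x' x) y :=
    ((contDiffOn_trans x' x).contDiffAt ((isOpen_transDom x' x).mem_nhds hy)).differentiableAt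
      (by simp)
  have h1 : ((chartAt V x').symm : V → M) =ᶠ[𝓝 y] (chartAt V x).symm ∘ trans V x' x := by
    filter_upwards [(isOpen_transDom x' x).mem_nhds hy] with z hz
    exact ((chartAt V x).left_inv hz.2).symm
  have h2 : MDifferentiableAt 𝓘(ℝ, V) 𝓘(ℝ, V) (chartAt V x).symm (trans V x' x y) :=
    (mdifferentiable_chart (I := 𝓘(ℝ, V)) x).mdifferentiableAt_symm ((chartAt V x).map_source hy.2)
  have h3 := mfderiv_comp y h2 hd.mdifferentiableAt
  unfold pushL
  rw [h1.mfderiv_eq, h3, mfderiv_eq_fderiv]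
  rfl

end Generic

section Coord

variable {n : ℕ} {M : Type} [TopologicalSpace M] [ChartedSpace (E n) M]
  [IsManifold 𝓘(ℝ, E n) ∞ M]

theorem clm_eq_sum {W : Type*} [AddCommGroup W] [Module ℝ W] [TopologicalSpace W]
    (L : E n →L[ℝ] W) (v : E n) : L v = ∑ j, v j • L (Pi.single j 1) := by
  conv_lhs => rw [pi_eq_sum_univ' v]
  simp

theorem gval_pushL (g : RMetric (E n) M) (x : M) (y u v : E n) :
    gval g ((chartAt (E n) x).symm y) (pushL x y u) (pushL x y v)
      = ∑ i, ∑ j, u i * coord g x y i j * v j := by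
  let B : E n →L[ℝ] E n →L[ℝ] ℝ := g.inner ((chartAt (E n) x).symm y)
  change B (pushL x y u) (pushL x y v)
    = ∑ i, ∑ j, u i * B (pushL x y (Pi.single i 1)) (pushL x y (Pi.single j 1)) * v j
  rw [clm_eq_sum (pushL x y) u, clm_eq_sum (pushL x y) v]
  simp only [map_sum, map_smul, sum_apply, smul_apply,
    smul_eq_mul, Finset.mul_sum]
  rw [Finset.sum_comm]
  exact Finset.sum_congr rfl fun i _ => Finset.sum_congr rfl fun j _ => by ring

theorem coord_symm (g : RMetric (E n) M) (x : M) (y : E n) (i j : Fin n) :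
    coord g x y i j = coord g x y j i := g.symm _ _ _

theorem coord_det_pos (g : RMetric (E n) M) {x : M} {y : E n} (hy : y ∈ (chartAt (E n) x).target) :
    0 < (coord g x y).det := by
  apply Matrix.PosDef.det_pos
  rw [Matrix.posDef_iff_dotProduct_mulVec]
  refine ⟨?_, fun u hu => ?_⟩
  · ext i j
    simp [coord_symm g x y i j]
  · have h1 : pushL x y u ≠ 0 := fun h => hu (pushL_injective hy (by rw [h, map_zero]))
    have h2 := g.pos ((chartAt (E n) x).symm y) (pushL x y u) h1
    have h3 := gval_pushL g x y u u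
    simp only [gval] at h3
    rw [h3] at h2
    simpa [dotProduct, Matrix.mulVec, Finset.mul_sum, mul_assoc] using h2

theorem good_coord (g : RMetric (E n) M) (x : M) : Good (chartAt (E n) x).target (coord g x) :=
  ⟨(chartAt (E n) x).open_target, fun _ _ => contDiffOn_gval g x _ _,
    fun z _ i j => coord_symm g x z i j, fun _ hz => (coord_det_pos g hz).ne'⟩

theorem jac_eq {τ : E n → E n} {y : E n} (hτ : DifferentiableAt ℝ τ y) (j i : Fin n) :
    jac τ y j i = fderiv ℝ τ y (Pi.single i 1) j := by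
  simp only [jac, pd, Matrix.of_apply]
  rw [fderiv_pi (fun j => differentiableAt_pi.1 hτ j)]
  rfl

theorem chg_coord (g : RMetric (E n) M) (x' x : M) :
    Chg (transDom (E n) x' x) (chartAt (E n) x).target (trans (E n) x' x) (coord g x)
      (coord g x') := by
  have heq : ∀ y ∈ transDom (E n) x' x, coord g x' y
      = (jac (trans (E n) x' x) y)ᵀ * coord g x (trans (E n) x' x y) * jac (trans (E n) x' x) y := by
    intro y hy
    have hd : DifferentiableAt ℝ (trans (E n) x' x) y :=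
      ((contDiffOn_trans x' x).contDiffAt ((isOpen_transDom x' x).mem_nhds hy)).differentiableAt
        (by simp)
    ext i j
    have h1 := gval_pushL g x (trans (E n) x' x y) (fderiv ℝ (trans (E n) x' x) y (Pi.single i 1))
      (fderiv ℝ (trans (E n) x' x) y (Pi.single j 1))
    rw [← pushL_trans hy, ← pushL_trans hy] at h1
    have h2 : (chartAt (E n) x).symm (trans (E n) x' x y) = (chartAt (E n) x').symm y :=
      (chartAt (E n) x).left_inv hy.2
    have h3 : ∀ p q : M, p = q → ∀ u v : E n, gval g p u v = gval g q u v := by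
      rintro p _ rfl u v; rfl
    rw [h3 _ _ h2] at h1
    simp only [Matrix.mul_apply, Matrix.transpose_apply, Finset.sum_mul, jac_eq hd]
    rw [Finset.sum_comm]
    exact h1
  refine ⟨isOpen_transDom x' x, good_coord g x, fun y hy => (chartAt (E n) x).map_source hy.2,
    contDiffOn_pi.1 (contDiffOn_trans x' x), fun y hy h0 => ?_, heq⟩
  have := coord_det_pos g hy.1
  rw [heq y hy, Matrix.det_mul, h0, mul_zero] at this
  exact lt_irrefl _ this

omit [IsManifold 𝓘(ℝ, E n) ∞ M] in
theorem mem_transDom {x₀ x : M} (hx : x ∈ (chartAt (E n) x₀).source) :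
    chartAt (E n) x x ∈ transDom (E n) x x₀ :=
  ⟨mem_chart_target _ x, by
    simp only [mem_preimage, (chartAt (E n) x).left_inv (mem_chart_source _ x)]; exact hx⟩

omit [IsManifold 𝓘(ℝ, E n) ∞ M] in
theorem trans_chart (x₀ x : M) : trans (E n) x x₀ (chartAt (E n) x x) = chartAt (E n) x₀ x := by
  simp only [trans, (chartAt (E n) x).left_inv (mem_chart_source _ x)]

theorem onM_eq {s : Met n → Ten n 0} (hs : IsNatural n 0 s) (g : RMetric (E n) M) {x₀ x : M}
    (hx : x ∈ (chartAt (E n) x₀).source) :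
    onM s g x = s (coord g x₀) (chartAt (E n) x₀ x) Fin.elim0 := by
  rw [onM, hs.scalar_eq (chg_coord g x x₀) (mem_transDom hx), trans_chart]

theorem contMDiff_of_charts {f : M → ℝ} (F : M → E n → ℝ)
    (hF : ∀ x₀, Sm (chartAt (E n) x₀).target (F x₀))
    (hf : ∀ x₀, ∀ x ∈ (chartAt (E n) x₀).source, f x = F x₀ (chartAt (E n) x₀ x)) :
    ContMDiff 𝓘(ℝ, E n) 𝓘(ℝ, ℝ) ∞ f := by
  intro x₀
  have h1 : ContMDiffOn 𝓘(ℝ, E n) 𝓘(ℝ, ℝ) ∞ (F x₀ ∘ chartAt (E n) x₀) (chartAt (E n) x₀).source :=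
    (contMDiffOn_iff_contDiffOn.2 (hF x₀)).comp contMDiffOn_chart
      fun x hx => (chartAt (E n) x₀).map_source hx
  exact (h1.congr (hf x₀)).contMDiffAt (chart_source_mem_nhds _ x₀)

theorem contMDiff_onM {s : Met n → Ten n 0} (hs : IsNatural n 0 s) (g : RMetric (E n) M) :
    ContMDiff 𝓘(ℝ, E n) 𝓘(ℝ, ℝ) ∞ (onM s g) :=
  contMDiff_of_charts (fun x₀ y => s (coord g x₀) y Fin.elim0)
    (fun x₀ => hs.smT (good_coord g x₀) _) fun _ _ hx => onM_eq hs g hx

theorem sm_comp_symm {f : M → ℝ} (hf : ContMDiff 𝓘(ℝ, E n) 𝓘(ℝ, ℝ) ∞ f) (x₀ : M) :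
    Sm (chartAt (E n) x₀).target fun y => f ((chartAt (E n) x₀).symm y) :=
  contMDiffOn_iff_contDiffOn.1 (hf.comp_contMDiffOn contMDiffOn_chart_symm)

end Coord

end Pool.Agent.Lib.MP_18eb12_gt
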