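import Mathlib
import Pool.Agent.Lib.MP_18eb12_gt.Vol

set_option autoImplicit false

noncomputable section

namespace Pool.Agent.Lib.MP_18eb12_gt

open scoped ContDiff Topology Matrix Manifold
open Set Filter MeasureTheory Bundle

theorem bounded_of_pos {V : Type} [NormedAddCommGroup V] [NormedSpace ℝ V] [FiniteDimensional ℝ V]
    (B : V →L[ℝ] V →L[ℝ] ℝ) (hB : ∀ v, v ≠ 0 → 0 < B v v) :
    Bornology.IsVonNBounded ℝ {v : V | B v v < 1} := by
  have hc : Continuous fun v : V => B v v := by fun_prop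
  obtain ⟨c, hc0, hc1⟩ : ∃ c : ℝ, 0 < c ∧ ∀ v : V, ‖v‖ = 1 → c ≤ B v v := by
    rcases (Metric.sphere (0 : V) 1).eq_empty_or_nonempty with h | h
    · refine ⟨1, one_pos, fun v hv => ?_⟩
      have : v ∈ Metric.sphere (0 : V) 1 := by simpa using hv
      rw [h] at this; exact this.elim
    · obtain ⟨v, hv, hmin⟩ := (isCompact_sphere (0 : V) 1).exists_isMinOn h hc.continuousOn
      refine ⟨B v v, hB v ?_, fun w hw => hmin (by simpa using hw)⟩
      rintro rfl; simp at hv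
  rw [NormedSpace.isVonNBounded_iff, Metric.isBounded_iff_subset_closedBall 0]
  refine ⟨1 / c + 1, fun v hv => ?_⟩
  rw [mem_closedBall_zero_iff]
  by_cases h0 : v = 0
  · subst h0; rw [norm_zero]; positivity
  have hn : 0 < ‖v‖ := norm_pos_iff.2 h0
  have h1 := hc1 (‖v‖⁻¹ • v) (by rw [norm_smul, norm_inv, norm_norm, inv_mul_cancel₀ hn.ne'])
  simp only [map_smul, smul_apply, smul_eq_mul] at h1
  have h2 : B v v < 1 := hv
  have h3 : c * (‖v‖ * ‖v‖) ≤ B v v := by
    have := mul_le_mul_of_nonneg_right h1 (mul_pos hn hn).le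
    refine this.trans (le_of_eq ?_)
    field_simp
  by_contra hcon
  push Not at hcon
  have h4 : 1 / c < ‖v‖ := by linarith
  have h5 : 1 < ‖v‖ := by have : 0 < 1 / c := by positivity
                          linarith
  rw [div_lt_iff₀ hc0] at h4
  nlinarith

section Generic

variable {V : Type} [NormedAddCommGroup V] [NormedSpace ℝ V] [FiniteDimensional ℝ V]
  {M : Type} [TopologicalSpace M] [ChartedSpace V M] [IsManifold 𝓘(ℝ, V) ∞ M]

/-- the metric exp(2 w) g -/
def conf (g : RMetric V M) (w : Smooth V M) : RMetric V M where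
  inner x := Real.exp (2 * w x) • g.inner x
  symm x u v := by simp [g.symm x u v]
  pos x v hv := by
    have := g.pos x v hv
    simp only [smul_apply, smul_eq_mul]
    positivity
  isVonNBounded x := bounded_of_pos (V := V) (Real.exp (2 * w x) • g.inner x) fun v hv => by
    have := g.pos x v hv
    change 0 < Real.exp (2 * w x) * g.inner x v v
    positivity
  contMDiff := by
    have h1 : ContMDiff 𝓘(ℝ, V) 𝓘(ℝ, ℝ) ∞ fun x => Real.exp (2 * w x) :=
      Real.contDiff_exp.contMDiff.comp (contMDiff_const.mul w.contMDiff)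
    exact h1.smul_section g.contMDiff

theorem gval_conf (g : RMetric V M) (w : Smooth V M) (x : M) (u v : TangentSpace 𝓘(ℝ, V) x) :
    gval (conf g w) x u v = Real.exp (2 * w x) * gval g x u v := rfl

theorem isConf_conf (g : RMetric V M) (w : Smooth V M) : IsConf g w (conf g w) :=
  gval_conf g w

/-- derivative of the chart -/
def pullL (V : Type) [NormedAddCommGroup V] [NormedSpace ℝ V] [ChartedSpace V M] (x₀ x : M) :
    V →L[ℝ] V := mfderiv 𝓘(ℝ, V) 𝓘(ℝ, V) (chartAt V x₀) x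

/-- pullback of a constant form by the chart at x₀ -/
def euc (B : V →L[ℝ] V →L[ℝ] ℝ) (x₀ x : M) :
    TangentSpace 𝓘(ℝ, V) x →L[ℝ] TangentSpace 𝓘(ℝ, V) x →L[ℝ] ℝ :=
  (B.bilinearComp (pullL V x₀ x) (pullL V x₀ x) : V →L[ℝ] V →L[ℝ] ℝ)

omit [FiniteDimensional ℝ V] [IsManifold 𝓘(ℝ, V) ∞ M] in
theorem euc_apply (B : V →L[ℝ] V →L[ℝ] ℝ) (x₀ x : M) (u v : V) :
    euc B x₀ x u v = B (pullL V x₀ x u) (pullL V x₀ x v) := rfl

omit [FiniteDimensional ℝ V] in
theorem mfderiv_pushL {x₀ x : M} (hx : x ∈ (chartAt V x₀).source) (u : V) :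
    pullL V x₀ x (pushL x₀ (chartAt V x₀ x) u) = u := by
  have := (mdifferentiable_chart (I := 𝓘(ℝ, V)) x₀).comp_symm_deriv ((chartAt V x₀).map_source hx)
  rw [(chartAt V x₀).left_inv hx] at this
  exact congrArg (fun L => L u) this

omit [FiniteDimensional ℝ V] in
theorem contMDiffOn_euc (B : V →L[ℝ] V →L[ℝ] ℝ) (x₀ : M) :
    ContMDiffOn 𝓘(ℝ, V) (𝓘(ℝ, V).prod 𝓘(ℝ, V →L[ℝ] V →L[ℝ] ℝ)) ∞
      (fun x => TotalSpace.mk' (V →L[ℝ] V →L[ℝ] ℝ) x (euc B x₀ x)) (chartAt V x₀).source := by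
  refine (Trivialization.contMDiffOn_section_iff (IB := 𝓘(ℝ, V)) (n := ∞) (s := euc B x₀)
    (trivializationAt (V →L[ℝ] V →L[ℝ] ℝ)
      (fun x : M => TangentSpace 𝓘(ℝ, V) x →L[ℝ] TangentSpace 𝓘(ℝ, V) x →L[ℝ] ℝ) x₀)
    (chartAt V x₀).open_source (fun x hx => by simpa using hx)).2 ?_
  refine (contMDiffOn_const (c := B)).congr fun x hx => ?_
  ext u v
  rw [triv_bilin (euc B x₀) hx, euc_apply, mfderiv_pushL hx, mfderiv_pushL hx]

theorem exists_metric [T2Space M] [CompactSpace M] (B : V →L[ℝ] V →L[ℝ] ℝ)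
    (hs : ∀ u v, B u v = B v u) (hp : ∀ v, v ≠ 0 → 0 < B v v) (x₀ : M) {C : Set M}
    (hC : IsClosed C) (hCs : C ⊆ (chartAt V x₀).source) :
    ∃ g : RMetric V M, ∀ x ∈ C, g.inner x = euc B x₀ x := by
  let t : ∀ x : M, Set (TangentSpace 𝓘(ℝ, V) x →L[ℝ] TangentSpace 𝓘(ℝ, V) x →L[ℝ] ℝ) := fun x =>
    {φ | (∀ u v, φ u v = φ v u) ∧ (∀ v, v ≠ 0 → 0 < φ v v) ∧ (x ∈ C → φ = euc B x₀ x)}
  have hloc : ∀ x₁ : M, ∀ x ∈ (chartAt V x₁).source, (∀ u v, euc B x₁ x u v = euc B x₁ x v u) ∧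
      ∀ v, v ≠ 0 → 0 < euc B x₁ x v v := by
    intro x₁ x hx
    refine ⟨fun u v => hs _ _, fun v hv => hp (pullL V x₁ x v) fun h => hv ?_⟩
    have hi : Function.Injective (pullL V x₁ x) :=
      (mdifferentiable_chart (I := 𝓘(ℝ, V)) x₁).mfderiv_injective hx
    exact hi (h.trans (map_zero _).symm)
  have key := exists_contMDiffSection_forall_mem_convex_of_local (n := ⊤) 𝓘(ℝ, V)
    (F_fiber := V →L[ℝ] V →L[ℝ] ℝ)
    (fun x : M => TangentSpace 𝓘(ℝ, V) x →L[ℝ] TangentSpace 𝓘(ℝ, V) x →L[ℝ] ℝ) t (fun x => ?_)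
    (fun x₁ => ?_)
  · obtain ⟨s, hs'⟩ := key
    exact ⟨⟨s, fun x => (hs' x).1, fun x => (hs' x).2.1,
      fun x => bounded_of_pos (V := V) (s x) (hs' x).2.1, s.contMDiff⟩, fun x hx => (hs' x).2.2 hx⟩
  · rintro φ ⟨h1, h2, h3⟩ ψ ⟨k1, k2, k3⟩ a b ha hb hab
    refine ⟨fun u v => by simp [h1 u v, k1 u v], fun v hv => ?_, fun hx => ?_⟩
    · have e1 := h2 v hv
      have e2 := k2 v hv
      simp only [add_apply, smul_apply, smul_eq_mul]
      rcases ha.eq_or_lt with h | h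
      · subst h; rw [zero_add] at hab; subst hab; simpa using e2
      · have := mul_pos h e1
        have := mul_nonneg hb e2.le
        linarith
    · rw [h3 hx, k3 hx]
      ext u v
      simp only [add_apply, smul_apply, smul_eq_mul]
      rw [← add_mul, hab, one_mul]
  · by_cases hx : x₁ ∈ (chartAt V x₀).source
    · exact ⟨_, (chartAt V x₀).open_source.mem_nhds hx, euc B x₀, contMDiffOn_euc B x₀,
        fun y hy => ⟨(hloc x₀ y hy).1, (hloc x₀ y hy).2, fun _ => rfl⟩⟩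
    · refine ⟨(chartAt V x₁).source ∩ Cᶜ, inter_mem (chart_source_mem_nhds _ x₁)
        (hC.isOpen_compl.mem_nhds fun h => hx (hCs h)), euc B x₁,
        (contMDiffOn_euc B x₁).mono inter_subset_left,
        fun y hy => ⟨(hloc x₁ y hy.1).1, (hloc x₁ y hy.1).2, fun h => (hy.2 h).elim⟩⟩

end Generic

section Coord

variable {n : ℕ} {M : Type} [TopologicalSpace M] [ChartedSpace (E n) M]
  [IsManifold 𝓘(ℝ, E n) ∞ M]

/-- the dot product -/
def dotL (n : ℕ) : E n →L[ℝ] E n →L[ℝ] ℝ :=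
  ∑ i, (ContinuousLinearMap.mul ℝ ℝ).bilinearComp (ContinuousLinearMap.proj i)
    (ContinuousLinearMap.proj i)

theorem dotL_apply (u v : E n) : dotL n u v = ∑ i, u i * v i := by
  simp [dotL]

theorem exists_flat [T2Space M] [CompactSpace M] (x₀ : M) :
    ∃ (g : RMetric (E n) M) (r : ℝ), 0 < r ∧
      Metric.closedBall (chartAt (E n) x₀ x₀) r ⊆ (chartAt (E n) x₀).target ∧
      ∀ y ∈ Metric.closedBall (chartAt (E n) x₀ x₀) r, coord g x₀ y = 1 := by
  obtain ⟨r, hr, hsub⟩ := Metric.nhds_basis_closedBall.mem_iff.1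
    ((chartAt (E n) x₀).open_target.mem_nhds (mem_chart_target (E n) x₀))
  have hK : IsCompact ((chartAt (E n) x₀).symm '' Metric.closedBall (chartAt (E n) x₀ x₀) r) :=
    (isCompact_closedBall _ _).image_of_continuousOn ((chartAt (E n) x₀).continuousOn_symm.mono hsub)
  have key := exists_metric (dotL n) (fun u v => by simp [dotL_apply, mul_comm])
    (fun v hv => ?_) x₀ hK.isClosed (by
      rintro _ ⟨y, hy, rfl⟩; exact (chartAt (E n) x₀).map_target (hsub hy))
  · obtain ⟨g, hg⟩ := key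
    refine ⟨g, r, hr, hsub, fun y hy => ?_⟩
    ext i j
    have h1 := mfderiv_pushL (V := E n) ((chartAt (E n) x₀).map_target (hsub hy))
    rw [(chartAt (E n) x₀).right_inv (hsub hy)] at h1
    rw [coord, gval, hg _ ⟨y, hy, rfl⟩, push_eq, push_eq, euc_apply, h1, h1, dotL_apply]
    simp [Pi.single_apply, Matrix.one_apply, eq_comm]
  · rw [dotL_apply]
    obtain ⟨i, hi⟩ := Function.ne_iff.1 hv
    exact Finset.sum_pos' (fun j _ => mul_self_nonneg _) ⟨i, Finset.mem_univ _, mul_self_pos.2 hi⟩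

theorem IsConf.coord {g g' : RMetric (E n) M} {w : M → ℝ} (h : IsConf g w g') (x : M) (y : E n) :
    coord g' x y = Real.exp (2 * w ((chartAt (E n) x).symm y)) • coord g x y := by
  ext i j
  exact h _ _ _

theorem IsConf.rho {g g' : RMetric (E n) M} {w : M → ℝ} (h : IsConf g w g') (x : M) (y : E n) :
    rho (MP_18eb12_gt.coord g' x) y
      = Real.exp (n * w ((chartAt (E n) x).symm y)) * rho (MP_18eb12_gt.coord g x) y := by
  rw [MP_18eb12_gt.rho, MP_18eb12_gt.rho, h.coord, Matrix.det_smul, Fintype.card_fin,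
    Real.sqrt_mul (by positivity), ← Real.exp_nat_mul, ← Real.exp_half]
  congr 2; ring

theorem IsConf.integral [MeasurableSpace M] [BorelSpace M] [CompactSpace M]
    {g g' : RMetric (E n) M} {w : M → ℝ} (h : IsConf g w g') (hw : Continuous w) (x : M)
    {φ : M → ℝ} (hφ : Continuous φ) (h0 : ∀ p, p ∉ (chartAt (E n) x).source → φ p = 0) :
    ∫ p, φ p ∂vol g' = ∫ p, Real.exp (n * w p) * φ p ∂vol g := by
  rw [integral_vol g' x hφ h0, integral_vol g x (by fun_prop) fun p hp => by rw [h0 p hp, mul_zero]]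
  refine integral_congr_ae (Eventually.of_forall fun y => ?_)
  simp only [h.rho]
  ring

theorem IsNatural.local_eq {T : Met n → Ten n 0} (hT : IsNatural n 0 T) {U : Set (E n)}
    {h h' : Met n} (H : Good U h) (he : ∀ y ∈ U, h' y = h y) {y : E n} (hy : y ∈ U) :
    T h' y Fin.elim0 = T h y Fin.elim0 := by
  have hj : ∀ y : E n, jac (fun z => z) y = 1 := by
    intro y; ext j i; simp [jac, pd_coord, Matrix.one_apply]
  exact hT.scalar_eq (U := U) (V := U) (τ := fun z => z) ⟨H.isOpen, H, fun _ h => h,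
    fun j => (contDiff_apply ℝ ℝ j).contDiffOn, fun y _ => by simp [hj],
    fun y hy => by simp [hj, he y hy]⟩ hy

end Coord

end Pool.Agent.Lib.MP_18eb12_gt
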