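import Mathlib
import Pool.Agent.Lib.MP_18eb12_gt.Calc

set_option autoImplicit false

noncomputable section

namespace Pool.Agent.Lib.MP_18eb12_gt

open scoped ContDiff Topology
open Set Filter MeasureTheory

theorem clairaut (Φ : ℝ → ℝ → ℝ) {A B : E 2 → ℝ} (hA : ContDiff ℝ ∞ A) (hB : ContDiff ℝ ∞ B)
    (h1 : ∀ s t, HasDerivAt (fun σ => Φ σ t) (A ![s, t]) s)
    (h2 : ∀ s t, HasDerivAt (fun τ => Φ s τ) (B ![s, t]) t) (p : E 2) :
    pd 1 A p = pd 0 B p := by
  let f' : E 2 → E 2 →L[ℝ] ℝ := fun p =>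
    A p • (ContinuousLinearMap.proj 0 : E 2 →L[ℝ] ℝ) + B p • (ContinuousLinearMap.proj 1 : E 2 →L[ℝ] ℝ)
  have hc : Continuous fun v : ℝ × ℝ => (![v.1, v.2] : E 2) := by fun_prop
  have hf : ∀ q : E 2, HasFDerivAt (fun q : E 2 => Φ (q 0) (q 1)) (f' q) q := by
    intro q
    have := hasStrictFDerivAt_uncurry_coprod (𝕜 := ℝ) (u := (q 0, q 1)) (f := Φ)
      (f₁ := fun s t => ContinuousLinearMap.toSpanSingleton ℝ (A ![s, t]))
      (f₂ := fun s t => ContinuousLinearMap.toSpanSingleton ℝ (B ![s, t]))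
      (Eventually.of_forall fun v => (h1 v.1 v.2).hasFDerivAt)
      (Eventually.of_forall fun v => (h2 v.1 v.2).hasFDerivAt)
      ((ContinuousLinearMap.toSpanSingletonLIE ℝ ℝ).continuous.comp
        (hA.continuous.comp hc)).continuousAt
      ((ContinuousLinearMap.toSpanSingletonLIE ℝ ℝ).continuous.comp
        (hB.continuous.comp hc)).continuousAt
    have h3 := this.hasFDerivAt.comp q
      (((ContinuousLinearMap.proj 0 : E 2 →L[ℝ] ℝ).prod (ContinuousLinearMap.proj 1)).hasFDerivAt)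
    have hq : (![q 0, q 1] : E 2) = q := by ext i; fin_cases i <;> rfl
    refine HasFDerivAt.congr_fderiv h3 ?_
    ext v
    simp [f', Function.HasUncurry.uncurry, hq, mul_comm]
  have hd : HasFDerivAt f' ((fderiv ℝ A p).smulRight (ContinuousLinearMap.proj 0 : E 2 →L[ℝ] ℝ)
      + (fderiv ℝ B p).smulRight (ContinuousLinearMap.proj 1 : E 2 →L[ℝ] ℝ)) p :=
    ((hA.differentiable (by simp) p).hasFDerivAt.smul_const
      (ContinuousLinearMap.proj 0 : E 2 →L[ℝ] ℝ)).add
      ((hB.differentiable (by simp) p).hasFDerivAt.smul_const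
        (ContinuousLinearMap.proj 1 : E 2 →L[ℝ] ℝ))
  have := second_derivative_symmetric hf hd (Pi.single 1 1) (Pi.single 0 1)
  simpa [pd] using this

/-- second derivative at the origin -/
def DD (i : Fin 2) (q : E 2 → ℝ) : ℝ := pd 1 (pd i q) 0

theorem cd_dAt {m : ℕ} {q : E m → ℝ} (hq : ContDiff ℝ ∞ q) (p : E m) : DifferentiableAt ℝ q p :=
  hq.differentiable (by simp) p

theorem cd_pd {m : ℕ} {q : E m → ℝ} (hq : ContDiff ℝ ∞ q) (i : Fin m) : ContDiff ℝ ∞ (pd i q) :=
  contDiffOn_univ.1 (Sm.pd hq.contDiffOn isOpen_univ i)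

theorem DD_add {q r : E 2 → ℝ} (hq : ContDiff ℝ ∞ q) (hr : ContDiff ℝ ∞ r) (i : Fin 2) :
    DD i (fun p => q p + r p) = DD i q + DD i r := by
  have : pd i (fun p => q p + r p) = fun p => pd i q p + pd i r p :=
    funext fun p => pd_add (cd_dAt hq p) (cd_dAt hr p)
  rw [DD, this, pd_add (cd_dAt (cd_pd hq i) _) (cd_dAt (cd_pd hr i) _)]; rfl

theorem DD_mul_const {q : E 2 → ℝ} (hq : ContDiff ℝ ∞ q) (c : ℝ) (i : Fin 2) :
    DD i (fun p => q p * c) = DD i q * c := by
  have : pd i (fun p => q p * c) = fun p => pd i q p * c :=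
    funext fun p => pd_mul_const c (cd_dAt hq p)
  rw [DD, this, pd_mul_const c (cd_dAt (cd_pd hq i) _)]; rfl

theorem DD_sum {ι : Type*} {s : Finset ι} {q : ι → E 2 → ℝ} (hq : ∀ a, ContDiff ℝ ∞ (q a))
    (i : Fin 2) : DD i (fun p => ∑ a ∈ s, q a p) = ∑ a ∈ s, DD i (q a) := by
  have : pd i (fun p => ∑ a ∈ s, q a p) = fun p => ∑ a ∈ s, pd i (q a) p :=
    funext fun p => pd_sum fun a _ => cd_dAt (hq a) p
  rw [DD, this, pd_sum fun a _ => cd_dAt (cd_pd (hq a) i) _]; rfl

/-- a linear form in the two parameters -/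
def lin (x y : ℝ) (p : E 2) : ℝ := p 0 * x + p 1 * y

theorem cd_lin (x y : ℝ) : ContDiff ℝ ∞ (lin x y) := by unfold lin; fun_prop

theorem pd_lin (x y : ℝ) (i : Fin 2) (p : E 2) : pd i (lin x y) p = ![x, y] i := by
  unfold lin
  rw [pd_add (by fun_prop) (by fun_prop), pd_mul_const _ (by fun_prop), pd_mul_const _ (by fun_prop),
    pd_coord, pd_coord]
  fin_cases i <;> simp

@[simp] theorem lin_zero (x y : ℝ) : lin x y 0 = 0 := by simp [lin]

theorem DD_affine (c x y : ℝ) (i : Fin 2) : DD i (fun p => c + lin x y p) = 0 := by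
  have : pd i (fun p => c + lin x y p) = fun _ => ![x, y] i := funext fun p => by
    rw [pd_add (differentiableAt_const _) (cd_dAt (cd_lin x y) p), pd_lin]; simp
  rw [DD, this, pd_const]

theorem DD_sq_mul {R W : E 2 → ℝ} (hR : ContDiff ℝ ∞ R) (hW : ContDiff ℝ ∞ W) (h0 : R 0 = 0)
    (i : Fin 2) : DD i (fun p => R p * R p * W p) = 2 * pd 1 R 0 * pd i R 0 * W 0 := by
  have : pd i (fun p => R p * R p * W p)
      = fun p => R p * (2 * pd i R p * W p + R p * pd i W p) := funext fun p => by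
    rw [pd_mul (cd_dAt (hR.mul hR) p) (cd_dAt hW p), pd_mul (cd_dAt hR p) (cd_dAt hR p)]; ring
  rw [DD, this, pd_mul (cd_dAt hR _) (cd_dAt (((contDiff_const.mul (cd_pd hR i)).mul hW).add
    (hR.mul (cd_pd hW i))) _), h0]
  ring

variable {X : Type} [TopologicalSpace X]

/-- finite sums of products of a smooth function of the parameter and a continuous function -/
inductive Sep : (E 2 → X → ℝ) → Prop
  | base (q : E 2 → ℝ) (φ : X → ℝ) : ContDiff ℝ ∞ q → Continuous φ → Sep fun p y => q p * φ y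
  | add {f g : E 2 → X → ℝ} : Sep f → Sep g → Sep fun p y => f p y + g p y

theorem Sep.congr {f g : E 2 → X → ℝ} (hf : Sep f) (h : ∀ p y, g p y = f p y) : Sep g := by
  have : g = f := funext fun p => funext (h p)
  rwa [this]

theorem Sep.const {φ : X → ℝ} (hφ : Continuous φ) : Sep fun (_ : E 2) y => φ y :=
  (Sep.base (fun _ => 1) φ contDiff_const hφ).congr fun _ _ => by simp

theorem Sep.mul {f g : E 2 → X → ℝ} (hf : Sep f) (hg : Sep g) : Sep fun p y => f p y * g p y := by
  induction hf with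
  | base q φ hq hφ =>
    induction hg with
    | base r ψ hr hψ =>
      exact (Sep.base (fun p => q p * r p) (fun y => φ y * ψ y) (hq.mul hr) (hφ.mul hψ)).congr
        fun _ _ => by ring
    | add _ _ ih ih' => exact (ih.add ih').congr fun _ _ => by ring
  | add _ _ ih ih' => exact (ih.add ih').congr fun _ _ => by ring

theorem Sep.smul {f : E 2 → X → ℝ} (c : ℝ) (hf : Sep f) : Sep fun p y => c * f p y :=
  (Sep.const continuous_const).mul hf

theorem Sep.sub {f g : E 2 → X → ℝ} (hf : Sep f) (hg : Sep g) : Sep fun p y => f p y - g p y :=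
  (hf.add (hg.smul (-1))).congr fun _ _ => by ring

theorem Sep.sum {ι : Type*} (s : Finset ι) {f : ι → E 2 → X → ℝ} (hf : ∀ a, Sep (f a)) :
    Sep fun p y => ∑ a ∈ s, f a p y := by
  classical
  induction s using Finset.induction_on with
  | empty => exact (Sep.const (continuous_const (y := (0 : ℝ)))).congr fun _ _ => by simp
  | insert a s ha ih => exact ((hf a).add ih).congr fun _ _ => by rw [Finset.sum_insert ha]

theorem Sep.lin {φ ψ : X → ℝ} (hφ : Continuous φ) (hψ : Continuous ψ) :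
    Sep fun p y => lin (φ y) (ψ y) p :=
  (Sep.base (fun p => p 0) φ (by fun_prop) hφ).add (Sep.base (fun p => p 1) ψ (by fun_prop) hψ)

theorem Sep.integral [MeasurableSpace X] [OpensMeasurableSpace X] [T2Space X] (μ : Measure X)
    [IsFiniteMeasureOnCompacts μ] {K : Set X} (hK : IsCompact K) {f : E 2 → X → ℝ} (hf : Sep f)
    (i : Fin 2) :
    (∀ p, Continuous (f p)) ∧ (∀ y, ContDiff ℝ ∞ fun p => f p y) ∧
      (Continuous fun y => DD i fun p => f p y) ∧ (ContDiff ℝ ∞ fun p => ∫ y in K, f p y ∂μ) ∧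
      DD i (fun p => ∫ y in K, f p y ∂μ) = ∫ y in K, DD i (fun p => f p y) ∂μ := by
  induction hf with
  | base q φ hq hφ =>
    simp only [integral_const_mul, DD_mul_const hq]
    exact ⟨fun p => continuous_const.mul hφ, fun y => hq.mul contDiff_const,
      continuous_const.mul hφ, hq.mul contDiff_const, trivial⟩
  | @add f g _ _ ih ih' =>
    obtain ⟨a1, a2, a3, a4, a5⟩ := ih
    obtain ⟨b1, b2, b3, b4, b5⟩ := ih'
    have e1 : ∀ p, ∫ y in K, (f p y + g p y) ∂μ = ∫ y in K, f p y ∂μ + ∫ y in K, g p y ∂μ :=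
      fun p => integral_add ((a1 p).continuousOn.integrableOn_compact hK)
        ((b1 p).continuousOn.integrableOn_compact hK)
    simp only [e1, DD_add (a2 _) (b2 _), DD_add a4 b4]
    refine ⟨fun p => (a1 p).add (b1 p), fun y => (a2 y).add (b2 y), a3.add b3, a4.add b4, ?_⟩
    rw [a5, b5, integral_add (a3.continuousOn.integrableOn_compact hK)
      (b3.continuousOn.integrableOn_compact hK)]

end Pool.Agent.Lib.MP_18eb12_gt
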