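import Mathlib
import Pool.Agent.Lib.MP_18eb12_gt.Vol

set_option autoImplicit false

noncomputable section

namespace Pool.Agent.Lib.MP_18eb12_gt

open scoped ContDiff Topology Matrix Manifold
open Set Filter MeasureTheory Bundle

variable {n : ℕ}

/-- inner product of df with a one-form -/
def pair (h : Met n) (f : E n → ℝ) (X : Ten n 1) (y : E n) : ℝ :=
  contr (k := 0) h (tens (k := 1) (l := 1) (cov (k := 0) h fun z _ => f z) X) y Fin.elim0

theorem pair_eq (h : Met n) (f : E n → ℝ) (X : Ten n 1) (y : E n) :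
    pair h f X y = ∑ i, ∑ j, (h y)⁻¹ i j * (pd i f y * X y fun _ => j) := by
  simp only [pair, contr, tens, cov, Finset.univ_eq_empty, Finset.sum_empty, sub_zero]
  refine Finset.sum_congr rfl fun i _ => Finset.sum_congr rfl fun j _ => ?_
  congr 3
  exact fin1_eq _

theorem Good.ibp {U : Set (E n)} {h : Met n} (H : Good U h) {y : E n} (hy : y ∈ U)
    (hp : 0 < (h y).det) {X : Ten n 1} (hX : SmT U X) {f : E n → ℝ} (hf : Sm U f) :
    rho h y * (f y * dvg h X y + pair h f X y)
      = ∑ i, pd i (fun z => f z * (rho h z * ∑ j, (h z)⁻¹ i j * X z fun _ => j)) y := by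
  have d1 : ∀ i, DifferentiableAt ℝ (fun z => rho h z * ∑ j, (h z)⁻¹ i j * X z fun _ => j) y :=
    fun i => Sm.dAt (H.sm_rho.mul (ContDiffOn.sum fun j _ => (H.inv i j).mul (hX _))) H.isOpen hy
  simp only [pd_mul (hf.dAt H.isOpen hy) (d1 _), Finset.sum_add_distrib]
  rw [← Finset.mul_sum, ← H.rho_dvg hy hp hX, pair_eq, mul_add, add_comm]
  congr 1
  · simp only [Finset.mul_sum]
    exact Finset.sum_congr rfl fun i _ => Finset.sum_congr rfl fun j _ => by ring
  · ring

variable {M : Type} [TopologicalSpace M] [ChartedSpace (E n) M] [IsManifold 𝓘(ℝ, E n) ∞ M]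

/-- a function on M read in the chart at x -/
def inChart (φ : M → ℝ) (x : M) : E n → ℝ := fun y => φ ((chartAt (E n) x).symm y)

/-- inner product of dφ with a natural one-form -/
def pairM (g : RMetric (E n) M) (φ : M → ℝ) (X : Met n → Ten n 1) (x : M) : ℝ :=
  pair (coord g x) (inChart φ x) (X (coord g x)) (chartAt (E n) x x)

theorem pairM_eq {X : Met n → Ten n 1} (hX : IsNatural n 1 X) (g : RMetric (E n) M) {φ : M → ℝ}
    (hφ : ContMDiff 𝓘(ℝ, E n) 𝓘(ℝ, ℝ) ∞ φ) {x₀ x : M} (hx : x ∈ (chartAt (E n) x₀).source) :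
    pairM g φ X x = pair (coord g x₀) (inChart φ x₀) (X (coord g x₀)) (chartAt (E n) x₀ x) := by
  have C := chg_coord g x x₀
  have H0 : Tr (k := 0) (transDom (E n) x x₀) (chartAt (E n) x₀).target (trans (E n) x x₀)
      (fun z _ => inChart φ x₀ z) (fun z _ => inChart φ x z) := by
    refine ⟨fun _ => sm_comp_symm hφ x₀, fun y hy I => ?_⟩
    rw [ev_zero]
    simp only [inChart, trans, (chartAt (E n) x₀).left_inv hy.2]
  have := (C.contr (k := 0) (Tr.tens (k := 1) (l := 1) (C.cov H0) (hX.tr C))).eq _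
    (mem_transDom hx) Fin.elim0
  rw [ev_zero, trans_chart] at this
  exact this

theorem contMDiff_pairM {X : Met n → Ten n 1} (hX : IsNatural n 1 X) (g : RMetric (E n) M)
    {φ : M → ℝ} (hφ : ContMDiff 𝓘(ℝ, E n) 𝓘(ℝ, ℝ) ∞ φ) :
    ContMDiff 𝓘(ℝ, E n) 𝓘(ℝ, ℝ) ∞ (pairM g φ X) := by
  refine contMDiff_of_charts (fun x₀ => pair (coord g x₀) (inChart φ x₀) (X (coord g x₀)))
    (fun x₀ => ?_) fun _ _ hx => pairM_eq hX g hφ hx
  have H := good_coord g x₀
  exact H.contr (k := 0) (SmT.tens (k := 1) (l := 1)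
    (H.cov (k := 0) fun _ => sm_comp_symm hφ x₀) (hX.smT H)) _

omit [IsManifold 𝓘(ℝ, E n) ∞ M] in
theorem inChart_eventuallyEq {φ ψ : M → ℝ} {x : M} (h : φ =ᶠ[𝓝 x] ψ) :
    inChart (n := n) φ x =ᶠ[𝓝 (chartAt (E n) x x)] inChart ψ x :=
  ((chartAt (E n) x).tendsto_symm (mem_chart_source _ x)).eventually h

theorem pairM_zero (g : RMetric (E n) M) {φ : M → ℝ} (X : Met n → Ten n 1) {x : M}
    (hx : x ∉ tsupport φ) : pairM g φ X x = 0 := by
  rw [pairM, pair_eq]
  refine Finset.sum_eq_zero fun i _ => Finset.sum_eq_zero fun j _ => ?_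
  rw [pd_congr (inChart_eventuallyEq (notMem_tsupport_iff_eventuallyEq.1 hx))]
  rw [show inChart (n := n) (0 : M → ℝ) x = fun _ => 0 from rfl]
  simp

/-- the divergence of a natural one-form -/
def divN (X : Met n → Ten n 1) : Met n → Ten n 0 := fun g => contr (k := 0) g (cov g (X g))

theorem IsNatural.divN {X : Met n → Ten n 1} (hX : IsNatural n 1 X) : IsNatural n 0 (divN X) :=
  IsNatural.ofContr (IsNatural.ofCov hX)

variable [MeasurableSpace M] [BorelSpace M] [CompactSpace M]

theorem integral_local {X : Met n → Ten n 1} (hX : IsNatural n 1 X) (g : RMetric (E n) M)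
    {φ : M → ℝ} (hφ : ContMDiff 𝓘(ℝ, E n) 𝓘(ℝ, ℝ) ∞ φ) {x₀ : M}
    (hs : tsupport φ ⊆ (chartAt (E n) x₀).source) :
    ∫ p, (φ p * onM (divN X) g p + pairM g φ X p) ∂vol g = 0 := by
  have H := good_coord g x₀
  set e := chartAt (E n) x₀ with he
  have hK : IsCompact (e '' tsupport φ) :=
    (isClosed_tsupport φ).isCompact.image_of_continuousOn (e.continuousOn.mono hs)
  have hKU : e '' tsupport φ ⊆ e.target := by
    rintro _ ⟨p, hp, rfl⟩; exact e.map_source (hs hp)
  let ψ : E n → ℝ := e.target.indicator (inChart φ x₀)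
  have hψ : ∀ y ∈ e.target, ψ y = inChart φ x₀ y := fun y hy => indicator_of_mem hy _
  have hψs : Sm e.target ψ := (sm_comp_symm hφ x₀).congr hψ
  have hψ0 : ∀ y, y ∉ e '' tsupport φ → ψ y = 0 := by
    intro y hy
    by_cases hyt : y ∈ e.target
    · rw [hψ y hyt]
      exact image_eq_zero_of_notMem_tsupport (f := φ) fun hc => hy ⟨_, hc, e.right_inv hyt⟩
    · exact indicator_of_notMem hyt _
  rw [integral_vol g x₀ (φ := fun p => φ p * onM (divN X) g p + pairM g φ X p) ((hφ.continuous.mul (contMDiff_onM hX.divN g).continuous).add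
    (contMDiff_pairM hX g hφ).continuous) (fun p hp => by
      have hp' : p ∉ tsupport φ := fun h => hp (hs h)
      rw [image_eq_zero_of_notMem_tsupport hp', pairM_zero g X hp']; simp)]
  let F : Fin n → E n → ℝ := fun i z => ψ z * (rho (coord g x₀) z
    * ∑ j, (coord g x₀ z)⁻¹ i j * X (coord g x₀) z fun _ => j)
  have hF0 : ∀ i y, y ∉ e '' tsupport φ → F i y = 0 := fun i y hy => by simp [F, hψ0 y hy]
  have h1 : ∫ y, ∑ i, pd i (F i) y = 0 :=
    integral_sum_pd_eq_zero e.open_target (fun i => hψs.mul (H.sm_rho.mul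
      (ContDiffOn.sum fun j _ => (H.inv i j).mul (hX.smT H _)))) hK hKU hF0
  rw [← h1, ← setIntegral_eq_integral_of_forall_compl_eq_zero (s := e.target) (fun y hy =>
    Finset.sum_eq_zero fun i _ => pd_zero_of_supp hK.isClosed (hF0 i) i y fun h => hy (hKU h))]
  refine setIntegral_congr_fun e.open_target.measurableSet fun y hy => ?_
  have hy' : e.symm y ∈ e.source := e.map_target hy
  rw [← H.ibp hy (coord_det_pos g hy) (hX.smT H) hψs, onM_eq hX.divN g hy', pairM_eq hX g hφ hy',
    e.right_inv hy, hψ y hy, pair_eq, pair_eq]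
  simp only [pd_congr_on e.open_target hy hψ]
  rfl

theorem integral_divN [T2Space M] {X : Met n → Ten n 1} (hX : IsNatural n 1 X)
    (g : RMetric (E n) M) : ∫ p, onM (divN X) g p ∂vol g = 0 := by
  obtain ⟨ρ, hρ⟩ := SmoothPartitionOfUnity.exists_isSubordinate_chartAt_source 𝓘(ℝ, E n) M
  have hfin := ρ.locallyFinite.finite_nonempty_of_compact
  set t := hfin.toFinset with ht
  have hsum : ∀ p, ∑ i ∈ t, ρ i p = 1 := by
    intro p
    rw [← ρ.sum_eq_one (mem_univ p)]
    refine (finsum_eq_sum_of_support_subset _ fun i hi => ?_).symm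
    simp only [ht, Finite.coe_toFinset, mem_ofPred_eq]
    exact ⟨p, hi⟩
  have hD := (contMDiff_onM hX.divN g).continuous
  have hB : ∀ p, ∑ i ∈ t, pairM g (ρ i) X p = 0 := by
    intro p
    simp only [pairM, pair_eq]
    rw [Finset.sum_comm]
    refine Finset.sum_eq_zero fun a _ => ?_
    rw [Finset.sum_comm]
    refine Finset.sum_eq_zero fun b _ => ?_
    rw [← Finset.mul_sum, ← Finset.sum_mul, ← pd_sum (F := fun i => inChart (ρ i) p) fun i _ =>
      (sm_comp_symm (ρ i).contMDiff p).dAt (chartAt (E n) p).open_target (mem_chart_target _ p)]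
    simp [inChart, hsum]
  have h1 : ∀ p, onM (divN X) g p
      = ∑ i ∈ t, (ρ i p * onM (divN X) g p + pairM g (ρ i) X p) := by
    intro p
    rw [Finset.sum_add_distrib, hB, ← Finset.sum_mul, hsum]; ring
  rw [integral_congr_ae (Eventually.of_forall h1), integral_finsetSum _
    (f := fun i p => ρ i p * onM (divN X) g p + pairM g (ρ i) X p) fun i _ =>
    integrable_vol g (((ρ i).contMDiff.continuous.mul hD).add
      (contMDiff_pairM hX g (ρ i).contMDiff).continuous)]
  exact Finset.sum_eq_zero fun i _ => integral_local hX g (ρ i).contMDiff (hρ i)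

end Pool.Agent.Lib.MP_18eb12_gt
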