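import Mathlib
import Pool.Agent.Lib.MP_18eb12_gt.Stokes
import Pool.Agent.Lib.MP_18eb12_gt.Param

set_option autoImplicit false

noncomputable section

namespace Pool.Agent.Lib.MP_18eb12_gt

open scoped ContDiff Topology Matrix
open Set Filter MeasureTheory

variable {n : ℕ}

/-- Ricci tensor -/
def ric (g : Met n) : Ten n 2 :=
  contr (k := 2) g fun y I => riem g y (I ∘ (Equiv.swap 1 2 * Equiv.swap 2 3 : Equiv.Perm (Fin 4)))

/-- squared norm of the Ricci tensor -/
def nrm (g : Met n) : Ten n 0 :=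
  contr (k := 0) g (contr (k := 2) g fun y I =>
    tens (ric g) (ric g) y (I ∘ (Equiv.swap 1 2 : Equiv.Perm (Fin 4))))

/-- gradient of the squared norm of the Ricci tensor -/
def dnrm (g : Met n) : Ten n 1 := cov (k := 0) g (nrm g)

theorem isNatural_ric : IsNatural n 2 ric :=
  IsNatural.ofContr (k := 2) (IsNatural.ofPerm _ IsNatural.ofRiem)

theorem isNatural_nrm : IsNatural n 0 nrm :=
  IsNatural.ofContr (k := 0) (IsNatural.ofContr (k := 2)
    (IsNatural.ofPerm _ (IsNatural.ofTens isNatural_ric isNatural_ric)))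

theorem isNatural_dnrm : IsNatural n 1 dnrm := IsNatural.ofCov isNatural_nrm

theorem perm_ric (a b : Fin n) (I : Fin 2 → Fin n) :
    (Fin.cons a (Fin.cons b I : Fin 3 → Fin n) : Fin 4 → Fin n)
      ∘ (Equiv.swap 1 2 * Equiv.swap 2 3 : Equiv.Perm (Fin 4)) = ![a, I 0, I 1, b] := by
  ext i; fin_cases i <;> rfl

theorem Good.ric_eq {U : Set (E n)} {h : Met n} (H : Good U h) {y : E n} (hy : y ∈ U)
    (I : Fin 2 → Fin n) : ric h y I = ∑ a, rmM h a (I 0) y a (I 1) := by
  have e1 : ric h y I = ∑ a, ∑ b, (h y)⁻¹ a b * MP_18eb12_gt.riem h y ![a, I 0, I 1, b] := by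
    simp only [ric, MP_18eb12_gt.contr, perm_ric]
  rw [e1]
  refine Finset.sum_congr rfl fun a _ => ?_
  have e2 : ∀ b, MP_18eb12_gt.riem h y ![a, I 0, I 1, b]
      = ∑ m, h y m b * rmM h a (I 0) y m (I 1) := fun b => by rw [riem_eq]; rfl
  simp only [e2, Finset.mul_sum]
  rw [Finset.sum_comm]
  have : ∀ m, ∑ b, (h y)⁻¹ a b * (h y m b * rmM h a (I 0) y m (I 1))
      = (if a = m then 1 else 0) * rmM h a (I 0) y m (I 1) := by
    intro m
    rw [← H.inv_mul hy a m, Finset.sum_mul]
    exact Finset.sum_congr rfl fun b _ => by rw [H.symm y hy m b]; ring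
  simp [this]

theorem perm_nrm (a c b d : Fin n) (I : Fin 0 → Fin n) :
    (Fin.cons a (Fin.cons c (Fin.cons b (Fin.cons d I : Fin 1 → Fin n) : Fin 2 → Fin n) :
      Fin 3 → Fin n) : Fin 4 → Fin n) ∘ (Equiv.swap 1 2 : Equiv.Perm (Fin 4)) = ![a, b, c, d] := by
  ext i; fin_cases i <;> rfl

theorem tens_two (T T' : Ten n 2) (y : E n) (a b c d : Fin n) :
    tens T T' y ![a, b, c, d] = T y ![a, b] * T' y ![c, d] := by
  have e1 : (fun i : Fin 2 => (![a, b, c, d] : Fin (2 + 2) → Fin n) (Fin.castAdd 2 i)) = ![a, b] := by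
    ext i; fin_cases i <;> rfl
  have e2 : (fun i : Fin 2 => (![a, b, c, d] : Fin (2 + 2) → Fin n) (Fin.natAdd 2 i)) = ![c, d] := by
    ext i; fin_cases i <;> rfl
  simp only [tens, e1, e2]

theorem nrm_eq (h : Met n) (y : E n) (I : Fin 0 → Fin n) :
    nrm h y I = ∑ b, ∑ d, (h y)⁻¹ b d * ∑ a, ∑ c, (h y)⁻¹ a c
      * (ric h y ![a, b] * ric h y ![c, d]) := by
  simp only [nrm, contr]
  refine Finset.sum_congr rfl fun b _ => Finset.sum_congr rfl fun d _ => ?_
  refine congrArg _ (Finset.sum_congr rfl fun a _ => Finset.sum_congr rfl fun c _ => ?_)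
  rw [← tens_two, ← perm_nrm a c b d I]

theorem cov_zero (h : Met n) (T : Ten n 0) (y : E n) (j : Fin n) :
    cov (k := 0) h T y (fun _ => j) = pd j (fun z => T z Fin.elim0) y := by
  have : Fin.tail (fun _ : Fin (0 + 1) => j) = Fin.elim0 := Subsingleton.elim _ _
  simp only [cov, Finset.univ_eq_empty, Finset.sum_empty, sub_zero, this]

theorem dnrm_eq (h : Met n) (y : E n) (j : Fin n) :
    dnrm h y (fun _ => j) = pd j (fun z => nrm h z Fin.elim0) y := cov_zero h (nrm h) y j

/-- conformally flat metric -/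
def cf (u : E n → ℝ) : Met n := fun y => Real.exp (2 * u y) • (1 : Matrix (Fin n) (Fin n) ℝ)

variable {u : E n → ℝ}

theorem cf_apply (y : E n) (i j : Fin n) :
    cf u y i j = Real.exp (2 * u y) * if i = j then 1 else 0 := by
  simp [cf, Matrix.one_apply]

theorem cf_det (y : E n) : (cf u y).det = Real.exp (n * u y) ^ 2 := by
  rw [cf, Matrix.det_smul, Matrix.det_one, mul_one, Fintype.card_fin, ← Real.exp_nat_mul,
    ← Real.exp_nat_mul]
  congr 1; push_cast; ring

theorem cf_rho (y : E n) : rho (cf u) y = Real.exp (n * u y) := by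
  rw [rho, cf_det, Real.sqrt_sq (Real.exp_pos _).le]

theorem cf_inv (y : E n) (i j : Fin n) :
    (cf u y)⁻¹ i j = Real.exp (-(2 * u y)) * if i = j then 1 else 0 := by
  have : (cf u y)⁻¹ = Real.exp (-(2 * u y)) • (1 : Matrix (Fin n) (Fin n) ℝ) := by
    apply Matrix.inv_eq_left_inv
    rw [cf, smul_mul_smul_comm, ← Real.exp_add]; simp
  simp [this, Matrix.one_apply]

theorem good_cf (hu : ContDiff ℝ ∞ u) : Good univ (cf u) := by
  refine ⟨isOpen_univ, fun i j => ?_, fun z _ i j => ?_, fun z _ => ?_⟩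
  · simp only [cf_apply]
    exact ContDiff.contDiffOn (by fun_prop)
  · simp only [cf_apply, eq_comm]
  · rw [cf_det]; positivity

theorem pd_cf (hu : ContDiff ℝ ∞ u) (y : E n) (k i j : Fin n) :
    pd k (fun z => cf u z i j) y
      = Real.exp (2 * u y) * (2 * pd k u y) * if i = j then 1 else 0 := by
  simp only [cf_apply]
  have h1 : DifferentiableAt ℝ (fun z => 2 * u z) y := (cd_dAt hu y).const_mul 2
  rw [pd_mul_const _ h1.exp, pd_exp h1, pd_const_mul _ (cd_dAt hu y)]

theorem chr_cf (hu : ContDiff ℝ ∞ u) (y : E n) (m i j : Fin n) :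
    chr (cf u) y m i j = (if m = j then pd i u y else 0) + (if m = i then pd j u y else 0)
      - if i = j then pd m u y else 0 := by
  simp only [chr, cf_inv, pd_cf hu, mul_ite, ite_mul, mul_one, mul_zero, zero_mul,
    Finset.sum_ite_eq, Finset.mem_univ, if_true]
  have h1 : Real.exp (-(2 * u y)) * Real.exp (2 * u y) = 1 := by rw [← Real.exp_add]; simp
  simp only [eq_comm (a := j) (b := m), eq_comm (a := i) (b := m)]
  have h2 : ∀ (P : Prop) [Decidable P] (x : ℝ), (if P then Real.exp (2 * u y) * (2 * x) else 0)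
      = Real.exp (2 * u y) * 2 * if P then x else 0 := by
    intro P _ x; split_ifs <;> ring
  simp only [h2]
  linear_combination ((if m = j then pd i u y else 0) + (if m = i then pd j u y else 0)
      - if i = j then pd m u y else 0) * h1

/-- flat Laplacian -/
def lap (u : E n → ℝ) (y : E n) : ℝ := ∑ i, pd i (pd i u) y

/-- flat inner product of gradients -/
def grad2 (u v : E n → ℝ) (y : E n) : ℝ := ∑ i, pd i u y * pd i v y

/-- Ricci tensor of a conformally flat metric -/
def ric0 (u : E n → ℝ) (y : E n) (j k : Fin n) : ℝ :=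
  (2 - n) * pd j (pd k u) y - (if j = k then lap u y else 0)
    + (n - 2) * (pd j u y * pd k u y) - (n - 2) * if j = k then grad2 u u y else 0

theorem pd_ite (P : Prop) [Decidable P] (f : E n → ℝ) (i : Fin n) (y : E n) :
    pd i (fun z => if P then f z else 0) y = if P then pd i f y else 0 := by
  split_ifs <;> simp

theorem pd_chr_cf (hu : ContDiff ℝ ∞ u) (y : E n) (a m i j : Fin n) :
    pd a (fun z => chr (cf u) z m i j) y = (if m = j then pd a (pd i u) y else 0)
      + (if m = i then pd a (pd j u) y else 0) - if i = j then pd a (pd m u) y else 0 := by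
  have d : ∀ (P : Prop) [Decidable P] (i : Fin n),
      DifferentiableAt ℝ (fun z => if P then pd i u z else 0) y := by
    intro P _ i
    split_ifs
    · exact cd_dAt (cd_pd hu i) y
    · exact differentiableAt_const _
  simp only [chr_cf hu]
  rw [pd_sub ((d _ _).fun_add (d _ _)) (d _ _), pd_add (d _ _) (d _ _), pd_ite, pd_ite, pd_ite]

theorem ric_cf (hu : ContDiff ℝ ∞ u) (y : E n) (j k : Fin n) :
    ric (cf u) y ![j, k] = ric0 u y j k := by
  rw [(good_cf hu).ric_eq (mem_univ y)]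
  have hc : pd k (pd j u) y = pd j (pd k u) y := pd_comm hu.contDiffOn isOpen_univ (mem_univ y)
  simp only [rmM, pdM, chrM, Matrix.add_apply, Matrix.sub_apply, Matrix.of_apply, Matrix.mul_apply,
    Matrix.cons_val_zero, Matrix.cons_val_one, pd_chr_cf hu]
  simp only [chr_cf hu, ric0, lap, grad2]
  by_cases hjk : j = k
  · subst hjk
    simp [add_mul, mul_add, sub_mul, mul_sub, Finset.sum_add_distrib, Finset.sum_sub_distrib]
    ring
  · have hkj : ¬ k = j := fun h => hjk h.symm
    simp [add_mul, mul_add, sub_mul, mul_sub, Finset.sum_add_distrib, Finset.sum_sub_distrib, hjk,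
      hkj, hc]
    ring

/-- flat squared norm of the Ricci tensor of a conformally flat metric -/
def pp (u : E n → ℝ) (y : E n) : ℝ := ∑ j, ∑ k, ric0 u y j k * ric0 u y j k

theorem nrm_cf (hu : ContDiff ℝ ∞ u) (y : E n) :
    nrm (cf u) y Fin.elim0 = Real.exp (-(4 * u y)) * pp u y := by
  rw [nrm_eq]
  simp only [cf_inv, ric_cf hu, mul_ite, ite_mul, mul_one, mul_zero, zero_mul, Finset.sum_ite_eq,
    Finset.mem_univ, if_true]
  simp only [pp, Finset.mul_sum]
  rw [Finset.sum_comm]
  refine Finset.sum_congr rfl fun a _ => Finset.sum_congr rfl fun b _ => ?_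
  have h1 : Real.exp (-(4 * u y)) = Real.exp (-(2 * u y)) * Real.exp (-(2 * u y)) := by
    rw [← Real.exp_add]; congr 1; ring
  rw [h1]; ring

theorem rho_S_cf {u : E 6 → ℝ} (hu : ContDiff ℝ ∞ u) (y : E 6) :
    rho (cf u) y * divN dnrm (cf u) y Fin.elim0
      = ∑ i, pd i (fun z => Real.exp (4 * u z) * pd i (fun w => nrm (cf u) w Fin.elim0) z) y := by
  have H := good_cf hu
  have hp : 0 < (cf u y).det := by rw [cf_det]; positivity
  rw [show divN dnrm (cf u) y Fin.elim0 = dvg (cf u) (dnrm (cf u)) y from rfl,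
    H.rho_dvg (mem_univ y) hp (isNatural_dnrm.smT H)]
  refine Finset.sum_congr rfl fun i _ => ?_
  congr 1
  ext z
  simp only [cf_inv, cf_rho, dnrm_eq, mul_ite, ite_mul, mul_one, mul_zero, zero_mul,
    Finset.sum_ite_eq, Finset.mem_univ, if_true]
  rw [← mul_assoc, ← Real.exp_add]
  congr 2; push_cast; ring

theorem green {f w a : E n → ℝ} {K : Set (E n)} (hf : ContDiff ℝ ∞ f) (hw : ContDiff ℝ ∞ w)
    (ha : ContDiff ℝ ∞ a) (hK : IsCompact K) (h0 : ∀ y, y ∉ K → a y = 0) :
    ∫ y, a y * ∑ i, pd i (fun z => w z * pd i f z) y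
      = ∫ y, f y * ∑ i, pd i (fun z => w z * pd i a z) y := by
  have h0' := pd_zero_of_supp hK.isClosed h0
  have h1 := integral_sum_pd_eq_zero (U := univ) (K := K)
    (f := fun i z => a z * (w z * pd i f z) - f z * (w z * pd i a z)) isOpen_univ
    (fun i => ((ha.mul (hw.mul (cd_pd hf i))).sub (hf.mul (hw.mul (cd_pd ha i)))).contDiffOn)
    hK (subset_univ _) (fun i y hy => by simp [h0 y hy, h0' i y hy])
  have i1 : Integrable fun y => a y * ∑ i, pd i (fun z => w z * pd i f z) y :=
    integrable_of_supp isOpen_univ (ha.mul (ContDiff.sum fun i _ =>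
      cd_pd (hw.mul (cd_pd hf i)) i)).contDiffOn hK (subset_univ _) fun y hy => by simp [h0 y hy]
  have i2 : Integrable fun y => f y * ∑ i, pd i (fun z => w z * pd i a z) y :=
    integrable_of_supp isOpen_univ (hf.mul (ContDiff.sum fun i _ =>
      cd_pd (hw.mul (cd_pd ha i)) i)).contDiffOn hK (subset_univ _) fun y hy => by
        rw [Finset.sum_eq_zero fun i _ => pd_zero_of_supp hK.isClosed
          (fun z hz => by simp [h0' i z hz]) i y hy, mul_zero]
  rw [← sub_eq_zero, ← integral_sub i1 i2, ← h1]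
  refine integral_congr_ae (Eventually.of_forall fun y => ?_)
  simp only [Finset.mul_sum, ← Finset.sum_sub_distrib]
  refine Finset.sum_congr rfl fun i _ => ?_
  rw [pd_sub (cd_dAt (ha.mul (hw.mul (cd_pd hf i))) y) (cd_dAt (hf.mul (hw.mul (cd_pd ha i))) y),
    pd_mul (cd_dAt ha y) (cd_dAt (hw.mul (cd_pd hf i)) y),
    pd_mul (cd_dAt hf y) (cd_dAt (hw.mul (cd_pd ha i)) y)]
  ring

theorem integral_S_cf {u a : E 6 → ℝ} {K : Set (E 6)} (hu : ContDiff ℝ ∞ u) (ha : ContDiff ℝ ∞ a)
    (hK : IsCompact K) (h0 : ∀ y, y ∉ K → a y = 0) :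
    ∫ y, a y * (rho (cf u) y * divN dnrm (cf u) y Fin.elim0)
      = ∫ y in K, pp u y * (lap a y + 4 * grad2 u a y) := by
  have hf : ContDiff ℝ ∞ fun w => nrm (cf u) w Fin.elim0 :=
    contDiffOn_univ.1 (isNatural_nrm.smT (good_cf hu) _)
  have h0' := pd_zero_of_supp hK.isClosed h0
  simp only [rho_S_cf hu]
  rw [green hf (w := fun z => Real.exp (4 * u z)) (by fun_prop) ha hK h0,
    setIntegral_eq_integral_of_forall_compl_eq_zero fun y hy => by
      simp [lap, grad2, h0' _ y hy, pd_zero_of_supp hK.isClosed (h0' _) _ y hy]]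
  refine integral_congr_ae (Eventually.of_forall fun y => ?_)
  have h1 : DifferentiableAt ℝ (fun z => 4 * u z) y := (cd_dAt hu y).const_mul 4
  simp only [nrm_cf hu, pd_mul h1.exp (cd_dAt (cd_pd ha _) y), pd_exp h1,
    pd_const_mul _ (cd_dAt hu y), Finset.sum_add_distrib, lap, grad2]
  have h2 : Real.exp (-(4 * u y)) * Real.exp (4 * u y) = 1 := by rw [← Real.exp_add]; simp
  have h3 : ∑ i, Real.exp (4 * u y) * (4 * pd i u y) * pd i a y
      = Real.exp (4 * u y) * (4 * ∑ i, pd i u y * pd i a y) := by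
    simp only [Finset.mul_sum]
    exact Finset.sum_congr rfl fun i _ => by ring
  rw [h3, ← Finset.mul_sum]
  linear_combination (pp u y * (∑ i, pd i (pd i a) y + 4 * ∑ i, pd i u y * pd i a y)) * h2

end Pool.Agent.Lib.MP_18eb12_gt
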