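import Mathlib
import Pool.Agent.Lib.MP_18eb12_gt.Flat

set_option autoImplicit false

noncomputable section

namespace Pool.Agent.Lib.MP_18eb12_gt

open scoped ContDiff Topology Matrix
open Set Filter MeasureTheory

variable {n : ℕ}

/-- the two-parameter family s a + t b -/
def fam (a b : E n → ℝ) (p : E 2) : E n → ℝ := fun y => lin (a y) (b y) p

variable {a b : E n → ℝ}

theorem cd_fam (ha : ContDiff ℝ ∞ a) (hb : ContDiff ℝ ∞ b) (p : E 2) : ContDiff ℝ ∞ (fam a b p) := by
  unfold fam lin; fun_prop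

theorem pd_fam (ha : ContDiff ℝ ∞ a) (hb : ContDiff ℝ ∞ b) (p : E 2) (k : Fin n) :
    pd k (fam a b p) = fam (pd k a) (pd k b) p := by
  ext y
  unfold fam lin
  rw [pd_add ((cd_dAt ha y).const_mul _) ((cd_dAt hb y).const_mul _), pd_const_mul _ (cd_dAt ha y),
    pd_const_mul _ (cd_dAt hb y)]

/-- linearized Ricci tensor -/
def lric (f : E n → ℝ) (y : E n) (j k : Fin n) : ℝ :=
  (2 - n) * pd j (pd k f) y - if j = k then lap f y else 0

theorem ric0_fam (ha : ContDiff ℝ ∞ a) (hb : ContDiff ℝ ∞ b) (p : E 2) (y : E n) (j k : Fin n) :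
    ric0 (fam a b p) y j k = lin (lric a y j k) (lric b y j k) p
      + ((n - 2) * (lin (pd j a y) (pd j b y) p * lin (pd k a y) (pd k b y) p)
        - (if j = k then (n - 2 : ℝ) else 0)
          * ∑ i, lin (pd i a y) (pd i b y) p * lin (pd i a y) (pd i b y) p) := by
  simp only [ric0, lap, grad2, pd_fam ha hb, pd_fam (cd_pd ha _) (cd_pd hb _), lric]
  simp only [fam, lin]
  split_ifs
  · simp only [Finset.sum_add_distrib, ← Finset.mul_sum]; ring
  · ring

theorem cd_lap {f : E n → ℝ} (hf : ContDiff ℝ ∞ f) : ContDiff ℝ ∞ (lap f) :=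
  ContDiff.sum fun i _ => cd_pd (cd_pd hf i) i

theorem cd_lric {f : E n → ℝ} (hf : ContDiff ℝ ∞ f) (j k : Fin n) :
    ContDiff ℝ ∞ fun y => lric f y j k := by
  unfold lric
  refine (contDiff_const.mul (cd_pd (cd_pd hf k) j)).sub ?_
  split_ifs
  · exact cd_lap hf
  · exact contDiff_const

theorem sep_ric0 (ha : ContDiff ℝ ∞ a) (hb : ContDiff ℝ ∞ b) (j k : Fin n) :
    Sep fun p y => ric0 (fam a b p) y j k := by
  have h : ∀ i, Sep fun p y => lin (pd i a y) (pd i b y) p :=
    fun i => Sep.lin (cd_pd ha i).continuous (cd_pd hb i).continuous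
  exact ((Sep.lin (cd_lric ha j k).continuous (cd_lric hb j k).continuous).add
    ((((h j).mul (h k)).smul _).sub ((Sep.sum _ fun i => (h i).mul (h i)).smul _))).congr
    fun p y => ric0_fam ha hb p y j k

theorem cd_ric0 (ha : ContDiff ℝ ∞ a) (hb : ContDiff ℝ ∞ b) (y : E n) (j k : Fin n) :
    ContDiff ℝ ∞ fun p => ric0 (fam a b p) y j k :=
  ((sep_ric0 ha hb j k).integral (volume : Measure (E n)) isCompact_empty 0).2.1 y

theorem pd_ric0 (ha : ContDiff ℝ ∞ a) (hb : ContDiff ℝ ∞ b) (y : E n) (j k : Fin n) (i : Fin 2) :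
    pd i (fun p => ric0 (fam a b p) y j k) 0 = ![lric a y j k, lric b y j k] i := by
  have d := fun x y => cd_lin x y
  have e : ∀ x y x' y' : ℝ, pd i (fun p => lin x y p * lin x' y' p) 0 = 0 := by
    intro x y x' y'
    rw [pd_mul (cd_dAt (d _ _) _) (cd_dAt (d _ _) _)]; simp
  have d2 : ∀ x y x' y' : ℝ, ContDiff ℝ ∞ fun p => lin x y p * lin x' y' p :=
    fun _ _ _ _ => (d _ _).mul (d _ _)
  have d3 : ContDiff ℝ ∞ fun p => ∑ i, lin (pd i a y) (pd i b y) p * lin (pd i a y) (pd i b y) p :=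
    ContDiff.sum fun i _ => d2 _ _ _ _
  simp only [ric0_fam ha hb]
  rw [pd_add (cd_dAt (d _ _) _) (cd_dAt ((contDiff_const.mul (d2 _ _ _ _)).sub
      (contDiff_const.mul d3)) _),
    pd_sub (cd_dAt (contDiff_const.mul (d2 _ _ _ _)) _) (cd_dAt (contDiff_const.mul d3) _),
    pd_const_mul _ (cd_dAt (d2 _ _ _ _) _), pd_const_mul _ (cd_dAt d3 _),
    pd_sum fun i _ => cd_dAt (d2 _ _ _ _) _, pd_lin]
  simp [e]

/-- the integrand of the variation -/
def itg (a b φ : E n → ℝ) (p : E 2) (y : E n) : ℝ :=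
  pp (fam a b p) y * (lap φ y + 4 * grad2 (fam a b p) φ y)

theorem sep_w (ha : ContDiff ℝ ∞ a) (hb : ContDiff ℝ ∞ b) {φ : E n → ℝ} (hφ : ContDiff ℝ ∞ φ) :
    Sep fun p y => lap φ y + 4 * grad2 (fam a b p) φ y := by
  refine ((Sep.const (cd_lap hφ).continuous).add (Sep.smul 4 (Sep.sum Finset.univ fun i =>
    (Sep.lin (cd_pd ha i).continuous (cd_pd hb i).continuous).mul
      (Sep.const (cd_pd hφ i).continuous)))).congr fun p y => ?_
  simp only [grad2, pd_fam ha hb, fam]

theorem sep_itg (ha : ContDiff ℝ ∞ a) (hb : ContDiff ℝ ∞ b) {φ : E n → ℝ} (hφ : ContDiff ℝ ∞ φ) :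
    Sep (itg a b φ) :=
  (Sep.sum Finset.univ fun j => Sep.sum Finset.univ fun k =>
    (sep_ric0 ha hb j k).mul (sep_ric0 ha hb j k)).mul (sep_w ha hb hφ)

theorem DD_itg (ha : ContDiff ℝ ∞ a) (hb : ContDiff ℝ ∞ b) {φ : E n → ℝ} (hφ : ContDiff ℝ ∞ φ)
    (y : E n) (i : Fin 2) :
    DD i (fun p => itg a b φ p y)
      = ∑ j, ∑ k, 2 * lric b y j k * ![lric a y j k, lric b y j k] i * lap φ y := by
  have hW := ((sep_w ha hb hφ).integral (volume : Measure (E n)) isCompact_empty 0).2.1 y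
  have hR := cd_ric0 ha hb y
  simp only [itg, pp, Finset.sum_mul]
  rw [DD_sum fun j => ContDiff.sum fun k _ => ((hR j k).mul (hR j k)).mul hW]
  refine Finset.sum_congr rfl fun j _ => ?_
  rw [DD_sum fun k => ((hR j k).mul (hR j k)).mul hW]
  refine Finset.sum_congr rfl fun k _ => ?_
  rw [DD_sq_mul (hR j k) hW (by simp [ric0_fam ha hb]), pd_ric0 ha hb, pd_ric0 ha hb]
  simp [grad2, pd_fam ha hb, fam]

/-- a harmonic cubic -/
def cub (y : E 6) : ℝ := y 0 * y 1 * y 2

theorem cd_cub : ContDiff ℝ ∞ cub := by unfold cub; fun_prop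

theorem pd_cub (k : Fin 6) : pd k cub = fun y => (if 0 = k then 1 else 0) * (y 1 * y 2)
    + (if 1 = k then 1 else 0) * (y 0 * y 2) + (if 2 = k then 1 else 0) * (y 0 * y 1) := by
  ext y
  unfold cub
  rw [pd_mul (by fun_prop) (by fun_prop), pd_mul (by fun_prop) (by fun_prop), pd_coord, pd_coord,
    pd_coord]
  ring

theorem pd_pd_cub (j k : Fin 6) (y : E 6) : pd j (pd k cub) y
    = (if 0 = k then 1 else 0) * ((if 1 = j then 1 else 0) * y 2 + y 1 * if 2 = j then 1 else 0)
    + (if 1 = k then 1 else 0) * ((if 0 = j then 1 else 0) * y 2 + y 0 * if 2 = j then 1 else 0)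
    + (if 2 = k then 1 else 0) * ((if 0 = j then 1 else 0) * y 1 + y 0 * if 1 = j then 1 else 0) := by
  rw [pd_cub, pd_add (by fun_prop) (by fun_prop), pd_add (by fun_prop) (by fun_prop),
    pd_const_mul _ (by fun_prop), pd_const_mul _ (by fun_prop), pd_const_mul _ (by fun_prop),
    pd_mul (by fun_prop) (by fun_prop), pd_mul (by fun_prop) (by fun_prop),
    pd_mul (by fun_prop) (by fun_prop), pd_coord, pd_coord, pd_coord]

theorem lap_cub (y : E 6) : lap cub y = 0 := by
  simp [lap, pd_pd_cub, Fin.sum_univ_six]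

/-- squared norm of the linearized Ricci tensor of the cubic -/
def sqc (y : E 6) : ℝ := 32 * (y 0 * y 0 + y 1 * y 1 + y 2 * y 2)

theorem cd_sqc : ContDiff ℝ ∞ sqc := by unfold sqc; fun_prop

theorem sum_lric_cub (y : E 6) : ∑ j, ∑ k, lric cub y j k * lric cub y j k = sqc y := by
  simp [lric, lap_cub, pd_pd_cub, Fin.sum_univ_six, sqc]
  ring

theorem lap_sqc (y : E 6) : lap sqc y = 192 := by
  have h1 : ∀ k : Fin 6, pd k sqc = fun y => 64 * ((if 0 = k then 1 else 0) * y 0
      + (if 1 = k then 1 else 0) * y 1 + (if 2 = k then 1 else 0) * y 2) := by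
    intro k
    ext y
    unfold sqc
    rw [pd_const_mul _ (by fun_prop), pd_add (by fun_prop) (by fun_prop),
      pd_add (by fun_prop) (by fun_prop), pd_mul (by fun_prop) (by fun_prop),
      pd_mul (by fun_prop) (by fun_prop), pd_mul (by fun_prop) (by fun_prop), pd_coord, pd_coord,
      pd_coord]
    ring
  have h2 : ∀ k : Fin 6, pd k (pd k sqc) y = 64 * ((if 0 = k then 1 else 0) * (if 0 = k then 1 else 0)
      + (if 1 = k then 1 else 0) * (if 1 = k then 1 else 0)
      + (if 2 = k then 1 else 0) * (if 2 = k then 1 else 0)) := by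
    intro k
    rw [h1, pd_const_mul _ (by fun_prop), pd_add (by fun_prop) (by fun_prop),
      pd_add (by fun_prop) (by fun_prop), pd_const_mul _ (by fun_prop), pd_const_mul _ (by fun_prop),
      pd_const_mul _ (by fun_prop), pd_coord, pd_coord, pd_coord]
  simp [lap, h2, Fin.sum_univ_six]
  norm_num

theorem pd_pd_congr {f g : E n → ℝ} {U : Set (E n)} (hU : IsOpen U) (h : ∀ z ∈ U, f z = g z)
    {y : E n} (hy : y ∈ U) (j k : Fin n) : pd j (pd k f) y = pd j (pd k g) y :=
  pd_congr_on hU hy fun _ hz => pd_congr_on hU hz h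

theorem lap_congr {f g : E n → ℝ} {U : Set (E n)} (hU : IsOpen U) (h : ∀ z ∈ U, f z = g z)
    {y : E n} (hy : y ∈ U) : lap f y = lap g y :=
  Finset.sum_congr rfl fun _ _ => pd_pd_congr hU h hy _ _

theorem lric_congr {f g : E n → ℝ} {U : Set (E n)} (hU : IsOpen U) (h : ∀ z ∈ U, f z = g z)
    {y : E n} (hy : y ∈ U) (j k : Fin n) : lric f y j k = lric g y j k := by
  rw [lric, lric, pd_pd_congr hU h hy, lap_congr hU h hy]

theorem key (c : E 6) {r : ℝ} (hr : 0 < r) :
    ∃ (a b : E 6 → ℝ) (K : Set (E 6)), ContDiff ℝ ∞ a ∧ ContDiff ℝ ∞ b ∧ IsCompact K ∧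
      K ⊆ Metric.ball c r ∧ (∀ y, y ∉ K → a y = 0) ∧ (∀ y, y ∉ K → b y = 0) ∧
      DD 1 (fun p => ∫ y in K, itg a b a p y) ≠ DD 0 (fun p => ∫ y in K, itg a b b p y) := by
  let α : ContDiffBump c := ⟨r / 8, r / 4, by positivity, by linarith⟩
  let β : ContDiffBump c := ⟨r / 2, 3 * r / 4, by positivity, by linarith⟩
  have ha : ContDiff ℝ ∞ α := α.contDiff
  have hb : ContDiff ℝ ∞ fun y => β y * cub y := β.contDiff.mul cd_cub
  have hK : IsCompact (Metric.closedBall c (3 * r / 4)) := isCompact_closedBall _ _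
  have hK' : IsCompact (Metric.closedBall c (r / 4)) := isCompact_closedBall _ _
  have a0 : ∀ y, y ∉ Metric.closedBall c (r / 4) → α y = 0 := fun y hy =>
    α.zero_of_le_dist (by simp at hy; exact hy.le)
  have hsub : Metric.closedBall c (r / 4) ⊆ Metric.closedBall c (3 * r / 4) :=
    Metric.closedBall_subset_closedBall (by linarith)
  have hsub' : Metric.closedBall c (r / 4) ⊆ Metric.ball c (r / 2) :=
    Metric.closedBall_subset_ball (by linarith)
  have b1 : ∀ y ∈ Metric.ball c (r / 2), β y * cub y = cub y := fun y hy => by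
    rw [β.one_of_mem_closedBall (Metric.ball_subset_closedBall hy), one_mul]
  have a2 : ∀ y, y ∉ Metric.closedBall c (r / 4) → ∀ j k, pd j (pd k α) y = 0 := fun y hy j k =>
    pd_zero_of_supp hK'.isClosed (pd_zero_of_supp hK'.isClosed a0 k) j y hy
  refine ⟨α, fun y => β y * cub y, Metric.closedBall c (3 * r / 4), ha, hb, hK,
    Metric.closedBall_subset_ball (by linarith), fun y hy => a0 y fun h => hy (hsub h),
    fun y hy => ?_, ?_⟩
  · have : β y = 0 := β.zero_of_le_dist (by simp at hy; exact hy.le)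
    simp [this]
  rw [((sep_itg ha hb ha).integral volume hK 1).2.2.2.2,
    ((sep_itg ha hb hb).integral volume hK 0).2.2.2.2]
  simp only [DD_itg ha hb ha, DD_itg ha hb hb]
  have e1 : ∀ y, ∑ j, ∑ k, 2 * lric (fun y => β y * cub y) y j k
      * ![lric α y j k, lric (fun y => β y * cub y) y j k] 0 * lap (fun y => β y * cub y) y = 0 := by
    intro y
    by_cases hy : y ∈ Metric.closedBall c (r / 4)
    · simp [lap_congr Metric.isOpen_ball b1 (hsub' hy), lap_cub]
    · simp [lric, lap, a2 y hy]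
  have e2 : ∀ y, ∑ j, ∑ k, 2 * lric (fun y => β y * cub y) y j k
      * ![lric α y j k, lric (fun y => β y * cub y) y j k] 1 * lap α y = 2 * (sqc y * lap α y) := by
    intro y
    by_cases hy : y ∈ Metric.closedBall c (r / 4)
    · simp only [lric_congr Metric.isOpen_ball b1 (hsub' hy), ← sum_lric_cub, Finset.sum_mul,
        Finset.mul_sum, Matrix.cons_val_one, Matrix.cons_val_zero]
      exact Finset.sum_congr rfl fun j _ => Finset.sum_congr rfl fun k _ => by ring
    · simp [lap, a2 y hy]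
  simp only [e1, e2, integral_zero]
  rw [setIntegral_eq_integral_of_forall_compl_eq_zero fun y hy => by
    simp [lap, a2 y fun h => hy (hsub h)], integral_const_mul]
  have g1 := green (w := fun _ => 1) cd_sqc contDiff_const ha hK' a0
  simp only [one_mul] at g1
  have g2 : ∫ y, sqc y * lap α y = ∫ y, α y * lap sqc y := g1.symm
  simp only [g2, lap_sqc, integral_mul_const]
  have := α.integral_pos (μ := volume)
  positivity

end Pool.Agent.Lib.MP_18eb12_gt
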