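import Mathlib
import Pool.Agent.Lib.MP_18eb12_gt.Key
import Pool.Agent.Lib.MP_18eb12_gt.Conf

set_option autoImplicit false

noncomputable section

namespace Pool.Agent.Lib.MP_18eb12_gt

open scoped ContDiff Topology Matrix Manifold
open Set Filter MeasureTheory

section Lift

variable {n : ℕ} {M : Type} [TopologicalSpace M] [T2Space M] [ChartedSpace (E n) M]
  [IsManifold 𝓘(ℝ, E n) ∞ M]

theorem exists_lift (x₀ : M) {f : E n → ℝ} {K : Set (E n)} (hf : ContDiff ℝ ∞ f) (hK : IsCompact K)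
    (hKt : K ⊆ (chartAt (E n) x₀).target) (h0 : ∀ y, y ∉ K → f y = 0) :
    ∃ F : Smooth (E n) M, (∀ p, p ∉ (chartAt (E n) x₀).source → F p = 0) ∧
      ∀ y ∈ (chartAt (E n) x₀).target, F ((chartAt (E n) x₀).symm y) = f y := by
  set e := chartAt (E n) x₀ with he
  have hc : IsClosed (e.symm '' K) :=
    (hK.image_of_continuousOn (e.continuousOn_symm.mono hKt)).isClosed
  refine ⟨⟨e.source.indicator fun p => f (e p), fun p => ?_⟩, 
    fun p hp => indicator_of_notMem hp fun p => f (e p), fun y hy => ?_⟩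
  · by_cases hp : p ∈ e.source
    · have h1 : ContMDiffOn 𝓘(ℝ, E n) 𝓘(ℝ, ℝ) ∞ (fun p => f (e p)) e.source :=
        hf.contMDiff.comp_contMDiffOn contMDiffOn_chart
      exact (h1.congr fun q hq => indicator_of_mem hq _).contMDiffAt (e.open_source.mem_nhds hp)
    · have h2 : p ∉ e.symm '' K := by
        rintro ⟨y, hy, rfl⟩; exact hp (e.map_target (hKt hy))
      refine (contMDiffAt_const (c := (0 : ℝ))).congr_of_eventuallyEq
        (eventually_of_mem (hc.isOpen_compl.mem_nhds h2) fun q hq => ?_)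
      by_cases hq' : q ∈ e.source
      · rw [indicator_of_mem hq']
        exact h0 _ fun h => hq ⟨_, h, e.left_inv hq'⟩
      · exact indicator_of_notMem hq' _
  · change e.source.indicator (fun p => f (e p)) (e.symm y) = f y
    rw [indicator_of_mem (e.map_target hy), e.right_inv hy]

end Lift

variable {M : Type} [TopologicalSpace M] [CompactSpace M] [ChartedSpace (E 6) M]
  [IsManifold 𝓘(ℝ, E 6) ∞ M] [MeasurableSpace M] [BorelSpace M]

theorem integral_S {g : RMetric (E 6) M} {x₀ : M} {U K : Set (E 6)} {u φ : E 6 → ℝ}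
    (hU : IsOpen U) (hUt : U ⊆ (chartAt (E 6) x₀).target) (hK : IsCompact K) (hKU : K ⊆ U)
    (hu : ContDiff ℝ ∞ u) (hφ : ContDiff ℝ ∞ φ) (h0 : ∀ y, y ∉ K → φ y = 0)
    (hg : ∀ y ∈ U, coord g x₀ y = cf u y) {Φ : Smooth (E 6) M}
    (hΦ0 : ∀ p, p ∉ (chartAt (E 6) x₀).source → Φ p = 0)
    (hΦ : ∀ y ∈ (chartAt (E 6) x₀).target, Φ ((chartAt (E 6) x₀).symm y) = φ y) :
    ∫ p, Φ p * onM (divN dnrm) g p ∂vol g = ∫ y in K, pp u y * (lap φ y + 4 * grad2 u φ y) := by
  have hS := isNatural_dnrm (n := 6).divN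
  rw [integral_vol g x₀ (Φ.contMDiff.continuous.fun_mul (contMDiff_onM hS g).continuous)
    fun p hp => by rw [hΦ0 p hp, zero_mul], ← integral_S_cf hu hφ hK h0,
    ← setIntegral_eq_integral_of_forall_compl_eq_zero (s := (chartAt (E 6) x₀).target)
      (f := fun y => φ y * (rho (cf u) y * divN dnrm (cf u) y Fin.elim0))
      fun y hy => by rw [h0 y fun h => hy (hUt (hKU h)), zero_mul]]
  refine setIntegral_congr_fun (chartAt (E 6) x₀).open_target.measurableSet fun y hy => ?_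
  rw [hΦ y hy]
  by_cases hyK : y ∈ K
  · rw [onM_eq hS g ((chartAt (E 6) x₀).map_target hy), (chartAt (E 6) x₀).right_inv hy,
      hS.local_eq ((good_cf hu).mono hU (subset_univ _)) hg (hKU hyK), rho, rho, hg y (hKU hyK)]
    ring
  · rw [h0 y hyK]; ring

theorem integral_QL {g₀ : RMetric (E 6) M} {x₀ : M} {c : ℝ} {Q L : Met 6 → Ten 6 0}
    (hQ : IsNatural 6 0 Q) (hL : IsNatural 6 0 L) (hQl : QLaw 6 (onM (M := M) Q))
    (hLl : LocalConfInv 6 (onM (M := M) L)) (A B Φ : Smooth (E 6) M)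
    (hΦ0 : ∀ p, p ∉ (chartAt (E 6) x₀).source → Φ p = 0) :
    ∃ k α β : ℝ, ∀ p : E 2, ∫ x, Φ x * (c * onM Q (conf g₀ (p 0 • A + p 1 • B)) x
      + onM L (conf g₀ (p 0 • A + p 1 • B)) x) ∂vol (conf g₀ (p 0 • A + p 1 • B))
        = k + lin α β p := by
  obtain ⟨P, hP⟩ := hQl g₀
  have cQ := fun g : RMetric (E 6) M => (contMDiff_onM hQ g).continuous
  have cL := fun g : RMetric (E 6) M => (contMDiff_onM hL g).continuous
  have cΦ := Φ.contMDiff.continuous
  have cP : ∀ w : Smooth (E 6) M, Continuous (P w) := by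
    intro w
    have h1 : P w = fun x => Real.exp ((6 : ℕ) * w x) * onM Q (conf g₀ w) x - onM Q g₀ x :=
      funext fun x => by rw [hP _ w (isConf_conf g₀ w) x]; ring
    have h2 := w.contMDiff.continuous
    rw [h1]
    exact (Real.continuous_exp.comp (continuous_const.mul h2)).mul (cQ _) |>.sub (cQ _)
  refine ⟨∫ x, Φ x * (c * onM Q g₀ x + onM L g₀ x) ∂vol g₀, ∫ x, Φ x * (c * P A x) ∂vol g₀,
    ∫ x, Φ x * (c * P B x) ∂vol g₀, fun p => ?_⟩
  have i1 := integrable_vol g₀
    (cΦ.fun_mul ((continuous_const (y := c).fun_mul (cQ g₀)).fun_add (cL g₀)))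
  have i2 := integrable_vol g₀ (cΦ.fun_mul (continuous_const (y := c).fun_mul (cP A)))
  have i3 := integrable_vol g₀ (cΦ.fun_mul (continuous_const (y := c).fun_mul (cP B)))
  have i4 : Integrable (fun x => p 0 * (Φ x * (c * P A x)) + p 1 * (Φ x * (c * P B x))) (vol g₀) :=
    (i2.const_mul _).add (i3.const_mul _)
  rw [(isConf_conf g₀ _).integral (p 0 • A + p 1 • B).contMDiff.continuous x₀
    (cΦ.fun_mul ((continuous_const.fun_mul (cQ _)).fun_add (cL _))) fun p hp => by rw [hΦ0 p hp, zero_mul],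
    lin, ← integral_const_mul, ← integral_const_mul,
    ← integral_add (i2.const_mul _) (i3.const_mul _),
    ← integral_add i1 i4]
  refine integral_congr_ae (Eventually.of_forall fun x => ?_)
  have h1 := hP _ _ (isConf_conf g₀ (p 0 • A + p 1 • B)) x
  have h2 := hLl _ _ _ (isConf_conf g₀ (p 0 • A + p 1 • B)) x
  rw [map_add, map_smul, map_smul] at h1
  simp only [Pi.add_apply, Pi.smul_apply, smul_eq_mul] at h1
  dsimp only
  linear_combination (Φ x * c) * h1 + Φ x * h2

theorem no_decomposition [T2Space M] [Nonempty M] (c : ℝ) {Q L G : Met 6 → Ten 6 0}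
    (F : RMetric (E 6) M → M → ℝ)
    (hQ : IsNatural 6 0 Q) (hL : IsNatural 6 0 L) (hQl : QLaw 6 (onM (M := M) Q))
    (hLl : LocalConfInv 6 (onM (M := M) L)) (hF : IsPrimitive vol F (onM G)) :
    ¬ ∀ (g : RMetric (E 6) M) (x : M),
      onM (divN dnrm) g x = c * onM Q g x + onM L g x + onM G g x := by
  intro hdec
  obtain ⟨x₀⟩ := ‹Nonempty M›
  obtain ⟨g₀, r, hr, hrt, hg₀⟩ := exists_flat (n := 6) x₀
  obtain ⟨a, b, K, ha, hb, hK, hKr, ha0, hb0, hne⟩ := key (chartAt (E 6) x₀ x₀) hr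
  have hUt : Metric.ball (chartAt (E 6) x₀ x₀) r ⊆ (chartAt (E 6) x₀).target :=
    Metric.ball_subset_closedBall.trans hrt
  obtain ⟨A, hA0, hA⟩ := exists_lift x₀ ha hK (hKr.trans hUt) ha0
  obtain ⟨B, hB0, hB⟩ := exists_lift x₀ hb hK (hKr.trans hUt) hb0
  let g : E 2 → RMetric (E 6) M := fun p => conf g₀ (p 0 • A + p 1 • B)
  have hw : ∀ (s t : ℝ) (x : M), (s • A + t • B) x = s * A x + t * B x := fun _ _ _ => rfl
  have hg : ∀ p, ∀ y ∈ Metric.ball (chartAt (E 6) x₀ x₀) r, coord (g p) x₀ y = cf (fam a b p) y := by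
    intro p y hy
    rw [(isConf_conf g₀ _).coord, hg₀ y (Metric.ball_subset_closedBall hy), hw, hA y (hUt hy),
      hB y (hUt hy)]
    rfl
  have hS := isNatural_dnrm (n := 6).divN
  have var : ∀ (φ : E 6 → ℝ) (Φ : Smooth (E 6) M), ContDiff ℝ ∞ φ → (∀ y, y ∉ K → φ y = 0) →
      (∀ p, p ∉ (chartAt (E 6) x₀).source → Φ p = 0) →
      (∀ y ∈ (chartAt (E 6) x₀).target, Φ ((chartAt (E 6) x₀).symm y) = φ y) →
      ∃ k α β : ℝ, ∀ p, ∫ x, Φ x * onM G (g p) x ∂vol (g p)
        = (∫ y in K, itg a b φ p y) + (k + lin α β p) := by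
    intro φ Φ hφ h0 hΦ0 hΦ
    obtain ⟨k, α, β, h⟩ := integral_QL (g₀ := g₀) (c := c) hQ hL hQl hLl A B Φ hΦ0
    refine ⟨-k, -α, -β, fun p => ?_⟩
    have h1 := integral_S Metric.isOpen_ball hUt hK hKr (cd_fam ha hb p) hφ h0 (hg p) hΦ0 hΦ
    have cΦ := Φ.contMDiff.continuous
    have h2 := integral_sub (integrable_vol (g p) (cΦ.fun_mul (contMDiff_onM hS (g p)).continuous))
      (integrable_vol (g p) (cΦ.fun_mul ((continuous_const (y := c).fun_mul
        (contMDiff_onM hQ (g p)).continuous).fun_add (contMDiff_onM hL (g p)).continuous)))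
    have h3 : ∫ x, Φ x * onM G (g p) x ∂vol (g p) = ∫ x, (Φ x * onM (divN dnrm) (g p) x
        - Φ x * (c * onM Q (g p) x + onM L (g p) x)) ∂vol (g p) :=
      integral_congr_ae (Eventually.of_forall fun x => by dsimp only; rw [hdec]; ring)
    rw [h3, h2, h1, h p]
    simp only [itg, lin]
    ring
  obtain ⟨k₁, α₁, β₁, hA'⟩ := var a A ha ha0 hA0 hA
  obtain ⟨k₂, α₂, β₂, hB'⟩ := var b B hb hb0 hB0 hB
  have sA := ((sep_itg ha hb ha).integral volume hK 0).2.2.2.1
  have sB := ((sep_itg ha hb hb).integral volume hK 0).2.2.2.1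
  have cA := sA.add ((contDiff_const (c := k₁)).add (cd_lin α₁ β₁))
  have cB := sB.add ((contDiff_const (c := k₂)).add (cd_lin α₂ β₂))
  have cl := clairaut (fun s t => ∫ x, F (g ![s, t]) x ∂vol (g ![s, t])) cA cB (fun s t => ?_)
    (fun s t => ?_)
  · have h1 : DD 1 (fun p => (∫ y in K, itg a b a p y) + (k₁ + lin α₁ β₁ p))
        = DD 0 (fun p => (∫ y in K, itg a b b p y) + (k₂ + lin α₂ β₂ p)) := by
      rw [DD, DD, funext cl]
    rw [DD_add sA ((contDiff_const (c := k₁)).add (cd_lin α₁ β₁)),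
      DD_add sB ((contDiff_const (c := k₂)).add (cd_lin α₂ β₂)), DD_affine, DD_affine, add_zero,
      add_zero] at h1
    exact hne h1
  · have h1 := hF (g ![s, t]) A (fun ε => g ![s + ε, t]) fun ε x u v => by
      simp only [g, gval_conf, hw, Matrix.cons_val_zero, Matrix.cons_val_one]
      rw [← mul_assoc, ← Real.exp_add]
      congr 2; ring
    rw [hA'] at h1
    have h2 := HasDerivAt.comp_sub_const s s (by rw [sub_self]; exact h1)
    simpa only [add_sub_cancel] using h2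
  · have h1 := hF (g ![s, t]) B (fun ε => g ![s, t + ε]) fun ε x u v => by
      simp only [g, gval_conf, hw, Matrix.cons_val_zero, Matrix.cons_val_one]
      rw [← mul_assoc, ← Real.exp_add]
      congr 2; ring
    rw [hB'] at h1
    have h2 := HasDerivAt.comp_sub_const t t (by rw [sub_self]; exact h1)
    simpa only [add_sub_cancel] using h2

theorem confInv_divN [T2Space M] {X : Met 6 → Ten 6 1} (hX : IsNatural 6 1 X) :
    ConfInvIntegral vol (onM (M := M) (divN X)) := by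
  intro g g' _ _
  rw [integral_divN hX, integral_divN hX]

end Pool.Agent.Lib.MP_18eb12_gt
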