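import Mathlib
import Pool.Agent.Lib.MP_18eb12_gt.Final

set_option autoImplicit false

noncomputable section

namespace Pool.Agent.Lib.MP_18eb12_gt

open scoped ContDiff Topology Manifold
open Set

/-- Ricci tensor Ric_ij = g^ab R_aijb -/
def ricci (g : Met 6) (y : E 6) (i j : Fin 6) : ℝ :=
  ∑ a, ∑ b, (g y)⁻¹ a b * riem g y ![a, i, j, b]

/-- the scalar |Ric|^2 = g^ac g^bd Ric_ab Ric_cd -/
def ricciSq (g : Met 6) : Ten 6 0 := fun y _ =>
  ∑ a, ∑ b, ∑ c, ∑ d, (g y)⁻¹ a c * (g y)⁻¹ b d * (ricci g y a b * ricci g y c d)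

/-- the scalar Δ|Ric|^2 = g^ij ∇_i ∇_j |Ric|^2 -/
def lapRicciSq (g : Met 6) : Ten 6 0 := contr g (cov g (cov g (ricciSq g)))

theorem ricci_eq (g : Met 6) (y : E 6) (i j : Fin 6) : ricci g y i j = ric g y ![i, j] := by
  simp only [ricci, ric, contr, perm_ric, Matrix.cons_val_zero, Matrix.cons_val_one]

theorem ricciSq_eq (g : Met 6) : ricciSq g = nrm g := by
  funext y I
  rw [nrm_eq]
  simp only [ricciSq, ricci_eq, Finset.mul_sum]
  rw [Finset.sum_comm]
  refine Finset.sum_congr rfl fun b _ => ?_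
  simp only [Finset.sum_comm (s := Finset.univ) (t := Finset.univ)
    (f := fun c d => (g y)⁻¹ _ c * (g y)⁻¹ b d * (ric g y ![_, b] * ric g y ![c, d]))]
  rw [Finset.sum_comm]
  refine Finset.sum_congr rfl fun d _ => Finset.sum_congr rfl fun a _ =>
    Finset.sum_congr rfl fun c _ => ?_
  ring

theorem lapRicciSq_eq : lapRicciSq = divN dnrm := by
  funext g
  rw [lapRicciSq, ricciSq_eq, divN, dnrm]

theorem exists_closed : ∃ (M : Type) (_ : TopologicalSpace M) (_ : ChartedSpace (E 6) M),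
    T2Space M ∧ CompactSpace M ∧ IsManifold 𝓘(ℝ, E 6) ∞ M ∧ Nonempty M := by
  have : Fact (Module.finrank ℝ (EuclideanSpace ℝ (Fin 7)) = 6 + 1) := ⟨by simp⟩
  let S := Metric.sphere (0 : EuclideanSpace ℝ (Fin 7)) 1
  let L : EuclideanSpace ℝ (Fin 6) ≃L[ℝ] E 6 := EuclideanSpace.equiv (Fin 6) ℝ
  let C : ChartedSpace (E 6) S :=
    { atlas := (fun e => e.transHomeomorph L.toHomeomorph) '' atlas (EuclideanSpace ℝ (Fin 6)) S
      chartAt := fun x => (chartAt (EuclideanSpace ℝ (Fin 6)) x).transHomeomorph L.toHomeomorph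
      mem_chart_source := fun x => mem_chart_source (EuclideanSpace ℝ (Fin 6)) x
      chart_mem_atlas := fun x => ⟨_, chart_mem_atlas _ x, rfl⟩ }
  refine ⟨S, inferInstance, C, inferInstance, inferInstance, ?_,
    (NormedSpace.sphere_nonempty.2 zero_le_one).to_subtype⟩
  apply isManifold_of_contDiffOn
  rintro _ _ ⟨e, he, rfl⟩ ⟨e', he', rfl⟩
  have h := (contDiffGroupoid ∞ (𝓡 6)).compatible he he'
  have h1 : ContDiffOn ℝ ∞ (e.symm ≫ₕ e') (e.symm ≫ₕ e').source := by
    simpa [contDiffPregroupoid] using (mem_groupoid_of_pregroupoid.1 h).1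
  have h2 := L.contDiff.comp_contDiffOn (h1.comp (s := L.symm ⁻¹' (e.symm ≫ₕ e').source)
    L.symm.contDiff.contDiffOn fun _ hx => hx)
  simpa [Function.comp_assoc, preimage_comp] using h2

end Pool.Agent.Lib.MP_18eb12_gt
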