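import Mathlib
import Pool.Agent.Lib.MP_18eb12_gt.Key

set_option autoImplicit false

noncomputable section

namespace Pool.Agent.Lib.MP_18eb12_gt

open scoped ContDiff Topology Matrix
open Set Filter MeasureTheory

variable {n : ℕ}

/-- Ricci tensor Ric_ij = g^ab R_aijb in dimension n -/
def ricciN (g : Met n) (y : E n) (i j : Fin n) : ℝ :=
  ∑ a, ∑ b, (g y)⁻¹ a b * riem g y ![a, i, j, b]

/-- the scalar |Ric|^2 = g^ac g^bd Ric_ab Ric_cd in dimension n -/
def ricciSqN (g : Met n) : Ten n 0 := fun y _ =>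
  ∑ a, ∑ b, ∑ c, ∑ d, (g y)⁻¹ a c * (g y)⁻¹ b d * (ricciN g y a b * ricciN g y c d)

/-- Laplace-Beltrami operator on scalars, Δ s = g^ij ∇_i ∇_j s -/
def lapN (g : Met n) (s : Ten n 0) : Ten n 0 := contr g (cov g (cov g s))

/-- the scalar Δ^k |Ric|^2 -/
def lapPowRicciSq (k : ℕ) (g : Met n) : Ten n 0 := (lapN g)^[k] (ricciSqN g)

theorem ricciN_eq (g : Met n) (y : E n) (i j : Fin n) : ricciN g y i j = ric g y ![i, j] := by
  simp only [ricciN, ric, contr, perm_ric, Matrix.cons_val_zero, Matrix.cons_val_one]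

theorem ricciSqN_eq (g : Met n) : ricciSqN g = nrm g := by
  funext y I
  rw [nrm_eq]
  simp only [ricciSqN, ricciN_eq, Finset.mul_sum]
  rw [Finset.sum_comm]
  refine Finset.sum_congr rfl fun b _ => ?_
  simp only [Finset.sum_comm (s := Finset.univ) (t := Finset.univ)
    (f := fun c d => (g y)⁻¹ _ c * (g y)⁻¹ b d * (ric g y ![_, b] * ric g y ![c, d]))]
  rw [Finset.sum_comm]
  refine Finset.sum_congr rfl fun d _ => Finset.sum_congr rfl fun a _ =>
    Finset.sum_congr rfl fun c _ => ?_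
  ring

theorem lapPow_zero : lapPowRicciSq (n := n) 0 = nrm := funext fun g => ricciSqN_eq g

theorem lapPow_succ (k : ℕ) :
    lapPowRicciSq (n := n) (k + 1) = divN fun g => cov (k := 0) g (lapPowRicciSq k g) := by
  funext g
  rw [lapPowRicciSq, Function.iterate_succ_apply']
  rfl

theorem isNatural_lapPow (k : ℕ) : IsNatural n 0 (lapPowRicciSq k) := by
  induction k with
  | zero => rw [lapPow_zero]; exact isNatural_nrm
  | succ k ih => rw [lapPow_succ]; exact (IsNatural.ofCov ih).divN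

/-- Laplacian of the conformally flat metric exp(2u) δ -/
def Lc (u f : E n → ℝ) (y : E n) : ℝ :=
  Real.exp (-(n * u y)) * ∑ i, pd i (fun z => Real.exp ((n - 2) * u z) * pd i f z) y

variable {u f a : E n → ℝ} {K : Set (E n)}

theorem cd_Lc (hu : ContDiff ℝ ∞ u) (hf : ContDiff ℝ ∞ f) : ContDiff ℝ ∞ (Lc u f) := by
  have h1 : ContDiff ℝ ∞ fun z => Real.exp ((n - 2) * u z) := by fun_prop
  have h2 : ContDiff ℝ ∞ fun z => Real.exp (-(n * u z)) := by fun_prop
  exact h2.mul (ContDiff.sum fun i _ => cd_pd (h1.mul (cd_pd hf i)) i)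

theorem Lc_supp (hK : IsClosed K) (h0 : ∀ y, y ∉ K → f y = 0) (y : E n) (hy : y ∉ K) :
    Lc u f y = 0 := by
  have h0' := pd_zero_of_supp hK h0
  rw [Lc, Finset.sum_eq_zero fun i _ => pd_zero_of_supp hK
    (fun z hz => by simp [h0' i z hz]) i y hy, mul_zero]

theorem cd_Lc_iter (hu : ContDiff ℝ ∞ u) (hf : ContDiff ℝ ∞ f) (k : ℕ) :
    ContDiff ℝ ∞ ((Lc u)^[k] f) := by
  induction k with
  | zero => exact hf
  | succ k ih => rw [Function.iterate_succ_apply']; exact cd_Lc hu ih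

theorem Lc_iter_supp (hK : IsClosed K) (h0 : ∀ y, y ∉ K → f y = 0) (k : ℕ) :
    ∀ y, y ∉ K → (Lc u)^[k] f y = 0 := by
  induction k with
  | zero => exact h0
  | succ k ih => rw [Function.iterate_succ_apply']; exact Lc_supp hK ih

theorem lapN_cf (hu : ContDiff ℝ ∞ u) {T : Ten n 0}
    (hT : ContDiff ℝ ∞ fun z => T z Fin.elim0) (y : E n) :
    lapN (cf u) T y Fin.elim0 = Lc u (fun z => T z Fin.elim0) y := by
  have H := good_cf hu
  have hp : 0 < (cf u y).det := by rw [cf_det]; positivity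
  have hT' : SmT univ T := fun I => by
    rw [Subsingleton.elim I Fin.elim0]; exact hT.contDiffOn
  have h1 := H.rho_dvg (mem_univ y) hp (H.cov hT')
  have h2 : ∑ i, pd i (fun z => rho (cf u) z * ∑ j, (cf u z)⁻¹ i j
      * cov (k := 0) (cf u) T z fun _ => j) y
      = ∑ i, pd i (fun z => Real.exp ((n - 2) * u z) * pd i (fun w => T w Fin.elim0) z) y := by
    refine Finset.sum_congr rfl fun i _ => ?_
    congr 1
    ext z
    simp only [cf_inv, cf_rho, cov_zero, mul_ite, ite_mul, mul_one, mul_zero, zero_mul,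
      Finset.sum_ite_eq, Finset.mem_univ, if_true]
    rw [← mul_assoc, ← Real.exp_add]
    congr 2; ring
  rw [h2, cf_rho] at h1
  rw [Lc, ← h1, ← mul_assoc, ← Real.exp_add, neg_add_cancel, Real.exp_zero, one_mul]
  rfl

theorem lapPow_cf (hu : ContDiff ℝ ∞ u) (k : ℕ) :
    (fun y => lapPowRicciSq k (cf u) y Fin.elim0)
      = (Lc u)^[k] fun z => nrm (cf u) z Fin.elim0 := by
  induction k with
  | zero => rw [lapPow_zero]; rfl
  | succ k ih =>
    have hT : ContDiff ℝ ∞ fun z => lapPowRicciSq k (cf u) z Fin.elim0 :=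
      contDiffOn_univ.1 ((isNatural_lapPow k).smT (good_cf hu) _)
    funext y
    rw [Function.iterate_succ_apply', ← ih, ← lapN_cf hu hT, lapPowRicciSq,
      Function.iterate_succ_apply']
    rfl

theorem exp_mul_Lc (u f : E n → ℝ) (y : E n) :
    Real.exp (n * u y) * Lc u f y
      = ∑ i, pd i (fun z => Real.exp ((n - 2) * u z) * pd i f z) y := by
  rw [Lc, ← mul_assoc, ← Real.exp_add, add_neg_cancel, Real.exp_zero, one_mul]

theorem green_Lc (hu : ContDiff ℝ ∞ u) (hf : ContDiff ℝ ∞ f) (ha : ContDiff ℝ ∞ a)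
    (hK : IsCompact K) (h0 : ∀ y, y ∉ K → a y = 0) :
    ∫ y, a y * (Real.exp (n * u y) * Lc u f y) = ∫ y, f y * (Real.exp (n * u y) * Lc u a y) := by
  simp only [exp_mul_Lc]
  exact green hf (by fun_prop) ha hK h0

theorem green_iter (hu : ContDiff ℝ ∞ u) (hf : ContDiff ℝ ∞ f) (hK : IsCompact K) (k : ℕ) :
    ∀ a : E n → ℝ, ContDiff ℝ ∞ a → (∀ y, y ∉ K → a y = 0) →
      ∫ y, a y * (Real.exp (n * u y) * (Lc u)^[k] f y)
        = ∫ y, f y * (Real.exp (n * u y) * (Lc u)^[k] a y) := by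
  induction k with
  | zero =>
    intro a _ _
    exact integral_congr_ae (Eventually.of_forall fun y => by simp only [Function.iterate_zero, id]; ring)
  | succ k ih =>
    intro a ha h0
    rw [Function.iterate_succ_apply', green_Lc hu (cd_Lc_iter hu hf k) ha hK h0,
      Function.iterate_succ_apply, ← ih _ (cd_Lc hu ha) (Lc_supp hK.isClosed h0)]
    exact integral_congr_ae (Eventually.of_forall fun y => by dsimp only; ring)

/-- the conjugated operator exp((m+2)u) Δ_g exp(-mu) -/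
def Tm (m : ℝ) (u ψ : E n → ℝ) (y : E n) : ℝ :=
  lap ψ y + (n - 2 - 2 * m) * grad2 u ψ y
    + ((m * m - (n - 2) * m) * grad2 u u y - m * lap u y) * ψ y

theorem Lc_exp (hu : ContDiff ℝ ∞ u) (hf : ContDiff ℝ ∞ f) (m : ℝ) (y : E n) :
    Lc u (fun z => Real.exp (-(m * u z)) * f z) y = Real.exp (-((m + 2) * u y)) * Tm m u f y := by
  have du := cd_dAt hu
  have df := cd_dAt hf
  have e1 : ∀ i, (fun z => Real.exp ((n - 2) * u z)
      * pd i (fun z => Real.exp (-(m * u z)) * f z) z)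
      = fun z => Real.exp ((n - 2 - m) * u z) * (pd i f z - m * (pd i u z * f z)) := by
    intro i
    funext z
    have h1 : DifferentiableAt ℝ (fun z => -(m * u z)) z := ((du z).const_mul m).neg
    rw [pd_mul h1.exp (df z), pd_exp h1, pd_neg, pd_const_mul _ (du z)]
    have h2 : Real.exp ((n - 2 - m) * u z) = Real.exp ((n - 2) * u z) * Real.exp (-(m * u z)) := by
      rw [← Real.exp_add]; congr 1; ring
    rw [h2]; ring
  have e2 : ∀ i, pd i (fun z => Real.exp ((n - 2 - m) * u z)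
      * (pd i f z - m * (pd i u z * f z))) y
      = Real.exp ((n - 2 - m) * u y) * (pd i (pd i f) y + (n - 2 - 2 * m) * (pd i u y * pd i f y)
        + ((m * m - (n - 2) * m) * (pd i u y * pd i u y) - m * pd i (pd i u) y) * f y) := by
    intro i
    have h1 : DifferentiableAt ℝ (fun z => (n - 2 - m) * u z) y := (du y).const_mul _
    have h2 := cd_dAt (cd_pd hf i) y
    have h3 := cd_dAt (cd_pd hu i) y
    have h4 : DifferentiableAt ℝ (fun z => pd i u z * f z) y := h3.fun_mul (df y)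
    rw [pd_mul h1.exp (h2.fun_sub (h4.const_mul m)), pd_exp h1, pd_const_mul _ (du y),
      pd_sub h2 (h4.const_mul m), pd_const_mul _ h4, pd_mul h3 (df y)]
    ring
  have h2 : Real.exp (-((m + 2) * u y)) = Real.exp (-(n * u y)) * Real.exp ((n - 2 - m) * u y) := by
    rw [← Real.exp_add]; congr 1; ring
  rw [Lc, h2, mul_assoc]
  simp only [e1, e2, ← Finset.mul_sum, Finset.sum_add_distrib, ← Finset.sum_mul,
    Finset.sum_sub_distrib]
  rfl

theorem cd_grad2 (hu : ContDiff ℝ ∞ u) (hf : ContDiff ℝ ∞ f) : ContDiff ℝ ∞ (grad2 u f) :=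
  ContDiff.sum fun i _ => (cd_pd hu i).mul (cd_pd hf i)

theorem cd_Tm (hu : ContDiff ℝ ∞ u) (hf : ContDiff ℝ ∞ f) (m : ℝ) : ContDiff ℝ ∞ (Tm m u f) :=
  ((cd_lap hf).add (contDiff_const.mul (cd_grad2 hu hf))).add
    (((contDiff_const.mul (cd_grad2 hu hu)).sub (contDiff_const.mul (cd_lap hu))).mul hf)

/-- exp(2ju) Δ_g^j a -/
def Wk (u a : E n → ℝ) : ℕ → E n → ℝ
  | 0 => a
  | j + 1 => Tm (2 * j) u (Wk u a j)

theorem cd_Wk (hu : ContDiff ℝ ∞ u) (ha : ContDiff ℝ ∞ a) (j : ℕ) : ContDiff ℝ ∞ (Wk u a j) := by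
  induction j with
  | zero => exact ha
  | succ j ih => exact cd_Tm hu ih _

theorem Lc_iter (hu : ContDiff ℝ ∞ u) (ha : ContDiff ℝ ∞ a) (j : ℕ) :
    (Lc u)^[j] a = fun y => Real.exp (-(2 * j * u y)) * Wk u a j y := by
  induction j with
  | zero => funext y; simp [Wk]
  | succ j ih =>
    funext y
    rw [Function.iterate_succ_apply', ih, Lc_exp hu (cd_Wk hu ha j), Wk]
    congr 3
    push_cast; ring

theorem integral_Sk_cf {k : ℕ} (hn : n = 2 * k + 4) (hu : ContDiff ℝ ∞ u) (ha : ContDiff ℝ ∞ a)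
    (hK : IsCompact K) (h0 : ∀ y, y ∉ K → a y = 0) :
    ∫ y, a y * (rho (cf u) y * lapPowRicciSq k (cf u) y Fin.elim0)
      = ∫ y in K, pp u y * Wk u a k y := by
  have hf : ContDiff ℝ ∞ fun w => nrm (cf u) w Fin.elim0 :=
    contDiffOn_univ.1 (isNatural_nrm.smT (good_cf hu) _)
  have e1 : ∀ y, lapPowRicciSq k (cf u) y Fin.elim0
      = (Lc u)^[k] (fun z => nrm (cf u) z Fin.elim0) y := fun y => congrFun (lapPow_cf hu k) y
  have e2 : ∀ y, nrm (cf u) y Fin.elim0 * (Real.exp (n * u y) * (Lc u)^[k] a y)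
      = pp u y * Wk u a k y := by
    intro y
    have h1 : Real.exp (-(4 * u y)) * Real.exp (n * u y) * Real.exp (-(2 * k * u y)) = 1 := by
      rw [← Real.exp_add, ← Real.exp_add, ← Real.exp_zero, hn]
      congr 1; push_cast; ring
    rw [nrm_cf hu, Lc_iter hu ha]
    linear_combination (pp u y * Wk u a k y) * h1
  simp only [e1, cf_rho]
  rw [green_iter hu hf hK k a ha h0, setIntegral_eq_integral_of_forall_compl_eq_zero fun y hy => by
    rw [← e2, Lc_iter_supp hK.isClosed h0 k y hy, mul_zero, mul_zero]]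
  simp only [e2]

theorem Lc_zero (f : E n → ℝ) : Lc (fun _ => 0) f = lap f := by
  funext y
  simp [Lc, lap]

theorem green_lap_iter (hf : ContDiff ℝ ∞ f) (ha : ContDiff ℝ ∞ a) (hK : IsCompact K)
    (h0 : ∀ y, y ∉ K → a y = 0) (k : ℕ) :
    ∫ y, a y * lap^[k] f y = ∫ y, f y * lap^[k] a y := by
  have h := green_iter (u := fun _ => 0) contDiff_const hf hK k a ha h0
  have e : Lc (n := n) (fun _ => 0) = lap := funext Lc_zero
  simpa [e] using h

theorem lap_iter_supp (hK : IsClosed K) (h0 : ∀ y, y ∉ K → f y = 0) (k : ℕ) :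
    ∀ y, y ∉ K → lap^[k] f y = 0 := by
  have e : Lc (n := n) (fun _ => 0) = lap := funext Lc_zero
  rw [← e]
  exact Lc_iter_supp hK h0 k

theorem Wk_zero (a : E n → ℝ) (j : ℕ) : Wk (fun _ => 0) a j = lap^[j] a := by
  induction j with
  | zero => rfl
  | succ j ih =>
    funext y
    have e : ∀ i : Fin n, pd i (fun _ : E n => (0 : ℝ)) = fun _ => 0 :=
      fun i => funext fun _ => pd_const 0
    rw [Function.iterate_succ_apply', Wk, ih]
    simp [Tm, grad2, lap, e]

end Pool.Agent.Lib.MP_18eb12_gt
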