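import Mathlib
import Pool.Agent.Lib.MP_18eb12_gt.H19Lap

set_option autoImplicit false

noncomputable section

namespace Pool.Agent.Lib.MP_18eb12_gt

open scoped ContDiff Topology Matrix
open Set Filter MeasureTheory

variable {n : ℕ}

/-- finite sums of products of a smooth function of the parameter and a smooth function -/
inductive SSep : (E 2 → E n → ℝ) → Prop
  | base (q : E 2 → ℝ) (φ : E n → ℝ) : ContDiff ℝ ∞ q → ContDiff ℝ ∞ φ → SSep fun p y => q p * φ y
  | add {f g : E 2 → E n → ℝ} : SSep f → SSep g → SSep fun p y => f p y + g p y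

theorem SSep.sep {f : E 2 → E n → ℝ} (hf : SSep f) : Sep f := by
  induction hf with
  | base q φ hq hφ => exact Sep.base q φ hq hφ.continuous
  | add _ _ ih ih' => exact ih.add ih'

theorem SSep.cd {f : E 2 → E n → ℝ} (hf : SSep f) (p : E 2) : ContDiff ℝ ∞ (f p) := by
  induction hf with
  | base q φ _ hφ => exact contDiff_const.mul hφ
  | add _ _ ih ih' => exact ih.add ih'

theorem SSep.congr {f g : E 2 → E n → ℝ} (hf : SSep f) (h : ∀ p y, g p y = f p y) : SSep g := by
  have : g = f := funext fun p => funext (h p)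
  rwa [this]

theorem SSep.const {φ : E n → ℝ} (hφ : ContDiff ℝ ∞ φ) : SSep fun (_ : E 2) y => φ y :=
  (SSep.base (fun _ => 1) φ contDiff_const hφ).congr fun _ _ => by simp

theorem SSep.mul {f g : E 2 → E n → ℝ} (hf : SSep f) (hg : SSep g) :
    SSep fun p y => f p y * g p y := by
  induction hf with
  | base q φ hq hφ =>
    induction hg with
    | base r ψ hr hψ =>
      exact (SSep.base (fun p => q p * r p) (fun y => φ y * ψ y) (hq.mul hr) (hφ.mul hψ)).congr
        fun _ _ => by ring
    | add _ _ ih ih' => exact (ih.add ih').congr fun _ _ => by ring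
  | add _ _ ih ih' => exact (ih.add ih').congr fun _ _ => by ring

theorem SSep.smul {f : E 2 → E n → ℝ} (c : ℝ) (hf : SSep f) : SSep fun p y => c * f p y :=
  (SSep.const contDiff_const).mul hf

theorem SSep.sub {f g : E 2 → E n → ℝ} (hf : SSep f) (hg : SSep g) :
    SSep fun p y => f p y - g p y :=
  (hf.add (hg.smul (-1))).congr fun _ _ => by ring

theorem SSep.sum {ι : Type*} (s : Finset ι) {f : ι → E 2 → E n → ℝ} (hf : ∀ a, SSep (f a)) :
    SSep fun p y => ∑ a ∈ s, f a p y := by
  classical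
  induction s using Finset.induction_on with
  | empty => exact (SSep.const (contDiff_const (c := (0 : ℝ)))).congr fun _ _ => by simp
  | insert a s ha ih => exact ((hf a).add ih).congr fun _ _ => by rw [Finset.sum_insert ha]

theorem SSep.pd {f : E 2 → E n → ℝ} (hf : SSep f) (i : Fin n) :
    SSep fun p y => MP_18eb12_gt.pd i (f p) y := by
  induction hf with
  | base q φ hq hφ =>
    exact (SSep.base q _ hq (cd_pd hφ i)).congr fun p y => pd_const_mul _ (cd_dAt hφ y)
  | add hf hg ih ih' =>
    exact (ih.add ih').congr fun p y => pd_add (cd_dAt (hf.cd p) y) (cd_dAt (hg.cd p) y)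

theorem SSep.lap {f : E 2 → E n → ℝ} (hf : SSep f) : SSep fun p y => MP_18eb12_gt.lap (f p) y :=
  SSep.sum Finset.univ fun i => (hf.pd i).pd i

theorem SSep.grad2 {f g : E 2 → E n → ℝ} (hf : SSep f) (hg : SSep g) :
    SSep fun p y => MP_18eb12_gt.grad2 (f p) (g p) y :=
  SSep.sum Finset.univ fun i => (hf.pd i).mul (hg.pd i)

variable {a b φ : E n → ℝ}

theorem ssep_fam (ha : ContDiff ℝ ∞ a) (hb : ContDiff ℝ ∞ b) : SSep (fam a b) :=
  (SSep.base (fun p => p 0) a (by fun_prop) ha).add (SSep.base (fun p => p 1) b (by fun_prop) hb)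

theorem ssep_Wk (ha : ContDiff ℝ ∞ a) (hb : ContDiff ℝ ∞ b) (hφ : ContDiff ℝ ∞ φ) (j : ℕ) :
    SSep fun p y => Wk (fam a b p) φ j y := by
  have hu := ssep_fam ha hb
  induction j with
  | zero => exact SSep.const hφ
  | succ j ih =>
    exact (ih.lap.add ((hu.grad2 ih).smul _)).add
      ((((hu.grad2 hu).smul _).sub (hu.lap.smul _)).mul ih)

/-- the integrand of the variation -/
def itgk (k : ℕ) (a b φ : E n → ℝ) (p : E 2) (y : E n) : ℝ :=
  pp (fam a b p) y * Wk (fam a b p) φ k y

theorem sep_itgk (k : ℕ) (ha : ContDiff ℝ ∞ a) (hb : ContDiff ℝ ∞ b) (hφ : ContDiff ℝ ∞ φ) :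
    Sep (itgk k a b φ) :=
  (Sep.sum Finset.univ fun j => Sep.sum Finset.univ fun l =>
    (sep_ric0 ha hb j l).mul (sep_ric0 ha hb j l)).mul (ssep_Wk ha hb hφ k).sep

theorem DD_itgk (k : ℕ) (ha : ContDiff ℝ ∞ a) (hb : ContDiff ℝ ∞ b) (hφ : ContDiff ℝ ∞ φ)
    (y : E n) (i : Fin 2) :
    DD i (fun p => itgk k a b φ p y)
      = ∑ j, ∑ l, 2 * lric b y j l * ![lric a y j l, lric b y j l] i * lap^[k] φ y := by
  have hW := ((ssep_Wk ha hb hφ k).sep.integral (volume : Measure (E n)) isCompact_empty 0).2.1 y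
  have hR := cd_ric0 ha hb y
  have e0 : fam a b 0 = fun _ => 0 := funext fun y => lin_zero _ _
  simp only [itgk, pp, Finset.sum_mul]
  rw [DD_sum fun j => ContDiff.sum fun l _ => ((hR j l).mul (hR j l)).mul hW]
  refine Finset.sum_congr rfl fun j _ => ?_
  rw [DD_sum fun l => ((hR j l).mul (hR j l)).mul hW]
  refine Finset.sum_congr rfl fun l _ => ?_
  rw [DD_sq_mul (hR j l) hW (by simp [ric0_fam ha hb]), pd_ric0 ha hb, pd_ric0 ha hb, e0, Wk_zero]
  simp

/-- the harmonic function exp(y_s) cos(y_t) -/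
def hrm (s t : Fin n) (y : E n) : ℝ := Real.exp (y s) * Real.cos (y t)

/-- its conjugate exp(y_s) sin(y_t) -/
def hrs (s t : Fin n) (y : E n) : ℝ := Real.exp (y s) * Real.sin (y t)

variable {s t : Fin n}

theorem cd_hrm : ContDiff ℝ ∞ (hrm s t) := by unfold hrm; fun_prop

theorem cd_hrs : ContDiff ℝ ∞ (hrs s t) := by unfold hrs; fun_prop

theorem pd_hrm (k : Fin n) : pd k (hrm s t)
    = fun y => (if s = k then 1 else 0) * hrm s t y - (if t = k then 1 else 0) * hrs s t y := by
  funext y
  unfold hrm hrs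
  rw [pd_mul (by fun_prop) (by fun_prop), pd_exp (by fun_prop),
    pd_comp_real (f := fun z : E n => z t) (Real.hasDerivAt_cos _) (by fun_prop), pd_coord, pd_coord]
  ring

theorem pd_hrs (k : Fin n) : pd k (hrs s t)
    = fun y => (if s = k then 1 else 0) * hrs s t y + (if t = k then 1 else 0) * hrm s t y := by
  funext y
  unfold hrm hrs
  rw [pd_mul (by fun_prop) (by fun_prop), pd_exp (by fun_prop),
    pd_comp_real (f := fun z : E n => z t) (Real.hasDerivAt_sin _) (by fun_prop), pd_coord, pd_coord]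
  ring

theorem pd_pd_hrm (j k : Fin n) (y : E n) : pd j (pd k (hrm s t)) y
    = (if s = k then 1 else 0) * ((if s = j then 1 else 0) * hrm s t y
        - (if t = j then 1 else 0) * hrs s t y)
      - (if t = k then 1 else 0) * ((if s = j then 1 else 0) * hrs s t y
        + (if t = j then 1 else 0) * hrm s t y) := by
  rw [pd_hrm, pd_sub ((cd_dAt cd_hrm y).const_mul _) ((cd_dAt cd_hrs y).const_mul _),
    pd_const_mul _ (cd_dAt cd_hrm y), pd_const_mul _ (cd_dAt cd_hrs y), pd_hrm, pd_hrs]

theorem lap_hrm (hst : s ≠ t) (y : E n) : lap (hrm s t) y = 0 := by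
  rw [lap, Fintype.sum_eq_add s t hst fun x hx => by simp [pd_pd_hrm, hx.1.symm, hx.2.symm]]
  simp [pd_pd_hrm, hst, hst.symm]

theorem sum_lric_hrm (hst : s ≠ t) (y : E n) :
    ∑ j, ∑ k, lric (hrm s t) y j k * lric (hrm s t) y j k
      = 2 * (2 - n) ^ 2 * Real.exp (2 * y s) := by
  have h1 : hrm s t y * hrm s t y + hrs s t y * hrs s t y = Real.exp (2 * y s) := by
    have h2 := Real.sin_sq_add_cos_sq (y t)
    rw [two_mul, Real.exp_add, hrm, hrs]
    linear_combination (Real.exp (y s) * Real.exp (y s)) * h2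
  simp only [lric, lap_hrm hst, ite_self, sub_zero]
  rw [Fintype.sum_eq_add s t hst fun x hx => by simp [pd_pd_hrm, hx.1.symm, hx.2.symm],
    Fintype.sum_eq_add s t hst fun x hx => by simp [pd_pd_hrm, hx.1.symm, hx.2.symm],
    Fintype.sum_eq_add s t hst fun x hx => by simp [pd_pd_hrm, hx.1.symm, hx.2.symm]]
  simp only [pd_pd_hrm, hst, hst.symm, if_true, if_false]
  linear_combination (2 * (2 - (n : ℝ)) ^ 2) * h1

theorem lap_exp (c : ℝ) (s : Fin n) :
    lap (fun y : E n => c * Real.exp (2 * y s)) = fun y => 4 * c * Real.exp (2 * y s) := by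
  have h1 : ∀ (c : ℝ) (k : Fin n), pd k (fun y : E n => c * Real.exp (2 * y s))
      = fun y => (2 * (if s = k then 1 else 0) * c) * Real.exp (2 * y s) := by
    intro c k
    funext y
    rw [pd_const_mul _ (by fun_prop), pd_exp (by fun_prop), pd_const_mul _ (by fun_prop), pd_coord]
    ring
  funext y
  simp only [lap, h1]
  rw [Finset.sum_eq_single s (fun k _ hk => by simp [hk.symm]) (by simp)]
  simp only [if_true]
  ring

theorem lap_iter_exp (c : ℝ) (s : Fin n) (k : ℕ) :
    lap^[k] (fun y : E n => c * Real.exp (2 * y s)) = fun y => 4 ^ k * c * Real.exp (2 * y s) := by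
  induction k with
  | zero => funext y; simp
  | succ k ih =>
    rw [Function.iterate_succ_apply', ih, lap_exp]
    funext y
    ring

theorem lap_iter_congr {f g : E n → ℝ} {U : Set (E n)} (hU : IsOpen U) (h : ∀ z ∈ U, f z = g z)
    (k : ℕ) : ∀ y ∈ U, lap^[k] f y = lap^[k] g y := by
  induction k with
  | zero => exact h
  | succ k ih =>
    intro y hy
    rw [Function.iterate_succ_apply', Function.iterate_succ_apply']
    exact lap_congr hU ih hy

theorem lap_iter_hrm (hst : s ≠ t) (k : ℕ) (y : E n) : lap^[k + 1] (hrm s t) y = 0 := by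
  rw [Function.iterate_succ_apply]
  exact lap_iter_supp (K := ∅) isClosed_empty (fun y _ => lap_hrm hst y) k y (notMem_empty y)

theorem keyk (hst : s ≠ t) (hn : n ≠ 2) (k : ℕ) (c : E n) {r : ℝ} (hr : 0 < r) :
    ∃ (a b : E n → ℝ) (K : Set (E n)), ContDiff ℝ ∞ a ∧ ContDiff ℝ ∞ b ∧ IsCompact K ∧
      K ⊆ Metric.ball c r ∧ (∀ y, y ∉ K → a y = 0) ∧ (∀ y, y ∉ K → b y = 0) ∧
      DD 1 (fun p => ∫ y in K, itgk (k + 1) a b a p y)
        ≠ DD 0 (fun p => ∫ y in K, itgk (k + 1) a b b p y) := by
  let α : ContDiffBump c := ⟨r / 8, r / 4, by positivity, by linarith⟩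
  let β : ContDiffBump c := ⟨r / 2, 3 * r / 4, by positivity, by linarith⟩
  have ha : ContDiff ℝ ∞ α := α.contDiff
  have hb : ContDiff ℝ ∞ fun y => β y * hrm s t y := β.contDiff.mul cd_hrm
  have hK : IsCompact (Metric.closedBall c (3 * r / 4)) := isCompact_closedBall _ _
  have hK' : IsCompact (Metric.closedBall c (r / 4)) := isCompact_closedBall _ _
  have a0 : ∀ y, y ∉ Metric.closedBall c (r / 4) → α y = 0 := fun y hy =>
    α.zero_of_le_dist (by simp at hy; exact hy.le)
  have hsub : Metric.closedBall c (r / 4) ⊆ Metric.closedBall c (3 * r / 4) :=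
    Metric.closedBall_subset_closedBall (by linarith)
  have hsub' : Metric.closedBall c (r / 4) ⊆ Metric.ball c (r / 2) :=
    Metric.closedBall_subset_ball (by linarith)
  have b1 : ∀ y ∈ Metric.ball c (r / 2), β y * hrm s t y = hrm s t y := fun y hy => by
    rw [β.one_of_mem_closedBall (Metric.ball_subset_closedBall hy), one_mul]
  have a2 : ∀ y, y ∉ Metric.closedBall c (r / 4) → ∀ j k, pd j (pd k α) y = 0 := fun y hy j k =>
    pd_zero_of_supp hK'.isClosed (pd_zero_of_supp hK'.isClosed a0 k) j y hy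
  have a3 := lap_iter_supp hK'.isClosed a0 (k + 1)
  refine ⟨α, fun y => β y * hrm s t y, Metric.closedBall c (3 * r / 4), ha, hb, hK,
    Metric.closedBall_subset_ball (by linarith), fun y hy => a0 y fun h => hy (hsub h),
    fun y hy => ?_, ?_⟩
  · have : β y = 0 := β.zero_of_le_dist (by simp at hy; exact hy.le)
    simp [this]
  rw [((sep_itgk _ ha hb ha).integral volume hK 1).2.2.2.2,
    ((sep_itgk _ ha hb hb).integral volume hK 0).2.2.2.2]
  simp only [DD_itgk _ ha hb ha, DD_itgk _ ha hb hb]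
  have e1 : ∀ y, ∑ j, ∑ l, 2 * lric (fun y => β y * hrm s t y) y j l
      * ![lric α y j l, lric (fun y => β y * hrm s t y) y j l] 0
      * lap^[k + 1] (fun y => β y * hrm s t y) y = 0 := by
    intro y
    by_cases hy : y ∈ Metric.closedBall c (r / 4)
    · rw [lap_iter_congr Metric.isOpen_ball b1 _ y (hsub' hy), lap_iter_hrm hst]
      simp
    · simp [lric, lap, a2 y hy]
  have e2 : ∀ y, ∑ j, ∑ l, 2 * lric (fun y => β y * hrm s t y) y j l
      * ![lric α y j l, lric (fun y => β y * hrm s t y) y j l] 1 * lap^[k + 1] α y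
      = 2 * (2 * (2 - n) ^ 2 * Real.exp (2 * y s) * lap^[k + 1] α y) := by
    intro y
    by_cases hy : y ∈ Metric.closedBall c (r / 4)
    · rw [← sum_lric_hrm hst]
      simp only [lric_congr Metric.isOpen_ball b1 (hsub' hy), Finset.sum_mul,
        Finset.mul_sum, Matrix.cons_val_one, Matrix.cons_val_zero]
      exact Finset.sum_congr rfl fun j _ => Finset.sum_congr rfl fun k _ => by ring
    · rw [a3 y hy]; simp
  simp only [e1, e2, integral_zero]
  rw [setIntegral_eq_integral_of_forall_compl_eq_zero fun y hy => by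
    rw [a3 y fun h => hy (hsub h), mul_zero, mul_zero], integral_const_mul]
  have g1 := green_lap_iter (f := fun y : E n => 2 * (2 - n) ^ 2 * Real.exp (2 * y s))
    (by fun_prop) ha hK' a0 (k + 1)
  rw [← g1, lap_iter_exp]
  have h2 : (2 - n : ℝ) ≠ 0 := sub_ne_zero.2 (by exact_mod_cast hn.symm)
  have hpos : 0 < ∫ y, α y * (4 ^ (k + 1) * (2 * (2 - n) ^ 2) * Real.exp (2 * y s)) := by
    refine Continuous.integral_pos_of_hasCompactSupport_nonneg_nonzero (x := c)
      (ha.continuous.mul (by fun_prop)) (HasCompactSupport.intro hK' fun y hy => by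
        rw [a0 y hy, zero_mul]) (fun y => mul_nonneg α.nonneg (by positivity)) ?_
    rw [α.one_of_mem_closedBall (Metric.mem_closedBall_self α.rIn_pos.le)]
    positivity
  positivity

end Pool.Agent.Lib.MP_18eb12_gt
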