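import Mathlib
import Pool.Agent.Lib.MP_18eb12_gt.H19Key
import Pool.Agent.Lib.MP_18eb12_gt.Final

set_option autoImplicit false

noncomputable section

namespace Pool.Agent.Lib.MP_18eb12_gt

open scoped ContDiff Topology Matrix Manifold
open Set Filter MeasureTheory

variable {n : ℕ} {M : Type} [TopologicalSpace M] [CompactSpace M] [ChartedSpace (E n) M]
  [IsManifold 𝓘(ℝ, E n) ∞ M] [MeasurableSpace M] [BorelSpace M]

theorem integral_Sk {m : ℕ} (hn : n = 2 * m + 4) {g : RMetric (E n) M} {x₀ : M} {U K : Set (E n)} {u φ : E n → ℝ}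
    (hU : IsOpen U) (hUt : U ⊆ (chartAt (E n) x₀).target) (hK : IsCompact K) (hKU : K ⊆ U)
    (hu : ContDiff ℝ ∞ u) (hφ : ContDiff ℝ ∞ φ) (h0 : ∀ y, y ∉ K → φ y = 0)
    (hg : ∀ y ∈ U, coord g x₀ y = cf u y) {Φ : Smooth (E n) M}
    (hΦ0 : ∀ p, p ∉ (chartAt (E n) x₀).source → Φ p = 0)
    (hΦ : ∀ y ∈ (chartAt (E n) x₀).target, Φ ((chartAt (E n) x₀).symm y) = φ y) :
    ∫ p, Φ p * onM (lapPowRicciSq m) g p ∂vol g = ∫ y in K, pp u y * Wk u φ m y := by
  have hS := isNatural_lapPow (n := n) m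
  rw [integral_vol g x₀ (Φ.contMDiff.continuous.fun_mul (contMDiff_onM hS g).continuous)
    fun p hp => by rw [hΦ0 p hp, zero_mul], ← integral_Sk_cf hn hu hφ hK h0,
    ← setIntegral_eq_integral_of_forall_compl_eq_zero (s := (chartAt (E n) x₀).target)
      (f := fun y => φ y * (rho (cf u) y * lapPowRicciSq m (cf u) y Fin.elim0))
      fun y hy => by rw [h0 y fun h => hy (hUt (hKU h)), zero_mul]]
  refine setIntegral_congr_fun (chartAt (E n) x₀).open_target.measurableSet fun y hy => ?_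
  rw [hΦ y hy]
  by_cases hyK : y ∈ K
  · rw [onM_eq hS g ((chartAt (E n) x₀).map_target hy), (chartAt (E n) x₀).right_inv hy,
      hS.local_eq ((good_cf hu).mono hU (subset_univ _)) hg (hKU hyK), rho, rho, hg y (hKU hyK)]
    ring
  · rw [h0 y hyK]; ring

theorem integral_QLn {g₀ : RMetric (E n) M} {x₀ : M} {c : ℝ} {Q L : Met n → Ten n 0}
    (hQ : IsNatural n 0 Q) (hL : IsNatural n 0 L) (hQl : QLaw n (onM (M := M) Q))
    (hLl : LocalConfInv n (onM (M := M) L)) (A B Φ : Smooth (E n) M)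
    (hΦ0 : ∀ p, p ∉ (chartAt (E n) x₀).source → Φ p = 0) :
    ∃ k α β : ℝ, ∀ p : E 2, ∫ x, Φ x * (c * onM Q (conf g₀ (p 0 • A + p 1 • B)) x
      + onM L (conf g₀ (p 0 • A + p 1 • B)) x) ∂vol (conf g₀ (p 0 • A + p 1 • B))
        = k + lin α β p := by
  obtain ⟨P, hP⟩ := hQl g₀
  have cQ := fun g : RMetric (E n) M => (contMDiff_onM hQ g).continuous
  have cL := fun g : RMetric (E n) M => (contMDiff_onM hL g).continuous
  have cΦ := Φ.contMDiff.continuous
  have cP : ∀ w : Smooth (E n) M, Continuous (P w) := by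
    intro w
    have h1 : P w = fun x => Real.exp (n * w x) * onM Q (conf g₀ w) x - onM Q g₀ x :=
      funext fun x => by rw [hP _ w (isConf_conf g₀ w) x]; ring
    have h2 := w.contMDiff.continuous
    rw [h1]
    exact (Real.continuous_exp.comp (continuous_const.mul h2)).mul (cQ _) |>.sub (cQ _)
  refine ⟨∫ x, Φ x * (c * onM Q g₀ x + onM L g₀ x) ∂vol g₀, ∫ x, Φ x * (c * P A x) ∂vol g₀,
    ∫ x, Φ x * (c * P B x) ∂vol g₀, fun p => ?_⟩
  have i1 := integrable_vol g₀
    (cΦ.fun_mul ((continuous_const (y := c).fun_mul (cQ g₀)).fun_add (cL g₀)))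
  have i2 := integrable_vol g₀ (cΦ.fun_mul (continuous_const (y := c).fun_mul (cP A)))
  have i3 := integrable_vol g₀ (cΦ.fun_mul (continuous_const (y := c).fun_mul (cP B)))
  have i4 : Integrable (fun x => p 0 * (Φ x * (c * P A x)) + p 1 * (Φ x * (c * P B x))) (vol g₀) :=
    (i2.const_mul _).add (i3.const_mul _)
  rw [(isConf_conf g₀ _).integral (p 0 • A + p 1 • B).contMDiff.continuous x₀
    (cΦ.fun_mul ((continuous_const.fun_mul (cQ _)).fun_add (cL _))) fun p hp => by rw [hΦ0 p hp, zero_mul],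
    lin, ← integral_const_mul, ← integral_const_mul,
    ← integral_add (i2.const_mul _) (i3.const_mul _),
    ← integral_add i1 i4]
  refine integral_congr_ae (Eventually.of_forall fun x => ?_)
  have h1 := hP _ _ (isConf_conf g₀ (p 0 • A + p 1 • B)) x
  have h2 := hLl _ _ _ (isConf_conf g₀ (p 0 • A + p 1 • B)) x
  rw [map_add, map_smul, map_smul] at h1
  simp only [Pi.add_apply, Pi.smul_apply, smul_eq_mul] at h1
  dsimp only
  linear_combination (Φ x * c) * h1 + Φ x * h2

theorem no_decomposition_n [T2Space M] [Nonempty M] {m : ℕ} (hn : n = 2 * (m + 1) + 4) (c : ℝ)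
    {Q L G : Met n → Ten n 0}
    (F : RMetric (E n) M → M → ℝ)
    (hQ : IsNatural n 0 Q) (hL : IsNatural n 0 L) (hQl : QLaw n (onM (M := M) Q))
    (hLl : LocalConfInv n (onM (M := M) L)) (hF : IsPrimitive vol F (onM G)) :
    ¬ ∀ (g : RMetric (E n) M) (x : M),
      onM (lapPowRicciSq (m + 1)) g x = c * onM Q g x + onM L g x + onM G g x := by
  intro hdec
  obtain ⟨x₀⟩ := ‹Nonempty M›
  obtain ⟨g₀, r, hr, hrt, hg₀⟩ := exists_flat (n := n) x₀
  obtain ⟨a, b, K, ha, hb, hK, hKr, ha0, hb0, hne⟩ := 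
    keyk (s := ⟨0, by omega⟩) (t := ⟨1, by omega⟩) (by simp) (by omega) m (chartAt (E n) x₀ x₀) hr
  have hUt : Metric.ball (chartAt (E n) x₀ x₀) r ⊆ (chartAt (E n) x₀).target :=
    Metric.ball_subset_closedBall.trans hrt
  obtain ⟨A, hA0, hA⟩ := exists_lift x₀ ha hK (hKr.trans hUt) ha0
  obtain ⟨B, hB0, hB⟩ := exists_lift x₀ hb hK (hKr.trans hUt) hb0
  let g : E 2 → RMetric (E n) M := fun p => conf g₀ (p 0 • A + p 1 • B)
  have hw : ∀ (s t : ℝ) (x : M), (s • A + t • B) x = s * A x + t * B x := fun _ _ _ => rfl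
  have hg : ∀ p, ∀ y ∈ Metric.ball (chartAt (E n) x₀ x₀) r, coord (g p) x₀ y = cf (fam a b p) y := by
    intro p y hy
    rw [(isConf_conf g₀ _).coord, hg₀ y (Metric.ball_subset_closedBall hy), hw, hA y (hUt hy),
      hB y (hUt hy)]
    rfl
  have hS := isNatural_lapPow (n := n) (m + 1)
  have var : ∀ (φ : E n → ℝ) (Φ : Smooth (E n) M), ContDiff ℝ ∞ φ → (∀ y, y ∉ K → φ y = 0) →
      (∀ p, p ∉ (chartAt (E n) x₀).source → Φ p = 0) →
      (∀ y ∈ (chartAt (E n) x₀).target, Φ ((chartAt (E n) x₀).symm y) = φ y) →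
      ∃ k α β : ℝ, ∀ p, ∫ x, Φ x * onM G (g p) x ∂vol (g p)
        = (∫ y in K, itgk (m + 1) a b φ p y) + (k + lin α β p) := by
    intro φ Φ hφ h0 hΦ0 hΦ
    obtain ⟨k, α, β, h⟩ := integral_QLn (g₀ := g₀) (c := c) hQ hL hQl hLl A B Φ hΦ0
    refine ⟨-k, -α, -β, fun p => ?_⟩
    have h1 := integral_Sk hn Metric.isOpen_ball hUt hK hKr (cd_fam ha hb p) hφ h0 (hg p) hΦ0 hΦ
    have cΦ := Φ.contMDiff.continuous
    have h2 := integral_sub (integrable_vol (g p) (cΦ.fun_mul (contMDiff_onM hS (g p)).continuous))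
      (integrable_vol (g p) (cΦ.fun_mul ((continuous_const (y := c).fun_mul
        (contMDiff_onM hQ (g p)).continuous).fun_add (contMDiff_onM hL (g p)).continuous)))
    have h3 : ∫ x, Φ x * onM G (g p) x ∂vol (g p) = ∫ x, (Φ x * onM (lapPowRicciSq (m + 1)) (g p) x
        - Φ x * (c * onM Q (g p) x + onM L (g p) x)) ∂vol (g p) :=
      integral_congr_ae (Eventually.of_forall fun x => by dsimp only; rw [hdec]; ring)
    rw [h3, h2, h1, h p]
    simp only [itgk, lin]
    ring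
  obtain ⟨k₁, α₁, β₁, hA'⟩ := var a A ha ha0 hA0 hA
  obtain ⟨k₂, α₂, β₂, hB'⟩ := var b B hb hb0 hB0 hB
  have sA := ((sep_itgk (m + 1) ha hb ha).integral volume hK 0).2.2.2.1
  have sB := ((sep_itgk (m + 1) ha hb hb).integral volume hK 0).2.2.2.1
  have cA := sA.add ((contDiff_const (c := k₁)).add (cd_lin α₁ β₁))
  have cB := sB.add ((contDiff_const (c := k₂)).add (cd_lin α₂ β₂))
  have cl := clairaut (fun s t => ∫ x, F (g ![s, t]) x ∂vol (g ![s, t])) cA cB (fun s t => ?_)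
    (fun s t => ?_)
  · have h1 : DD 1 (fun p => (∫ y in K, itgk (m + 1) a b a p y) + (k₁ + lin α₁ β₁ p))
        = DD 0 (fun p => (∫ y in K, itgk (m + 1) a b b p y) + (k₂ + lin α₂ β₂ p)) := by
      rw [DD, DD, funext cl]
    rw [DD_add sA ((contDiff_const (c := k₁)).add (cd_lin α₁ β₁)),
      DD_add sB ((contDiff_const (c := k₂)).add (cd_lin α₂ β₂)), DD_affine, DD_affine, add_zero,
      add_zero] at h1
    exact hne h1
  · have h1 := hF (g ![s, t]) A (fun ε => g ![s + ε, t]) fun ε x u v => by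
      simp only [g, gval_conf, hw, Matrix.cons_val_zero, Matrix.cons_val_one]
      rw [← mul_assoc, ← Real.exp_add]
      congr 2; ring
    rw [hA'] at h1
    have h2 := HasDerivAt.comp_sub_const s s (by rw [sub_self]; exact h1)
    simpa only [add_sub_cancel] using h2
  · have h1 := hF (g ![s, t]) B (fun ε => g ![s, t + ε]) fun ε x u v => by
      simp only [g, gval_conf, hw, Matrix.cons_val_zero, Matrix.cons_val_one]
      rw [← mul_assoc, ← Real.exp_add]
      congr 2; ring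
    rw [hB'] at h1
    have h2 := HasDerivAt.comp_sub_const t t (by rw [sub_self]; exact h1)
    simpa only [add_sub_cancel] using h2

theorem confInv_lapPow [T2Space M] (m : ℕ) :
    ConfInvIntegral vol (onM (M := M) (lapPowRicciSq (n := n) (m + 1))) := by
  intro g g' _ _
  have hX : IsNatural n 1 fun g => cov (k := 0) g (lapPowRicciSq m g) :=
    IsNatural.ofCov (isNatural_lapPow m)
  rw [lapPow_succ, integral_divN hX, integral_divN hX]

theorem exists_closed_n (n : ℕ) : ∃ (M : Type) (_ : TopologicalSpace M) (_ : ChartedSpace (E n) M),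
    T2Space M ∧ CompactSpace M ∧ IsManifold 𝓘(ℝ, E n) ∞ M ∧ Nonempty M := by
  have : Fact (Module.finrank ℝ (EuclideanSpace ℝ (Fin (n + 1))) = n + 1) := ⟨by simp⟩
  let S := Metric.sphere (0 : EuclideanSpace ℝ (Fin (n + 1))) 1
  let L : EuclideanSpace ℝ (Fin n) ≃L[ℝ] E n := EuclideanSpace.equiv (Fin n) ℝ
  let C : ChartedSpace (E n) S :=
    { atlas := (fun e => e.transHomeomorph L.toHomeomorph) '' atlas (EuclideanSpace ℝ (Fin n)) S
      chartAt := fun x => (chartAt (EuclideanSpace ℝ (Fin n)) x).transHomeomorph L.toHomeomorph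
      mem_chart_source := fun x => mem_chart_source (EuclideanSpace ℝ (Fin n)) x
      chart_mem_atlas := fun x => ⟨_, chart_mem_atlas _ x, rfl⟩ }
  refine ⟨S, inferInstance, C, inferInstance, inferInstance, ?_,
    (NormedSpace.sphere_nonempty.2 zero_le_one).to_subtype⟩
  apply isManifold_of_contDiffOn
  rintro _ _ ⟨e, he, rfl⟩ ⟨e', he', rfl⟩
  have h := (contDiffGroupoid ∞ (𝓡 n)).compatible he he'
  have h1 : ContDiffOn ℝ ∞ (e.symm ≫ₕ e') (e.symm ≫ₕ e').source := by
    simpa [contDiffPregroupoid] using (mem_groupoid_of_pregroupoid.1 h).1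
  have h2 := L.contDiff.comp_contDiffOn (h1.comp (s := L.symm ⁻¹' (e.symm ≫ₕ e').source)
    L.symm.contDiff.contDiffOn fun _ hx => hx)
  simpa [Function.comp_assoc, preimage_comp] using h2

end Pool.Agent.Lib.MP_18eb12_gt
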