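import Mathlib
import Pool.Agent.Lib.MP_18eb12_gt.H19Lap

set_option autoImplicit false

noncomputable section

namespace Pool.Agent.Lib.MP_18eb12_gt

variable {n : ℕ} {c : ℝ}

theorem pd_cmul (c : ℝ) (f : E n → ℝ) (i : Fin n) (y : E n) :
    pd i (fun z => c * f z) y = c * pd i f y := by
  unfold pd
  rw [show (fun z => c * f z) = c • f from rfl, fderiv_const_smul_field]
  rfl

theorem inv_cmul (hc : c ≠ 0) (A : Matrix (Fin n) (Fin n) ℝ) (i j : Fin n) :
    (c • A)⁻¹ i j = c⁻¹ * A⁻¹ i j := by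
  by_cases h : IsUnit A.det
  · have : (c • A)⁻¹ = c⁻¹ • A⁻¹ := by
      apply Matrix.inv_eq_left_inv
      rw [smul_mul_smul_comm, inv_mul_cancel₀ hc, one_smul, Matrix.nonsing_inv_mul _ h]
    rw [this]; rfl
  · have h' : ¬ IsUnit (c • A).det := by
      rw [Matrix.det_smul]
      exact fun h2 => h (isUnit_of_mul_isUnit_right h2)
    rw [Matrix.nonsing_inv_apply_not_isUnit _ h, Matrix.nonsing_inv_apply_not_isUnit _ h']
    simp

theorem chr_cmul (hc : c ≠ 0) (g : Met n) : chr (fun z => c • g z) = chr g := by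
  funext y m i j
  simp only [chr, inv_cmul hc, Matrix.smul_apply, smul_eq_mul, pd_cmul]
  congr 1
  refine Finset.sum_congr rfl fun p _ => ?_
  field_simp

theorem riem_cmul (hc : c ≠ 0) (g : Met n) (y : E n) (I : Fin 4 → Fin n) :
    riem (fun z => c • g z) y I = c * riem g y I := by
  simp only [riem, chr_cmul hc, Matrix.smul_apply, smul_eq_mul, Finset.mul_sum, mul_assoc]

theorem ricciN_cmul (hc : c ≠ 0) (g : Met n) : ricciN (fun z => c • g z) = ricciN g := by
  funext y i j
  simp only [ricciN, riem_cmul hc, inv_cmul hc]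
  refine Finset.sum_congr rfl fun a _ => Finset.sum_congr rfl fun b _ => ?_
  field_simp

theorem ricciSqN_cmul (hc : c ≠ 0) (g : Met n) :
    ricciSqN (fun z => c • g z) = fun y I => c⁻¹ ^ 2 * ricciSqN g y I := by
  funext y I
  simp only [ricciSqN, ricciN_cmul hc, inv_cmul hc, Finset.mul_sum]
  refine Finset.sum_congr rfl fun a _ => Finset.sum_congr rfl fun b _ =>
    Finset.sum_congr rfl fun _ _ => Finset.sum_congr rfl fun _ _ => ?_
  ring

theorem cov_cmul {k : ℕ} (hc : c ≠ 0) (d : ℝ) (g : Met n) (T : Ten n k) :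
    cov (fun z => c • g z) (fun y I => d * T y I) = fun y I => d * cov g T y I := by
  funext y I
  simp only [cov, chr_cmul hc, pd_cmul, mul_sub, Finset.mul_sum]
  congr 1
  exact Finset.sum_congr rfl fun a _ => Finset.sum_congr rfl fun m _ => by ring

theorem lapN_cmul (hc : c ≠ 0) (d : ℝ) (g : Met n) (T : Ten n 0) :
    lapN (fun z => c • g z) (fun y I => d * T y I) = fun y I => c⁻¹ * d * lapN g T y I := by
  funext y I
  simp only [lapN, cov_cmul hc, contr, inv_cmul hc, Finset.mul_sum]
  exact Finset.sum_congr rfl fun a _ => Finset.sum_congr rfl fun m _ => by ring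

theorem lapPow_cmul (hc : c ≠ 0) (g : Met n) (k : ℕ) :
    lapPowRicciSq k (fun z => c • g z) = fun y I => c⁻¹ ^ (k + 2) * lapPowRicciSq k g y I := by
  induction k with
  | zero => exact ricciSqN_cmul hc g
  | succ k ih =>
    unfold lapPowRicciSq at ih ⊢
    rw [Function.iterate_succ_apply', ih, lapN_cmul hc, Function.iterate_succ_apply']
    funext y I
    ring

theorem lapPow_weight {k : ℕ} (hn : n = 2 * k + 4) (hc : c ≠ 0) (g : Met n) (y : E n)
    (I : Fin 0 → Fin n) :
    c ^ n * lapPowRicciSq k (fun z => c ^ 2 • g z) y I = lapPowRicciSq k g y I := by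
  rw [lapPow_cmul (pow_ne_zero 2 hc), ← mul_assoc, inv_pow, ← pow_mul,
    show 2 * (k + 2) = n by omega, mul_inv_cancel₀ (pow_ne_zero n hc), one_mul]

end Pool.Agent.Lib.MP_18eb12_gt
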